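import Mathlib

/-!
# Definitions for MP_21c4c4_lc: polynomial time (Cobham's function algebra, with an oracle),
# PP, the polynomial hierarchy relative to a PP oracle, straight-line programs and BitSLP.

Natural numbers are used as binary strings; `Nat.size x` is the binary length of `x`.
-/

open scoped Classical

noncomputable section

namespace MP21c4c4

/-- Recursion on notation: `lrn g h v 0 = g v` and, for `x > 0`,
`lrn g h v x = h (x, lrn g h v (x / 2), v)`. -/
def lrn {k : ℕ} (g : (Fin k → ℕ) → ℕ) (h : (Fin (k + 2) → ℕ) → ℕ) (v : Fin k → ℕ) : ℕ → ℕ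
  | 0 => g v
  | x + 1 => h (Fin.cons (x + 1) (Fin.cons (lrn g h v ((x + 1) / 2)) v))
decreasing_by exact Nat.div_lt_self (Nat.succ_pos x) (by norm_num)

/-- Functions computable in polynomial time with the oracle `A` (Cobham's class relative to `A`):
the smallest class of functions `ℕ^k → ℕ` which contains the constants, the projections, addition,
truncated subtraction, multiplication, integer division, the binary length, the smash function
`2 ^ (|x| * |y|)` and the characteristic function of `A`, and is closed under composition and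
limited (bounded) recursion on notation. -/
inductive FP (A : Set ℕ) : (k : ℕ) → ((Fin k → ℕ) → ℕ) → Prop
  | const {k : ℕ} (c : ℕ) : FP A k (fun _ => c)
  | proj {k : ℕ} (i : Fin k) : FP A k (fun v => v i)
  | add : FP A 2 (fun v => v 0 + v 1)
  | sub : FP A 2 (fun v => v 0 - v 1)
  | mul : FP A 2 (fun v => v 0 * v 1)
  | div : FP A 2 (fun v => v 0 / v 1)
  | size : FP A 1 (fun v => Nat.size (v 0))
  | smash : FP A 2 (fun v => 2 ^ (Nat.size (v 0) * Nat.size (v 1)))
  | oracle : FP A 1 (fun v => if v 0 ∈ A then 1 else 0)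
  | comp {k m : ℕ} {f : (Fin m → ℕ) → ℕ} {g : Fin m → (Fin k → ℕ) → ℕ} :
      FP A m f → (∀ i, FP A k (g i)) → FP A k (fun v => f (fun i => g i v))
  | recN {k : ℕ} {g : (Fin k → ℕ) → ℕ} {h : (Fin (k + 2) → ℕ) → ℕ}
      {b : (Fin (k + 1) → ℕ) → ℕ} :
      FP A k g → FP A (k + 2) h → FP A (k + 1) b →
      (∀ x v, lrn g h v x ≤ b (Fin.cons x v)) →
      FP A (k + 1) (fun v => lrn g h (Fin.tail v) (v 0))

/-- A relation is decidable in polynomial time with oracle `A`. -/
def PolyRel (A : Set ℕ) (k : ℕ) (R : (Fin k → ℕ) → Prop) : Prop :=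
  FP A k (fun v => if R v then 1 else 0)

/-- The class PP: `x ∈ L` iff more than half of the strings `y` of length `p(|x|)` satisfy a
polynomial time relation `R(x, y)` (no oracle). -/
def PP : Set (Set ℕ) :=
  {L | ∃ (R : (Fin 2 → ℕ) → Prop) (p : Polynomial ℕ), PolyRel ∅ 2 R ∧
    ∀ x, x ∈ L ↔ 2 ^ (p.eval (Nat.size x)) <
      2 * ((Finset.range (2 ^ (p.eval (Nat.size x)))).filter (fun y => R ![x, y])).card}

/-- Total length of a tuple of inputs. -/
def len {k : ℕ} (v : Fin k → ℕ) : ℕ := ∑ i, Nat.size (v i)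

/-- Relations in the `r`-th existential level of the polynomial hierarchy relative to `A`:
`SigmaRel A 0` = polynomial time with oracle `A`; `R ∈ SigmaRel A (r + 1)` iff
`R v ↔ ∃ y, |y| ≤ p(|v|), S (y, v)` where the complement of `S` is in `SigmaRel A r`. -/
def SigmaRel (A : Set ℕ) : ℕ → (k : ℕ) → ((Fin k → ℕ) → Prop) → Prop
  | 0, k, R => PolyRel A k R
  | r + 1, k, R => ∃ (p : Polynomial ℕ) (S : (Fin (k + 1) → ℕ) → Prop),
      SigmaRel A r (k + 1) (fun v => ¬ S v) ∧
      ∀ v, R v ↔ ∃ y < 2 ^ (p.eval (len v)), S (Fin.cons y v)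

/-- The class `Σ_r^{p,PP}`. -/
def SigmaPP (r : ℕ) : Set (Set ℕ) :=
  {L | ∃ A ∈ PP, SigmaRel A r 1 (fun v => v 0 ∈ L)}

/-- The class `PH^PP`. -/
def PHPP : Set (Set ℕ) := {L | ∃ r, L ∈ SigmaPP r}

/-- The three operations of a straight-line program. -/
inductive Op
  | add
  | sub
  | mul

/-- The integer operation. -/
def Op.ev : Op → ℤ → ℤ → ℤ
  | Op.add, a, b => a + b
  | Op.sub, a, b => a - b
  | Op.mul, a, b => a * b

/-- Code number of an operation. -/
def Op.code : Op → ℕ
  | Op.add => 0
  | Op.sub => 1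
  | Op.mul => 2

/-- A straight-line program: the entry number `k` (`k = 0, 1, …`) of the list is the instruction
`(op, i, j)` which computes `x_{k+1} = x_i op x_j`; here `x_0 = 1`. -/
abbrev SLP := List (Op × ℕ × ℕ)

/-- The instruction for `x_{k+1}` refers only to `x_0, …, x_k`. -/
def Valid (P : SLP) : Prop :=
  ∀ (k : ℕ) (c : Op × ℕ × ℕ), P[k]? = some c → c.2.1 ≤ k ∧ c.2.2 ≤ k

/-- The list `[x_0, …, x_m]` of the values. -/
def vals (P : SLP) : List ℤ :=
  P.foldl (fun l c => l ++ [c.1.ev (l.getD c.2.1 0) (l.getD c.2.2 0)]) [1]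

/-- The integer `N(P) = x_m` represented by the program. -/
def value (P : SLP) : ℤ := (vals P).getLastD 1

/-- Self-delimiting code of a list of natural numbers: base 4 digits (least significant first);
every number is written in binary (least significant digit first) followed by the separator 2. -/
def encList (l : List ℕ) : ℕ := Nat.ofDigits 4 (l.flatMap (fun a => Nat.digits 2 a ++ [2]))

/-- The code of an instance `(P, i, b)` of BitSLP. -/
def code (P : SLP) (i b : ℕ) : ℕ :=
  encList (i :: b :: P.flatMap (fun c => [c.1.code, c.2.1, c.2.2]))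

/-- BitSLP: the set of codes of triples `(P, i, b)` such that the `i`-th bit of the binary
expansion of `|N(P)|` is `b`. -/
def BitSLP : Set ℕ :=
  {x | ∃ (P : SLP) (i b : ℕ), Valid P ∧ b ≤ 1 ∧ x = code P i b ∧
    ((value P).natAbs / 2 ^ i) % 2 = b}

end MP21c4c4
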