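import Pool.Agent.Lib.MP_21c4c4_lc.Spec

section
/-!
# MP_21c4c4_lc, module APPROX: `alpha X` is very close to `X / 2 ^ j`.
-/
namespace MP21c4c4

namespace Approx

/-- `2 (w - 1) ^ w ≤ w ^ w`. -/
lemma two_pow_pred (u : ℕ) : 2 * u ^ (u + 1) ≤ (u + 1) ^ (u + 1) := by
  have h1 : u ^ (u + 1) + (u + 1) * u ^ u ≤ (u + 1) ^ (u + 1) := by
    have := add_pow u 1 (u + 1)
    rw [this, Finset.sum_range_succ, Finset.sum_range_succ]
    simp only [one_pow, mul_one]
    have e1 : (u + 1).choose (u + 1) = 1 := Nat.choose_self _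
    have e2 : (u + 1).choose u = u + 1 := by
      rw [Nat.choose_succ_self_right]
    rw [e1, e2]
    nlinarith [Nat.zero_le (∑ x ∈ Finset.range u, u ^ x * (u + 1).choose x)]
  have h2 : u ^ (u + 1) = u * u ^ u := by rw [pow_succ]; ring
  nlinarith [Nat.zero_le (u ^ u)]

lemma pred_pow (w E : ℕ) (hw : 1 ≤ w) : ((w : ℚ) - 1) ^ (w * E) * 2 ^ E ≤ (w : ℚ) ^ (w * E) := by
  obtain ⟨u, rfl⟩ : ∃ u, w = u + 1 := ⟨w - 1, by omega⟩
  have h := two_pow_pred u
  have h' : 2 * (u : ℚ) ^ (u + 1) ≤ ((u : ℚ) + 1) ^ (u + 1) := by exact_mod_cast h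
  have e : (((u + 1 : ℕ) : ℚ) - 1) = u := by push_cast; ring
  rw [e, pow_mul, pow_mul, ← mul_pow]
  push_cast
  apply pow_le_pow_left₀ (by positivity)
  linarith

/-- the purely arithmetical core -/
lemma approxCore (A G C W P Y w X : ℚ) (j E r Q N : ℕ) (hCpos : 0 < C) (hGpos : 0 ≤ G)
    (hw : 0 ≤ w) (hwr : w ≤ 2 ^ r) (hX0 : 0 ≤ X) (hX : X ≤ 2 ^ (N + 1))
    (hE : Q + N + 4 + r ≤ E)
    (hG1 : W * 2 ^ j * G ≤ C) (hG2 : C ≤ W * 2 ^ j * G + Y) (hA1 : A ≤ W)
    (hA2 : W - w * P ≤ A) (hP : P * 2 ^ E ≤ W) (hY : Y * 2 ^ E ≤ C) :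
    A * G / C * X ≤ X / 2 ^ j ∧ X / 2 ^ j ≤ A * G / C * X + 1 / 2 ^ (Q + 1) := by
  have h2jpos : (0 : ℚ) < 2 ^ j := by positivity
  have h2j : (1 : ℚ) ≤ 2 ^ j := one_le_pow₀ (by norm_num)
  have hEpos : (0 : ℚ) < 2 ^ E := by positivity
  have key1 : A * G / C ≤ 1 / 2 ^ j := by
    rw [div_le_div_iff₀ hCpos h2jpos, one_mul]
    calc A * G * 2 ^ j ≤ W * G * 2 ^ j := by gcongr
      _ = W * 2 ^ j * G := by ring
      _ ≤ C := hG1
  have key2 : 1 / 2 ^ j - A * G / C ≤ 1 / 2 ^ (Q + N + 3) := by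
    have h1 : (C - 2 ^ j * (A * G)) * 2 ^ E ≤ C * (1 + w) := by
      have e1 : C - 2 ^ j * (A * G) ≤ Y + 2 ^ j * G * (w * P) := by
        have h3 : 2 ^ j * G * (W - A) ≤ 2 ^ j * G * (w * P) := by
          apply mul_le_mul_of_nonneg_left _ (by positivity)
          linarith
        nlinarith
      calc (C - 2 ^ j * (A * G)) * 2 ^ E
          ≤ (Y + 2 ^ j * G * (w * P)) * 2 ^ E := by gcongr
        _ = Y * 2 ^ E + 2 ^ j * G * w * (P * 2 ^ E) := by ring
        _ ≤ C + 2 ^ j * G * w * W := by gcongr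
        _ = C + w * (W * 2 ^ j * G) := by ring
        _ ≤ C + w * C := by gcongr
        _ = C * (1 + w) := by ring
    have h2 : (1 + w) * 2 ^ (Q + N + 3) ≤ 2 ^ E := by
      have h3 : 1 + w ≤ 2 ^ (r + 1) := by
        rw [pow_succ]
        have : (1 : ℚ) ≤ 2 ^ r := one_le_pow₀ (by norm_num)
        linarith
      calc (1 + w) * 2 ^ (Q + N + 3)
          ≤ 2 ^ (r + 1) * 2 ^ (Q + N + 3) := by gcongr
        _ = 2 ^ (r + 1 + (Q + N + 3)) := by rw [← pow_add]
        _ ≤ _ := by
          apply pow_le_pow_right₀ (by norm_num)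
          omega
    have h3 : 1 / 2 ^ j - A * G / C = (C - 2 ^ j * (A * G)) / (2 ^ j * C) := by
      field_simp
    rw [h3, div_le_div_iff₀ (by positivity) (by positivity), one_mul]
    have h4 : (C - 2 ^ j * (A * G)) * 2 ^ (Q + N + 3) * 2 ^ E ≤ C * 2 ^ E := by
      calc (C - 2 ^ j * (A * G)) * 2 ^ (Q + N + 3) * 2 ^ E
          = ((C - 2 ^ j * (A * G)) * 2 ^ E) * 2 ^ (Q + N + 3) := by ring
        _ ≤ (C * (1 + w)) * 2 ^ (Q + N + 3) := by gcongr
        _ = C * ((1 + w) * 2 ^ (Q + N + 3)) := by ring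
        _ ≤ C * 2 ^ E := by gcongr
    have h5 := le_of_mul_le_mul_right h4 hEpos
    calc _ ≤ C := h5
      _ ≤ 2 ^ j * C := by nlinarith
  constructor
  · calc A * G / C * X ≤ 1 / 2 ^ j * X := by gcongr
      _ = X / 2 ^ j := by ring
  · have h1 : X / 2 ^ j - A * G / C * X = (1 / 2 ^ j - A * G / C) * X := by ring
    have h2 : (1 / 2 ^ j - A * G / C) * X ≤ 1 / 2 ^ (Q + N + 3) * 2 ^ (N + 1) := by
      calc (1 / 2 ^ j - A * G / C) * X
          ≤ 1 / 2 ^ (Q + N + 3) * X := by gcongr
        _ ≤ _ := by gcongr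
    have h3 : (1 : ℚ) / 2 ^ (Q + N + 3) * 2 ^ (N + 1) ≤ 1 / 2 ^ (Q + 1) := by
      rw [one_div_mul_eq_div, div_le_div_iff₀ (by positivity) (by positivity), one_mul, ← pow_add]
      apply pow_le_pow_right₀ (by norm_num)
      omega
    linarith

/-- the second error term -/
lemma del (n t jp E : ℕ) (hn : n = 2 ^ t) (h : n + t * jp + E + (1 + t) ≤ 2 * n) :
    2 ^ n * n ^ jp * 2 ^ E ≤ Nat.centralBinom n := by
  have hnpos : 0 < n := by rw [hn]; positivity
  have hC4 : 4 ^ n ≤ 2 * n * Nat.centralBinom n :=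
    Nat.four_pow_le_two_mul_self_mul_centralBinom n hnpos
  have e0 : n ^ jp = 2 ^ (t * jp) := by rw [pow_mul, ← hn]
  have e00 : 2 * n = 2 ^ (1 + t) := by rw [pow_add, pow_one, ← hn]
  have h1 : 2 ^ n * n ^ jp * 2 ^ E * (2 * n) ≤ 4 ^ n := by
    have e1 : 2 ^ n * n ^ jp * 2 ^ E * (2 * n) = 2 ^ (n + t * jp + E + (1 + t)) := by
      rw [e0, e00, pow_add _ (n + t * jp + E), pow_add _ (n + t * jp), pow_add _ n]
    have e2 : 4 ^ n = 2 ^ (2 * n) := by
      rw [pow_mul]; norm_num
    rw [e1, e2]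
    exact Nat.pow_le_pow_right (by norm_num) h
  have h2 : 2 ^ n * n ^ jp * 2 ^ E * (2 * n) ≤ Nat.centralBinom n * (2 * n) := by
    calc _ ≤ _ := h1
      _ ≤ _ := hC4
      _ = _ := by ring
  exact Nat.le_of_mul_le_mul_right h2 (by omega)

end Approx

open Approx in
/-- module APPROX -/
theorem specApprox (hGG : SpecGG) (hSurj : SpecSurj) (hParam : SpecParam) : SpecApprox := by
  intro s j X hj1 hj2 hX
  obtain ⟨-, -, hp3, hp4, hp5, -, -, -, -⟩ := hParam s
  have hp4' := hp4 j hj2
  have hn2 : 2 ∣ nn s := by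
    unfold nn
    exact dvd_pow_self 2 (by unfold tt sg; omega)
  have hnpos : 0 < nn s := by unfold nn; positivity
  have hnge : 2 ≤ nn s := Nat.le_of_dvd hnpos hn2
  obtain ⟨hG1, hG2⟩ := hGG (nn s) (jp s j) hn2 hnge
  have hw1 : 1 ≤ ww s := by unfold ww; exact Nat.one_le_two_pow
  obtain ⟨-, hA1, hA2⟩ := hSurj (ww s) (KK s) hw1
  have hKE : KK s = ww s * 2 ^ (2 * sg s) := by
    unfold KK ww rr
    rw [← pow_add]; ring_nf
  have hWD : (2 : ℚ) ^ (jp s j) = (ww s : ℚ) ^ (KK s) * 2 ^ j := by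
    have : (ww s : ℚ) ^ KK s = 2 ^ (rr s * KK s) := by
      rw [pow_mul]
      unfold ww
      push_cast
      rfl
    rw [this, ← pow_add]
    rfl
  have hPred := pred_pow (ww s) (2 ^ (2 * sg s)) hw1
  rw [← hKE] at hPred
  have hnt : nn s = 2 ^ tt s := rfl
  have hdel := del (nn s) (tt s) (jp s j) (2 ^ (2 * sg s)) hnt (by omega)
  -- casts to the rationals
  have hG1' : (2 : ℚ) ^ jp s j * GG (nn s) (jp s j) ≤ Nat.centralBinom (nn s) := by
    exact_mod_cast hG1
  have hG2' : (Nat.centralBinom (nn s) : ℚ) ≤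
      2 ^ jp s j * GG (nn s) (jp s j) + 2 ^ nn s * (nn s : ℚ) ^ jp s j := by exact_mod_cast hG2
  have hA1' : (RR (ww s) (KK s) : ℚ) ≤ (ww s : ℚ) ^ KK s := by exact_mod_cast hA1
  have hA2' : (ww s : ℚ) ^ KK s - ww s * ((ww s : ℚ) - 1) ^ KK s ≤ (RR (ww s) (KK s) : ℚ) := by
    exact_mod_cast hA2
  have hdel' : (2 : ℚ) ^ nn s * (nn s : ℚ) ^ jp s j * 2 ^ (2 ^ (2 * sg s)) ≤
      Nat.centralBinom (nn s) := by exact_mod_cast hdel
  have hCpos : (0 : ℚ) < Nat.centralBinom (nn s) := by
    exact_mod_cast Nat.centralBinom_pos (nn s)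
  have hwle : (ww s : ℚ) ≤ 2 ^ rr s := by unfold ww; push_cast; exact le_rfl
  have hXlt : (X : ℚ) ≤ 2 ^ (2 ^ s + 1) := by exact_mod_cast hX.le
  rw [hWD] at hG1' hG2'
  unfold alpha
  exact approxCore _ _ _ _ _ _ _ _ j (2 ^ (2 * sg s)) (rr s) (bt s * (2 ^ s + 2)) (2 ^ s) hCpos
    (Nat.cast_nonneg _) (Nat.cast_nonneg _) hwle (Nat.cast_nonneg _) hXlt
    hp3 hG1' hG2' hA1' hA2' hPred hdel'

end MP21c4c4
end

section
/-!
# MP_21c4c4_lc, module BASIC: closure properties of the class `FP A k`.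
-/
open scoped Classical
open Finset

noncomputable section

namespace MP21c4c4

variable {A : Set ℕ} {k m : ℕ}

/-- abbreviation for functions of `k` natural numbers -/
abbrev Fn (k : ℕ) := (Fin k → ℕ) → ℕ

/-- indicator of a proposition -/
def bi (p : Prop) : ℕ := @ite ℕ p (Classical.propDecidable p) 1 0

theorem bi_eq (p : Prop) [Decidable p] : bi p = if p then 1 else 0 := by
  unfold bi; congr

@[simp] theorem bi_true {p : Prop} (h : p) : bi p = 1 := by unfold bi; exact if_pos h
@[simp] theorem bi_false {p : Prop} (h : ¬ p) : bi p = 0 := by unfold bi; exact if_neg h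

theorem bi_le (p : Prop) : bi p ≤ 1 := by
  by_cases h : p
  · rw [bi_true h]
  · rw [bi_false h]; exact Nat.zero_le _

theorem FP.congr {f g : Fn k} (hf : FP A k f) (h : ∀ v, f v = g v) : FP A k g := by
  have : f = g := funext h
  rwa [← this]

/-! ### composition -/

theorem FP.comp1 {F : ℕ → ℕ} (hF : FP A 1 (fun v => F (v 0))) {f : Fn k} (hf : FP A k f) :
    FP A k (fun v => F (f v)) :=
  (FP.comp (g := fun _ => f) hF (fun _ => hf))

theorem FP.comp2 {F : ℕ → ℕ → ℕ} (hF : FP A 2 (fun v => F (v 0) (v 1))) {f g : Fn k}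
    (hf : FP A k f) (hg : FP A k g) : FP A k (fun v => F (f v) (g v)) := by
  have := FP.comp (g := ![f, g]) hF (by intro i; fin_cases i <;> simpa)
  simpa using this

theorem FP.comp3 {F : ℕ → ℕ → ℕ → ℕ} (hF : FP A 3 (fun v => F (v 0) (v 1) (v 2)))
    {f g h : Fn k} (hf : FP A k f) (hg : FP A k g) (hh : FP A k h) :
    FP A k (fun v => F (f v) (g v) (h v)) := by
  have := FP.comp (g := ![f, g, h]) hF (by intro i; fin_cases i <;> simpa)
  simpa using this

theorem FP.comp4 {F : ℕ → ℕ → ℕ → ℕ → ℕ} (hF : FP A 4 (fun v => F (v 0) (v 1) (v 2) (v 3)))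
    {f g h e : Fn k} (hf : FP A k f) (hg : FP A k g) (hh : FP A k h) (he : FP A k e) :
    FP A k (fun v => F (f v) (g v) (h v) (e v)) := by
  have := FP.comp (g := ![f, g, h, e]) hF (by intro i; fin_cases i <;> simpa)
  simpa using this

/-- use a function of the tail of the context -/
theorem FP.tail {f : Fn k} (hf : FP A k f) : FP A (k + 1) (fun v => f (Fin.tail v)) :=
  FP.comp hf (fun i => FP.proj i.succ)

theorem FP.tail2 {f : Fn k} (hf : FP A k f) :
    FP A (k + 2) (fun v => f (Fin.tail (Fin.tail v))) :=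
  FP.comp hf (fun i => FP.proj i.succ.succ)

/-- substitute a function for the first variable -/
theorem FP.subst0 {f : Fn (k + 1)} {g : Fn k} (hf : FP A (k + 1) f) (hg : FP A k g) :
    FP A k (fun v => f (Fin.cons (g v) v)) := by
  refine (FP.comp (g := fun i v => (Fin.cons (g v) v : Fin (k + 1) → ℕ) i) hf ?_)
  intro i
  refine Fin.cases ?_ (fun i => ?_) i
  · simpa using hg
  · simpa using FP.proj (A := A) i

/-! ### arithmetic -/

theorem FP.add' {f g : Fn k} (hf : FP A k f) (hg : FP A k g) : FP A k (fun v => f v + g v) :=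
  FP.comp2 (F := fun a b => a + b) FP.add hf hg

theorem FP.sub' {f g : Fn k} (hf : FP A k f) (hg : FP A k g) : FP A k (fun v => f v - g v) :=
  FP.comp2 (F := fun a b => a - b) FP.sub hf hg

theorem FP.mul' {f g : Fn k} (hf : FP A k f) (hg : FP A k g) : FP A k (fun v => f v * g v) :=
  FP.comp2 (F := fun a b => a * b) FP.mul hf hg

theorem FP.div' {f g : Fn k} (hf : FP A k f) (hg : FP A k g) : FP A k (fun v => f v / g v) :=
  FP.comp2 (F := fun a b => a / b) FP.div hf hg

theorem FP.mod' {f g : Fn k} (hf : FP A k f) (hg : FP A k g) : FP A k (fun v => f v % g v) := by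
  refine (hf.sub' (hg.mul' (hf.div' hg))).congr fun v => ?_
  have := Nat.div_add_mod (f v) (g v)
  omega

theorem FP.size' {f : Fn k} (hf : FP A k f) : FP A k (fun v => Nat.size (f v)) :=
  FP.comp1 (F := Nat.size) FP.size hf

theorem FP.smash' {f g : Fn k} (hf : FP A k f) (hg : FP A k g) :
    FP A k (fun v => 2 ^ (Nat.size (f v) * Nat.size (g v))) :=
  FP.comp2 (F := fun a b => 2 ^ (Nat.size a * Nat.size b)) FP.smash hf hg

theorem FP.orc {f : Fn k} (hf : FP A k f) : FP A k (fun v => bi (f v ∈ A)) :=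
  FP.comp1 (F := fun a => bi (a ∈ A)) FP.oracle hf

theorem FP.powc {f : Fn k} (hf : FP A k f) (n : ℕ) : FP A k (fun v => f v ^ n) := by
  induction n with
  | zero => simpa using FP.const (A := A) (k := k) 1
  | succ n ih => simpa [pow_succ] using ih.mul' hf

theorem FP.finsum {ι : Type*} (s : Finset ι) {f : ι → Fn k} (hf : ∀ i ∈ s, FP A k (f i)) :
    FP A k (fun v => ∑ i ∈ s, f i v) := by
  induction s using Finset.induction_on with
  | empty => simpa using FP.const (A := A) (k := k) 0
  | insert a s ha ih =>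
    have h1 := (hf a (by simp)).add' (ih fun i hi => hf i (by simp [hi]))
    exact h1.congr fun v => by simp [Finset.sum_insert ha]

theorem FP.finprod {ι : Type*} (s : Finset ι) {f : ι → Fn k} (hf : ∀ i ∈ s, FP A k (f i)) :
    FP A k (fun v => ∏ i ∈ s, f i v) := by
  induction s using Finset.induction_on with
  | empty => simpa using FP.const (A := A) (k := k) 1
  | insert a s ha ih =>
    have h1 := (hf a (by simp)).mul' (ih fun i hi => hf i (by simp [hi]))
    exact h1.congr fun v => by simp [Finset.prod_insert ha]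

/-! ### relations -/

theorem PolyRel.fp {R : (Fin k → ℕ) → Prop} (h : PolyRel A k R) : FP A k (fun v => bi (R v)) := h

theorem PolyRel.of_fp {R : (Fin k → ℕ) → Prop} (h : FP A k (fun v => bi (R v))) :
    PolyRel A k R := h

theorem PolyRel.fpd {R : (Fin k → ℕ) → Prop} [∀ v, Decidable (R v)] (h : PolyRel A k R) :
    FP A k (fun v => if R v then 1 else 0) :=
  h.fp.congr fun v => bi_eq _

theorem PolyRel.congr {R S : (Fin k → ℕ) → Prop} (hR : PolyRel A k R) (h : ∀ v, R v ↔ S v) :
    PolyRel A k S := by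
  have : R = S := funext fun v => propext (h v)
  rwa [← this]

theorem PolyRel.le {f g : Fn k} (hf : FP A k f) (hg : FP A k g) :
    PolyRel A k (fun v => f v ≤ g v) := by
  refine PolyRel.of_fp (FP.congr ((FP.const 1).sub' (hf.sub' hg)) fun v => ?_)
  rw [bi_eq]
  split_ifs <;> omega

theorem PolyRel.not {R : (Fin k → ℕ) → Prop} (h : PolyRel A k R) :
    PolyRel A k (fun v => ¬ R v) := by
  refine PolyRel.of_fp (FP.congr ((FP.const 1).sub' h.fp) fun v => ?_)
  by_cases h1 : R v <;> simp [h1]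

theorem PolyRel.and {R S : (Fin k → ℕ) → Prop} (h : PolyRel A k R) (h' : PolyRel A k S) :
    PolyRel A k (fun v => R v ∧ S v) := by
  refine PolyRel.of_fp (FP.congr (FP.mul' h.fp h'.fp) fun v => ?_)
  by_cases h1 : R v <;> by_cases h2 : S v <;> simp [h1, h2]

theorem PolyRel.or {R S : (Fin k → ℕ) → Prop} (h : PolyRel A k R) (h' : PolyRel A k S) :
    PolyRel A k (fun v => R v ∨ S v) :=
  ((h.not.and h'.not).not).congr fun v => by tauto

theorem PolyRel.imp {R S : (Fin k → ℕ) → Prop} (h : PolyRel A k R) (h' : PolyRel A k S) :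
    PolyRel A k (fun v => R v → S v) :=
  (h.not.or h').congr fun v => by tauto

theorem PolyRel.lt {f g : Fn k} (hf : FP A k f) (hg : FP A k g) :
    PolyRel A k (fun v => f v < g v) :=
  (PolyRel.le hg hf).not.congr fun v => by simp

theorem PolyRel.eq {f g : Fn k} (hf : FP A k f) (hg : FP A k g) :
    PolyRel A k (fun v => f v = g v) :=
  ((PolyRel.le hf hg).and (PolyRel.le hg hf)).congr fun v => by
    constructor
    · rintro ⟨h1, h2⟩; exact le_antisymm h1 h2
    · intro h; exact ⟨h.le, h.ge⟩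

theorem PolyRel.dvd {f g : Fn k} (hf : FP A k f) (hg : FP A k g) :
    PolyRel A k (fun v => f v ∣ g v) :=
  (PolyRel.eq (hg.mod' hf) (FP.const 0)).congr fun v => by
    rw [Nat.dvd_iff_mod_eq_zero]

theorem PolyRel.const (p : Prop) : PolyRel A k (fun _ => p) :=
  PolyRel.of_fp (FP.const _)

theorem PolyRel.orc {f : Fn k} (hf : FP A k f) : PolyRel A k (fun v => f v ∈ A) := hf.orc

theorem PolyRel.comp {R : (Fin m → ℕ) → Prop} (h : PolyRel A m R) {g : Fin m → Fn k}
    (hg : ∀ i, FP A k (g i)) : PolyRel A k (fun v => R (fun i => g i v)) :=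
  FP.comp h hg

theorem PolyRel.tail {R : (Fin k → ℕ) → Prop} (h : PolyRel A k R) :
    PolyRel A (k + 1) (fun v => R (Fin.tail v)) := FP.tail h

theorem PolyRel.subst0 {R : (Fin (k + 1) → ℕ) → Prop} {g : Fn k} (h : PolyRel A (k + 1) R)
    (hg : FP A k g) : PolyRel A k (fun v => R (Fin.cons (g v) v)) := FP.subst0 h hg

theorem FP.ite {R : (Fin k → ℕ) → Prop} {_inst : ∀ v, Decidable (R v)} {f g : Fn k}
    (h : PolyRel A k R) (hf : FP A k f)
    (hg : FP A k g) : FP A k (fun v => if R v then f v else g v) := by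
  refine ((h.fp.mul' hf).add' (h.not.fp.mul' hg)).congr fun v => ?_
  by_cases h1 : R v <;> simp [h1]

theorem FP.min' {f g : Fn k} (hf : FP A k f) (hg : FP A k g) :
    FP A k (fun v => min (f v) (g v)) :=
  (FP.ite (_inst := fun _ => inferInstance) (PolyRel.le hf hg) hf hg).congr
    fun v => by simp only [min_def]

theorem FP.max' {f g : Fn k} (hf : FP A k f) (hg : FP A k g) :
    FP A k (fun v => max (f v) (g v)) :=
  (FP.ite (_inst := fun _ => inferInstance) (PolyRel.le hf hg) hg hf).congr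
    fun v => by simp only [max_def]

/-! ### iteration -/

/-- `itr a st n` = result of `n` steps `r ↦ st i r`, `i = 0, …, n-1`, from `a`. -/
def itr (a : ℕ) (st : ℕ → ℕ → ℕ) : ℕ → ℕ
  | 0 => a
  | i + 1 => st i (itr a st i)

@[simp] theorem itr_zero (a : ℕ) (st : ℕ → ℕ → ℕ) : itr a st 0 = a := rfl
@[simp] theorem itr_succ (a : ℕ) (st : ℕ → ℕ → ℕ) (i : ℕ) :
    itr a st (i + 1) = st i (itr a st i) := rfl

theorem size_half (x : ℕ) : Nat.size ((x + 1) / 2) + 1 = Nat.size (x + 1) := by
  have h : 0 < Nat.size (x + 1) := Nat.size_pos.2 (Nat.succ_pos x)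
  have h1 : Nat.size ((x + 1) / 2) ≤ Nat.size (x + 1) - 1 := by
    rw [Nat.size_le]
    have h2 := Nat.lt_size_self (x + 1)
    have h3 : 2 ^ Nat.size (x + 1) = 2 * 2 ^ (Nat.size (x + 1) - 1) := by
      rw [← pow_succ']; congr 1; omega
    omega
  have h4 : Nat.size (x + 1) ≤ Nat.size ((x + 1) / 2) + 1 := by
    rw [Nat.size_le]
    have h2 := Nat.lt_size_self ((x + 1) / 2)
    rw [pow_succ]
    omega
  omega

/-- basic iteration theorem: `n` steps, where `n ≤ |z|`, all intermediate values `≤ bd`. -/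
theorem FP.iter {init : Fn k} {step : Fn (k + 2)} {n z bd : Fn k}
    (hinit : FP A k init) (hstep : FP A (k + 2) step) (hn : FP A k n) (hz : FP A k z)
    (hbd : FP A k bd) (hnz : ∀ v, n v ≤ Nat.size (z v))
    (hb : ∀ v, ∀ i ≤ n v,
      itr (init v) (fun i r => step (Fin.cons i (Fin.cons r v))) i ≤ bd v) :
    FP A k (fun v => itr (init v) (fun i r => step (Fin.cons i (Fin.cons r v))) (n v)) := by
  -- h (x, r, v) = if size x ≤ n v then step (size x - 1, r, v) else r
  let h : Fn (k + 2) := fun w =>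
    if Nat.size (w 0) ≤ n (Fin.tail (Fin.tail w)) then
      step (Fin.cons (Nat.size (w 0) - 1) (Fin.tail w)) else w 1
  have hh : FP A (k + 2) h := by
    refine FP.ite (R := fun w => Nat.size (w 0) ≤ n (Fin.tail (Fin.tail w)))
      (f := fun w => step (Fin.cons (Nat.size (w 0) - 1) (Fin.tail w)))
      (PolyRel.le (FP.proj 0).size' hn.tail2) ?_ (FP.proj 1)
    refine FP.comp (g := fun i w =>
      (Fin.cons (Nat.size (w 0) - 1) (Fin.tail w) : Fin (k + 2) → ℕ) i) hstep ?_
    intro i
    refine Fin.cases ?_ (fun i => ?_) i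
    · simpa using (FP.proj (A := A) (k := k + 2) 0).size'.sub' (FP.const 1)
    · simpa [Fin.tail] using FP.proj (A := A) (k := k + 2) i.succ
  have key : ∀ v x, lrn init h v x =
      itr (init v) (fun i r => step (Fin.cons i (Fin.cons r v))) (min (Nat.size x) (n v)) := by
    intro v x
    induction x using Nat.strong_induction_on with
    | _ x ih =>
      cases x with
      | zero => simp [lrn]
      | succ x =>
        rw [lrn, ih _ (Nat.div_lt_self (Nat.succ_pos x) (by norm_num))]
        have hs := size_half x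
        by_cases hc : Nat.size (x + 1) ≤ n v
        · have h1 : min (Nat.size (x + 1)) (n v) = Nat.size ((x + 1) / 2) + 1 := by omega
          have h2 : min (Nat.size ((x + 1) / 2)) (n v) = Nat.size ((x + 1) / 2) := by omega
          have h3 : Nat.size (x + 1) - 1 = Nat.size ((x + 1) / 2) := by omega
          simp only [h, h1, h2, itr_succ, Fin.cons_zero, Fin.tail_cons, hc, if_true, h3]
        · have h1 : min (Nat.size (x + 1)) (n v) = n v := by omega
          have h2 : min (Nat.size ((x + 1) / 2)) (n v) = n v := by omega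
          simp only [h, h1, h2, Fin.cons_zero, Fin.tail_cons, hc, if_false]
          rfl
  have hrec : FP A (k + 1) (fun w => lrn init h (Fin.tail w) (w 0)) := by
    refine FP.recN (b := fun w => bd (Fin.tail w)) hinit hh hbd.tail ?_
    intro x v
    rw [key]
    simpa using hb v _ (min_le_right _ _)
  refine (FP.subst0 hrec hz).congr fun v => ?_
  simp only [Fin.tail_cons, Fin.cons_zero, key]
  rw [min_eq_right (hnz v)]

/-! ### powers of two with polynomial exponents -/

/-- `e` is an exponent function such that `2 ^ e` is polynomial time -/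
def PE (A : Set ℕ) (k : ℕ) (e : Fn k) : Prop := FP A k (fun v => 2 ^ e v)

theorem size_two_pow (a : ℕ) : Nat.size (2 ^ a) = a + 1 := Nat.size_pow

theorem size_two_pow_sub_one (a : ℕ) : Nat.size (2 ^ a - 1) = a := by
  apply le_antisymm
  · rw [Nat.size_le]; have := Nat.two_pow_pos a; omega
  · by_contra hc
    push Not at hc
    have h1 : 2 ^ a - 1 < 2 ^ (a - 1) := by
      rw [← Nat.size_le]; omega
    have h2 : 2 ^ a = 2 * 2 ^ (a - 1) := by rw [← pow_succ']; congr 1; omega
    have := Nat.two_pow_pos (a - 1)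
    omega

theorem PE.fp {e : Fn k} (h : PE A k e) : FP A k e :=
  (FP.sub' (FP.size' h) (FP.const 1)).congr fun v => by
    simp [size_two_pow]

theorem PE.pow {e : Fn k} (h : PE A k e) : FP A k (fun v => 2 ^ e v) := h

theorem PE.congr {e e' : Fn k} (h : PE A k e) (he : ∀ v, e v = e' v) : PE A k e' :=
  FP.congr h fun v => by rw [he v]

theorem PE.const (c : ℕ) : PE A k (fun _ => c) := FP.const _

theorem PE.size {f : Fn k} (hf : FP A k f) : PE A k (fun v => Nat.size (f v)) :=
  (hf.smash' (FP.const 1)).congr fun v => by simp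

theorem PE.add {e e' : Fn k} (h : PE A k e) (h' : PE A k e') : PE A k (fun v => e v + e' v) :=
  (FP.mul' h h').congr fun v => by simp [pow_add]

theorem PE.mul {e e' : Fn k} (h : PE A k e) (h' : PE A k e') : PE A k (fun v => e v * e' v) :=
  (FP.smash' (FP.sub' h (FP.const 1)) (FP.sub' h' (FP.const 1))).congr fun v => by
    simp only [size_two_pow_sub_one]

theorem PE.comp {e : Fn m} (h : PE A m e) {g : Fin m → Fn k} (hg : ∀ i, FP A k (g i)) :
    PE A k (fun v => e (fun i => g i v)) := FP.comp h hg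

theorem PE.tail {e : Fn k} (h : PE A k e) : PE A (k + 1) (fun v => e (Fin.tail v)) := FP.tail h

theorem PE.tail2 {e : Fn k} (h : PE A k e) :
    PE A (k + 2) (fun v => e (Fin.tail (Fin.tail v))) := FP.tail2 h

theorem PE.finsum {ι : Type*} (s : Finset ι) {f : ι → Fn k} (hf : ∀ i ∈ s, PE A k (f i)) :
    PE A k (fun v => ∑ i ∈ s, f i v) := by
  induction s using Finset.induction_on with
  | empty => simpa using PE.const (A := A) (k := k) 0
  | insert a s ha ih =>
    have h1 := PE.add (hf a (by simp)) (ih fun i hi => hf i (by simp [hi]))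
    exact h1.congr fun v => by simp [Finset.sum_insert ha]

theorem PE.powc {e : Fn k} (h : PE A k e) (n : ℕ) : PE A k (fun v => e v ^ n) := by
  induction n with
  | zero => simpa using PE.const (A := A) (k := k) 1
  | succ n ih => exact (ih.mul h).congr fun v => by simp [pow_succ]

theorem PE.len : PE A k (fun v => len v) :=
  PE.finsum _ fun i _ => PE.size (FP.proj i)

theorem PE.poly (p : Polynomial ℕ) {e : Fn k} (h : PE A k e) :
    PE A k (fun v => p.eval (e v)) := by
  induction p using Polynomial.induction_on' with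
  | add p q hp hq => exact (hp.add hq).congr fun v => by simp
  | monomial n a => exact ((PE.const a).mul (h.powc n)).congr fun v => by simp

/-- if `2 ^ e` is polynomial time and `f ≤ e` then `2 ^ f` is polynomial time -/
theorem PE.of_le {f e : Fn k} (hf : FP A k f) (he : PE A k e) (hle : ∀ v, f v ≤ e v) :
    PE A k f := by
  have h := FP.iter (A := A) (k := k) (init := fun _ => 1) (step := fun w => 2 * w 1)
    (n := f) (z := fun v => 2 ^ e v) (bd := fun v => 2 ^ e v) (FP.const 1)
    ((FP.const 2).mul' (FP.proj 1)) hf he.pow he.pow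
    (fun v => by rw [size_two_pow]; exact (hle v).trans (Nat.le_succ _)) ?_
  · refine h.congr fun v => ?_
    have : ∀ n, itr 1 (fun i r => 2 * (Fin.cons i (Fin.cons r v) : Fin (k + 2) → ℕ) 1) n
        = 2 ^ n := by
      intro n
      induction n with
      | zero => rfl
      | succ n ih => rw [itr_succ, ih, pow_succ']; rfl
    exact this _
  · intro v i hi
    have : ∀ n, itr 1 (fun i r => 2 * (Fin.cons i (Fin.cons r v) : Fin (k + 2) → ℕ) 1) n
        = 2 ^ n := by
      intro n
      induction n with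
      | zero => rfl
      | succ n ih => rw [itr_succ, ih, pow_succ']; rfl
    show itr 1 (fun i r => 2 * (Fin.cons i (Fin.cons r v) : Fin (k + 2) → ℕ) 1) i ≤ _
    rw [this]
    exact Nat.pow_le_pow_right (by norm_num) (hi.trans (hle v))

/-- iteration with the number of steps bounded by a polynomial exponent `e` -/
theorem FP.iterE {init : Fn k} {step : Fn (k + 2)} {n e bd : Fn k}
    (hinit : FP A k init) (hstep : FP A (k + 2) step) (hn : FP A k n) (he : PE A k e)
    (hbd : FP A k bd) (hne : ∀ v, n v ≤ e v)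
    (hb : ∀ v, ∀ i ≤ n v,
      itr (init v) (fun i r => step (Fin.cons i (Fin.cons r v))) i ≤ bd v) :
    FP A k (fun v => itr (init v) (fun i r => step (Fin.cons i (Fin.cons r v))) (n v)) :=
  FP.iter hinit hstep hn he.pow hbd
    (fun v => by rw [size_two_pow]; exact (hne v).trans (Nat.le_succ _)) hb

/-! ### bounded sums, products, quantifiers (number of terms `n ≤ e`, `2^e` poly-time) -/

theorem itr_sum (f : ℕ → ℕ) (n : ℕ) : itr 0 (fun i r => r + f i) n = ∑ i ∈ range n, f i := by
  induction n with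
  | zero => rfl
  | succ n ih => rw [itr_succ, ih, Finset.sum_range_succ]

theorem itr_prod (f : ℕ → ℕ) (n : ℕ) : itr 1 (fun i r => r * f i) n = ∏ i ∈ range n, f i := by
  induction n with
  | zero => rfl
  | succ n ih => rw [itr_succ, ih, Finset.prod_range_succ]

theorem FP.sum {f : Fn (k + 1)} {n e bd : Fn k} (hf : FP A (k + 1) f) (hn : FP A k n)
    (he : PE A k e) (hbd : FP A k bd) (hne : ∀ v, n v ≤ e v)
    (hb : ∀ v, ∀ i < n v, f (Fin.cons i v) ≤ bd v) :
    FP A k (fun v => ∑ i ∈ range (n v), f (Fin.cons i v)) := by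
  have hstep : FP A (k + 2) (fun w => w 1 + f (Fin.cons (w 0) (Fin.tail (Fin.tail w)))) := by
    refine (FP.proj 1).add' ?_
    refine FP.comp (g := fun i w =>
      (Fin.cons (w 0) (Fin.tail (Fin.tail w)) : Fin (k + 1) → ℕ) i) hf ?_
    intro i
    refine Fin.cases ?_ (fun i => ?_) i
    · simpa using FP.proj (A := A) (k := k + 2) 0
    · simpa [Fin.tail] using FP.proj (A := A) (k := k + 2) i.succ.succ
  have hrw : ∀ v n, itr 0 (fun i r => (fun w : Fin (k + 2) → ℕ =>
      w 1 + f (Fin.cons (w 0) (Fin.tail (Fin.tail w)))) (Fin.cons i (Fin.cons r v))) n =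
      ∑ i ∈ range n, f (Fin.cons i v) := by
    intro v n
    rw [← itr_sum]
    rfl
  have := FP.iterE (A := A) (k := k) (init := fun _ => 0) (bd := fun v => e v * bd v)
    (FP.const 0) hstep hn he (he.fp.mul' hbd) hne ?_
  · exact this.congr fun v => hrw v _
  · intro v i hi
    rw [hrw]
    calc ∑ j ∈ range i, f (Fin.cons j v) ≤ ∑ _j ∈ range i, bd v :=
          Finset.sum_le_sum fun j hj => hb v j (by have := Finset.mem_range.1 hj; omega)
      _ = i * bd v := by simp
      _ ≤ e v * bd v := Nat.mul_le_mul_right _ (hi.trans (hne v))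

theorem FP.prod {f : Fn (k + 1)} {n e bd : Fn k} (hf : FP A (k + 1) f) (hn : FP A k n)
    (he : PE A k e) (hbd : FP A k bd) (hne : ∀ v, n v ≤ e v)
    (hb : ∀ v, ∀ i ≤ n v, ∏ j ∈ range i, f (Fin.cons j v) ≤ bd v) :
    FP A k (fun v => ∏ i ∈ range (n v), f (Fin.cons i v)) := by
  have hstep : FP A (k + 2) (fun w => w 1 * f (Fin.cons (w 0) (Fin.tail (Fin.tail w)))) := by
    refine (FP.proj 1).mul' ?_
    refine FP.comp (g := fun i w =>
      (Fin.cons (w 0) (Fin.tail (Fin.tail w)) : Fin (k + 1) → ℕ) i) hf ?_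
    intro i
    refine Fin.cases ?_ (fun i => ?_) i
    · simpa using FP.proj (A := A) (k := k + 2) 0
    · simpa [Fin.tail] using FP.proj (A := A) (k := k + 2) i.succ.succ
  have hrw : ∀ v n, itr 1 (fun i r => (fun w : Fin (k + 2) → ℕ =>
      w 1 * f (Fin.cons (w 0) (Fin.tail (Fin.tail w)))) (Fin.cons i (Fin.cons r v))) n =
      ∏ i ∈ range n, f (Fin.cons i v) := by
    intro v n
    rw [← itr_prod]
    rfl
  have := FP.iterE (A := A) (k := k) (init := fun _ => 1) (bd := bd)
    (FP.const 1) hstep hn he hbd hne ?_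
  · exact this.congr fun v => hrw v _
  · intro v i hi
    rw [hrw]
    exact hb v i hi

/-- bounded universal quantifier -/
theorem PolyRel.ball {R : (Fin (k + 1) → ℕ) → Prop} {n e : Fn k} (hR : PolyRel A (k + 1) R)
    (hn : FP A k n) (he : PE A k e) (hne : ∀ v, n v ≤ e v) :
    PolyRel A k (fun v => ∀ i < n v, R (Fin.cons i v)) := by
  have h := FP.prod (A := A) (k := k) (bd := fun _ => 1) hR.fp hn he (FP.const 1) hne
    (fun v i _ => by
      apply Finset.prod_le_one
      · intro j _; exact Nat.zero_le _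
      · intro j _; exact bi_le _)
  refine PolyRel.of_fp (FP.congr h fun v => ?_)
  by_cases hc : ∀ i < n v, R (Fin.cons i v)
  · rw [Finset.prod_eq_one (fun i hi => bi_true (hc i (Finset.mem_range.1 hi))), bi_true hc]
  · have hc' := hc
    push Not at hc'
    obtain ⟨i, hi, hr⟩ := hc'
    rw [Finset.prod_eq_zero (Finset.mem_range.2 hi) (bi_false hr), bi_false hc]

/-- bounded existential quantifier -/
theorem PolyRel.bex {R : (Fin (k + 1) → ℕ) → Prop} {n e : Fn k} (hR : PolyRel A (k + 1) R)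
    (hn : FP A k n) (he : PE A k e) (hne : ∀ v, n v ≤ e v) :
    PolyRel A k (fun v => ∃ i < n v, R (Fin.cons i v)) :=
  (PolyRel.ball hR.not hn he hne).not.congr fun v => by
    push Not
    rfl

/-- bounded counting -/
theorem FP.count {R : (Fin (k + 1) → ℕ) → Prop}
    {_inst : ∀ v, DecidablePred (fun i => R (Fin.cons i v))} {n e : Fn k}
    (hR : PolyRel A (k + 1) R)
    (hn : FP A k n) (he : PE A k e) (hne : ∀ v, n v ≤ e v) :
    FP A k (fun v => ((range (n v)).filter (fun i => R (Fin.cons i v))).card) := by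
  have h := FP.sum (A := A) (k := k) (bd := fun _ => 1) hR.fp hn he (FP.const 1) hne
    (fun _ _ _ => bi_le _)
  refine h.congr fun v => ?_
  rw [Finset.card_filter]
  exact Finset.sum_congr rfl fun i _ => bi_eq _

/-! ### powers -/

/-- `a ^ n` for `n ≤ e`, `2^e` poly-time -/
theorem FP.powE {a n e : Fn k} (ha : FP A k a) (hn : FP A k n) (he : PE A k e)
    (hne : ∀ v, n v ≤ e v) : FP A k (fun v => a v ^ n v) := by
  have h := FP.prod (A := A) (k := k) (f := fun w => a (Fin.tail w)) (n := n) (e := e)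
    (bd := fun v => 2 ^ (Nat.size (a v) * e v)) ha.tail hn he
    ((PE.size ha).mul he) hne ?_
  · exact h.congr fun v => by simp
  · intro v i hi
    simp only [Fin.tail_cons, Finset.prod_const, Finset.card_range]
    calc a v ^ i ≤ (2 ^ Nat.size (a v)) ^ i :=
          Nat.pow_le_pow_left (Nat.lt_size_self _).le _
      _ = 2 ^ (Nat.size (a v) * i) := by rw [pow_mul]
      _ ≤ _ := Nat.pow_le_pow_right (by norm_num)
        (Nat.mul_le_mul_left _ (hi.trans (hne v)))

/-- modular power with total definition -/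
def pmod (a e q : ℕ) : ℕ := if q = 0 then 0 else a ^ e % q

theorem pmod_eq {a e q : ℕ} (hq : q ≠ 0) : pmod a e q = a ^ e % q := by simp [pmod, hq]

theorem FP.pmod3 : FP A 3 (fun v => pmod (v 0) (v 1) (v 2)) := by
  -- recursion on notation on the exponent, parameters (a, q)
  let g : Fn 2 := fun v => if v 1 = 0 then 0 else 1 % v 1
  let h : Fn 4 := fun w =>
    if w 3 = 0 then 0 else (w 1 * w 1 * (if w 0 % 2 = 1 then w 2 else 1)) % w 3
  have hg : FP A 2 g := FP.ite (R := fun v => v 1 = 0)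
    (PolyRel.eq (FP.proj 1) (FP.const 0)) (FP.const 0)
    ((FP.const 1).mod' (FP.proj 1))
  have hh : FP A 4 h := by
    refine FP.ite (R := fun w => w 3 = 0) (PolyRel.eq (FP.proj 3) (FP.const 0))
      (FP.const 0) ?_
    refine FP.mod' (((FP.proj 1).mul' (FP.proj 1)).mul' ?_) (FP.proj 3)
    exact FP.ite (R := fun w => w 0 % 2 = 1)
      (PolyRel.eq ((FP.proj 0).mod' (FP.const 2)) (FP.const 1)) (FP.proj 2)
      (FP.const 1)
  have key : ∀ (v : Fin 2 → ℕ) x, lrn g h v x = pmod (v 0) x (v 1) := by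
    intro v x
    induction x using Nat.strong_induction_on with
    | _ x ih =>
      cases x with
      | zero => simp [lrn, pmod, g]
      | succ x =>
        rw [lrn, ih _ (Nat.div_lt_self (Nat.succ_pos x) (by norm_num))]
        have e3 : (Fin.cons (x + 1) (Fin.cons (pmod (v 0) ((x + 1) / 2) (v 1)) v) :
          Fin 4 → ℕ) 3 = v 1 := rfl
        have e2 : (Fin.cons (x + 1) (Fin.cons (pmod (v 0) ((x + 1) / 2) (v 1)) v) :
          Fin 4 → ℕ) 2 = v 0 := rfl
        have e1 : (Fin.cons (x + 1) (Fin.cons (pmod (v 0) ((x + 1) / 2) (v 1)) v) :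
          Fin 4 → ℕ) 1 = pmod (v 0) ((x + 1) / 2) (v 1) := rfl
        have e0 : (Fin.cons (x + 1) (Fin.cons (pmod (v 0) ((x + 1) / 2) (v 1)) v) :
          Fin 4 → ℕ) 0 = x + 1 := rfl
        simp only [h, e0, e1, e2, e3]
        by_cases hq : v 1 = 0
        · simp [hq, pmod]
        · simp only [hq, if_false, pmod]
          have hx : x + 1 = (x + 1) / 2 + (x + 1) / 2 + (x + 1) % 2 := by omega
          have hp : v 0 ^ (x + 1) = v 0 ^ ((x + 1) / 2) * v 0 ^ ((x + 1) / 2) *
              v 0 ^ ((x + 1) % 2) := by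
            conv_lhs => rw [hx, pow_add, pow_add]
          rw [hp]
          rcases Nat.mod_two_eq_zero_or_one (x + 1) with h0 | h0
          · simp [h0, Nat.mul_mod]
          · simp only [h0, if_true, pow_one]
            simp [Nat.mul_mod]
  have hrec : FP A 3 (fun w => lrn g h (Fin.tail w) (w 0)) := by
    refine FP.recN (b := fun w => w 2) hg hh (FP.proj 2) ?_
    intro x v
    rw [key]
    show pmod (v 0) x (v 1) ≤ v 1
    unfold pmod
    split_ifs with hq
    · exact Nat.zero_le _
    · exact (Nat.mod_lt _ (Nat.pos_of_ne_zero hq)).le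
  have h2 : FP A 3 (fun v => (fun w : Fin 3 → ℕ => lrn g h (Fin.tail w) (w 0))
      (fun i => (![v 1, v 0, v 2] : Fin 3 → ℕ) i)) := by
    refine FP.comp (g := fun i v => (![v 1, v 0, v 2] : Fin 3 → ℕ) i) hrec ?_
    intro i
    fin_cases i
    · exact FP.proj 1
    · exact FP.proj 0
    · exact FP.proj 2
  refine h2.congr fun v => ?_
  simp only [key]
  rfl

theorem FP.pmod' {a e q : Fn k} (ha : FP A k a) (he : FP A k e) (hq : FP A k q) :
    FP A k (fun v => pmod (a v) (e v) (q v)) := FP.comp3 FP.pmod3 ha he hq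

/-! ### simultaneous iteration -/

/-- simultaneous iteration on `m` registers -/
def itrT {m : ℕ} (a : Fin m → ℕ) (st : ℕ → (Fin m → ℕ) → (Fin m → ℕ)) : ℕ → (Fin m → ℕ)
  | 0 => a
  | i + 1 => st i (itrT a st i)

@[simp] theorem itrT_zero {m : ℕ} (a : Fin m → ℕ) (st : ℕ → (Fin m → ℕ) → (Fin m → ℕ)) :
    itrT a st 0 = a := rfl
@[simp] theorem itrT_succ {m : ℕ} (a : Fin m → ℕ) (st : ℕ → (Fin m → ℕ) → (Fin m → ℕ))
    (i : ℕ) : itrT a st (i + 1) = st i (itrT a st i) := rfl

/-- pack a tuple of numbers `< M` -/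
def pack (M : ℕ) {m : ℕ} (a : Fin m → ℕ) : ℕ := ∑ i, a i * M ^ (i : ℕ)

theorem pack_lt {M m : ℕ} (a : Fin m → ℕ) (h : ∀ i, a i < M) : pack M a < M ^ m := by
  induction m with
  | zero => simp [pack]
  | succ m ih =>
    have h1 := ih (fun i => a i.castSucc) (fun i => h _)
    have h2 : pack M a = pack M (fun i : Fin m => a i.castSucc) + a (Fin.last m) * M ^ m := by
      simp [pack, Fin.sum_univ_castSucc]
    have h3 : (a (Fin.last m) + 1) * M ^ m ≤ M * M ^ m := Nat.mul_le_mul_right _ (h _)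
    rw [h2, pow_succ']
    nlinarith

theorem unpack {M m : ℕ} (a : Fin m → ℕ) (h : ∀ i, a i < M) (i : Fin m) :
    pack M a / M ^ (i : ℕ) % M = a i := by
  induction m with
  | zero => exact i.elim0
  | succ m ih =>
    have hM : 0 < M := lt_of_le_of_lt (Nat.zero_le _) (h 0)
    have h2 : pack M a = a 0 + M * pack M (fun i : Fin m => a i.succ) := by
      simp only [pack, Fin.sum_univ_succ, Fin.val_zero, pow_zero, mul_one, Fin.val_succ,
        Finset.mul_sum]
      congr 1
      apply Finset.sum_congr rfl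
      intro i _
      ring
    refine Fin.cases ?_ (fun i => ?_) i
    · rw [h2]; simp [Nat.add_mul_mod_self_left, Nat.mod_eq_of_lt (h 0)]
    · have h3 := ih (fun i => a i.succ) (fun i => h _) i
      rw [Fin.val_succ, pow_succ', ← Nat.div_div_eq_div_mul, h2]
      rw [Nat.add_mul_div_left _ _ hM, Nat.div_eq_of_lt (h 0), zero_add]
      exact h3

/-- simultaneous iteration.  The step functions have the arguments
`Fin.append state (Fin.cons i v)`. -/
theorem FP.iterT {m : ℕ} {init : Fin m → Fn k} {step : Fin m → Fn (m + (k + 1))}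
    {n e bd : Fn k} (hinit : ∀ j, FP A k (init j)) (hstep : ∀ j, FP A (m + (k + 1)) (step j))
    (hn : FP A k n) (he : PE A k e) (hbd : FP A k bd) (hne : ∀ v, n v ≤ e v)
    (hb : ∀ v, ∀ i ≤ n v, ∀ j, itrT (fun j => init j v)
      (fun i r j => step j (Fin.append r (Fin.cons i v))) i j ≤ bd v) (j : Fin m) :
    FP A k (fun v => itrT (fun j => init j v)
      (fun i r j => step j (Fin.append r (Fin.cons i v))) (n v) j) := by
  -- packed step
  let st : Fn (k + 2) := fun w =>
    ∑ j : Fin m, step j (Fin.append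
      (fun l : Fin m => w 1 / (bd (Fin.tail (Fin.tail w)) + 1) ^ (l : ℕ) %
        (bd (Fin.tail (Fin.tail w)) + 1)) (Fin.cons (w 0) (Fin.tail (Fin.tail w)))) *
      (bd (Fin.tail (Fin.tail w)) + 1) ^ (j : ℕ)
  have hbd2 : FP A (k + 2) (fun w => bd (Fin.tail (Fin.tail w)) + 1) :=
    hbd.tail2.add' (FP.const 1)
  have hst : FP A (k + 2) st := by
    refine FP.finsum _ fun j _ => FP.mul' ?_ (hbd2.powc _)
    refine FP.comp (g := fun i w => Fin.append
      (fun l : Fin m => w 1 / (bd (Fin.tail (Fin.tail w)) + 1) ^ (l : ℕ) %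
        (bd (Fin.tail (Fin.tail w)) + 1)) (Fin.cons (w 0) (Fin.tail (Fin.tail w)) :
          Fin (k + 1) → ℕ) i) (hstep j) ?_
    intro i
    refine Fin.addCases (fun i => ?_) (fun i => ?_) i
    · simp only [Fin.append_left]
      exact ((FP.proj 1).div' (hbd2.powc _)).mod' hbd2
    · simp only [Fin.append_right]
      refine Fin.cases ?_ (fun i => ?_) i
      · simpa using FP.proj (A := A) (k := k + 2) 0
      · simpa [Fin.tail] using FP.proj (A := A) (k := k + 2) i.succ.succ
  have key : ∀ v, ∀ i ≤ n v, itr (pack (bd v + 1) (fun j => init j v))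
      (fun i r => st (Fin.cons i (Fin.cons r v))) i =
      pack (bd v + 1) (itrT (fun j => init j v)
        (fun i r j => step j (Fin.append r (Fin.cons i v))) i) := by
    intro v i
    induction i with
    | zero => intro _; rfl
    | succ i ih =>
      intro hi
      rw [itr_succ, ih (by omega), itrT_succ]
      have h1 : ∀ j, itrT (fun j => init j v)
          (fun i r j => step j (Fin.append r (Fin.cons i v))) i j < bd v + 1 :=
        fun j => Nat.lt_succ_of_le (hb v i (by omega) j)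
      set a := itrT (fun j => init j v)
          (fun i r j => step j (Fin.append r (Fin.cons i v))) i with ha
      show (∑ j : Fin m, step j (Fin.append
        (fun l : Fin m => pack (bd v + 1) a / (bd v + 1) ^ (l : ℕ) % (bd v + 1))
          (Fin.cons i v)) * (bd v + 1) ^ (j : ℕ)) = _
      have h2 : (fun l : Fin m => pack (bd v + 1) a / (bd v + 1) ^ (l : ℕ) % (bd v + 1)) = a :=
        funext fun l => unpack a h1 l
      rw [h2]
      rfl
  have hit : FP A k (fun v => itr (pack (bd v + 1) (fun j => init j v))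
      (fun i r => st (Fin.cons i (Fin.cons r v))) (n v)) := by
    refine FP.iterE (init := fun v => pack (bd v + 1) (fun j => init j v))
      (bd := fun v => (bd v + 1) ^ m) ?_ hst hn he ((hbd.add' (FP.const 1)).powc m) hne ?_
    · exact FP.finsum _ fun j _ => (hinit j).mul' ((hbd.add' (FP.const 1)).powc _)
    · intro v i hi
      rw [key v i hi]
      exact (pack_lt _ fun j => Nat.lt_succ_of_le (hb v i hi j)).le
  have hbd1 : FP A k (fun v => bd v + 1) := hbd.add' (FP.const 1)
  refine ((hit.div' (hbd1.powc (j : ℕ))).mod' hbd1).congr fun v => ?_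
  rw [key v (n v) le_rfl]
  exact unpack _ (fun j => Nat.lt_succ_of_le (hb v (n v) le_rfl j)) j

/-! ### the parameters as functions of `s = |x|` -/

theorem PE.sg {e : Fn k} (h : PE A k e) : PE A k (fun v => sg (e v)) := h.add (PE.const 10)
theorem PE.tt {e : Fn k} (h : PE A k e) : PE A k (fun v => tt (e v)) := (PE.const 10).mul h.sg
theorem PE.rr {e : Fn k} (h : PE A k e) : PE A k (fun v => rr (e v)) := (PE.const 6).mul h.sg
theorem PE.FF {e : Fn k} (h : PE A k e) : PE A k (fun v => FF (e v)) := h.tt.add (PE.const 2)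
theorem PE.LL {e : Fn k} (h : PE A k e) : PE A k (fun v => LL (e v)) :=
  h.FF.mul ((PE.const 11).add ((PE.const 2).mul h.FF))
theorem PE.bt {e : Fn k} (h : PE A k e) : PE A k (fun v => bt (e v)) := h.LL.add (PE.const 2)
theorem FP.nn {e : Fn k} (h : PE A k e) : FP A k (fun v => nn (e v)) := h.tt
theorem FP.ww {e : Fn k} (h : PE A k e) : FP A k (fun v => ww (e v)) := h.rr
theorem FP.KK {e : Fn k} (h : PE A k e) : FP A k (fun v => KK (e v)) := (PE.const 8).mul h.sg
theorem FP.BB {e : Fn k} (h : PE A k e) : FP A k (fun v => BB (e v)) := h.tt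
theorem FP.jp {e j : Fn k} (h : PE A k e) (hj : FP A k j) : FP A k (fun v => jp (e v) (j v)) :=
  (h.rr.fp.mul' (FP.KK h)).add' hj

end MP21c4c4
end
end

section
/-!
# MP_21c4c4_lc, module BETA
-/
open scoped Classical
open Finset

noncomputable section

namespace MP21c4c4

namespace Beta

/-- Pascal recursion for alternating binomial sums. -/
lemma pascal (n : ℕ) (g : ℕ → ℚ) :
    ∑ a ∈ range (n + 2), (-1 : ℚ) ^ a * ((n + 1).choose a : ℚ) * g a =
      ∑ a ∈ range (n + 1), (-1 : ℚ) ^ a * (n.choose a : ℚ) * g a -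
        ∑ a ∈ range (n + 1), (-1 : ℚ) ^ a * (n.choose a : ℚ) * g (a + 1) := by
  have h1 : ∑ a ∈ range (n + 1), (-1 : ℚ) ^ a * (n.choose a : ℚ) * g a =
      ∑ a ∈ range (n + 2), (-1 : ℚ) ^ a * (n.choose a : ℚ) * g a := by
    rw [sum_range_succ _ (n + 1)]
    simp
  rw [h1, sum_range_succ' _ (n + 1), sum_range_succ' _ (n + 1)]
  have h2 : ∑ a ∈ range (n + 1), (-1 : ℚ) ^ (a + 1) * ((n + 1).choose (a + 1) : ℚ) * g (a + 1) =
      ∑ a ∈ range (n + 1), (-1 : ℚ) ^ (a + 1) * (n.choose (a + 1) : ℚ) * g (a + 1) -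
        ∑ a ∈ range (n + 1), (-1 : ℚ) ^ a * (n.choose a : ℚ) * g (a + 1) := by
    rw [← sum_sub_distrib]
    refine sum_congr rfl fun a _ => ?_
    rw [Nat.choose_succ_succ]
    push_cast
    ring
  rw [h2]
  simp only [Nat.choose_zero_right, pow_zero]
  ring

/-- The alternating sum as a beta integral. -/
lemma beta (n : ℕ) : ∀ x : ℚ, 0 < x →
    ∑ a ∈ range (n + 1), (-1 : ℚ) ^ a * (n.choose a : ℚ) * (1 / (x + a)) =
      (n.factorial : ℚ) / ∏ i ∈ range (n + 1), (x + i) := by
  induction n with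
  | zero =>
    intro x hx
    simp
  | succ n ih =>
    intro x hx
    rw [pascal n (fun a => 1 / (x + a)), ih x hx]
    have h1 : ∑ a ∈ range (n + 1), (-1 : ℚ) ^ a * (n.choose a : ℚ) * (1 / (x + ((a + 1 : ℕ) : ℚ))) =
        ∑ a ∈ range (n + 1), (-1 : ℚ) ^ a * (n.choose a : ℚ) * (1 / ((x + 1) + a)) := by
      refine sum_congr rfl fun a _ => ?_
      push_cast
      ring_nf
    have e1 : (∏ i ∈ range (n + 1 + 1), (x + (i : ℚ))) =
        (∏ i ∈ range (n + 1), (x + (i : ℚ))) * (x + ((n + 1 : ℕ) : ℚ)) := by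
      rw [prod_range_succ]
    have e2 : (∏ i ∈ range (n + 1 + 1), (x + (i : ℚ))) =
        (∏ i ∈ range (n + 1), ((x + 1) + (i : ℚ))) * x := by
      rw [prod_range_succ']
      congr 1
      · refine prod_congr rfl fun a _ => ?_
        push_cast
        ring
      · simp
    have p1 : (0 : ℚ) < ∏ i ∈ range (n + 1), (x + (i : ℚ)) :=
      prod_pos fun i _ => by positivity
    have p2 : (0 : ℚ) < ∏ i ∈ range (n + 1), ((x + 1) + (i : ℚ)) :=
      prod_pos fun i _ => by positivity
    have p3 : (0 : ℚ) < x + ((n + 1 : ℕ) : ℚ) := by positivity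
    have key : (∏ i ∈ range (n + 1), (x + (i : ℚ))) * (x + ((n + 1 : ℕ) : ℚ)) =
        (∏ i ∈ range (n + 1), ((x + 1) + (i : ℚ))) * x := by rw [← e1, e2]
    rw [h1, ih (x + 1) (by linarith), e1, Nat.factorial_succ]
    generalize (∏ i ∈ range (n + 1), (x + (i : ℚ))) = A at *
    generalize (∏ i ∈ range (n + 1), ((x + 1) + (i : ℚ))) = B at *
    push_cast at *
    generalize (n.factorial : ℚ) = f at *
    have hB : B = A * (x + (n + 1)) / x := by
      field_simp
      linarith
    rw [hB]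
    field_simp
    ring

end Beta

theorem specBeta : SpecBeta := by
  intro n
  have h := Beta.beta n ((n : ℚ) + 1) (by positivity)
  have h0 : ∑ a ∈ range (n + 1), ((-1 : ℚ) ^ a * (n.choose a : ℚ) / ((n : ℚ) + 1 + a)) =
      ∑ a ∈ range (n + 1), (-1 : ℚ) ^ a * (n.choose a : ℚ) * (1 / ((n : ℚ) + 1 + a)) := by
    refine sum_congr rfl fun a _ => ?_
    rw [mul_one_div]
  rw [h0, h]
  have hp : ((n.factorial : ℕ) : ℚ) * ∏ i ∈ range (n + 1), ((n : ℚ) + 1 + i) =
      (((2 * n + 1).factorial : ℕ) : ℚ) := by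
    have h1 : n.factorial * (n + 1).ascFactorial (n + 1) = (2 * n + 1).factorial := by
      rw [Nat.factorial_mul_ascFactorial]
      congr 1
      ring
    rw [← h1]
    push_cast
    congr 1
    rw [Nat.ascFactorial_eq_prod_range]
    push_cast
    rfl
  have hc : ((Nat.centralBinom n : ℕ) : ℚ) * (n.factorial : ℚ) * (n.factorial : ℚ) =
      ((2 * n).factorial : ℚ) := by
    have := Nat.choose_mul_factorial_mul_factorial (show n ≤ 2 * n by omega)
    rw [show 2 * n - n = n by omega] at this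
    rw [Nat.centralBinom]
    exact_mod_cast this
  have hf : ((2 * n + 1).factorial : ℚ) = (2 * n + 1) * ((2 * n).factorial : ℚ) := by
    rw [Nat.factorial_succ]
    push_cast
    ring
  have hn : (0 : ℚ) < n.factorial := by exact_mod_cast Nat.factorial_pos n
  have hcp : (0 : ℚ) < Nat.centralBinom n := by exact_mod_cast Nat.centralBinom_pos n
  have hP : (0 : ℚ) < ∏ i ∈ range (n + 1), ((n : ℚ) + 1 + i) :=
    prod_pos fun i _ => by positivity
  rw [div_eq_div_iff hP.ne' (by positivity)]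
  have h2 : (n.factorial : ℚ) * ∏ i ∈ range (n + 1), ((n : ℚ) + 1 + i) =
      (n.factorial : ℚ) * ((2 * n + 1) * (Nat.centralBinom n : ℚ) * (n.factorial : ℚ)) := by
    rw [hp, hf, ← hc]
    ring
  have h3 := mul_left_cancel₀ hn.ne' h2
  rw [h3]
  ring

end MP21c4c4
end
end

section
/-!
# MP_21c4c4_lc, module BIT: the bit of `X` from the block sums.
-/
open Finset

namespace MP21c4c4

namespace Bit

lemma digit_rec (β m d : ℕ) (hm : m < d) : ∀ B : ℕ,
    ∑ i ∈ range B, (2 ^ β * ((2 ^ (β * i) * m) % d) / d) * 2 ^ (β * (B - 1 - i)) =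
      2 ^ (β * B) * m / d := by
  intro B
  induction B with
  | zero => simp [Nat.div_eq_of_lt hm]
  | succ B ih =>
    rw [sum_range_succ]
    have h1 : ∑ i ∈ range B, (2 ^ β * ((2 ^ (β * i) * m) % d) / d) * 2 ^ (β * (B + 1 - 1 - i)) =
        2 ^ β * (2 ^ (β * B) * m / d) := by
      rw [← ih, mul_sum]
      apply sum_congr rfl
      intro i hi
      have hi' : i < B := mem_range.1 hi
      have : β * (B + 1 - 1 - i) = β + β * (B - 1 - i) := by
        have : B + 1 - 1 - i = 1 + (B - 1 - i) := by omega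
        rw [this]; ring
      rw [this, pow_add]
      ring
    rw [h1]
    have h2 : B + 1 - 1 - B = 0 := by omega
    rw [h2, mul_zero, pow_zero, mul_one]
    have hd : 0 < d := by omega
    have h3 : 2 ^ (β * (B + 1)) * m = d * (2 ^ β * (2 ^ (β * B) * m / d)) +
        2 ^ β * (2 ^ (β * B) * m % d) := by
      have h4 := Nat.div_add_mod (2 ^ (β * B) * m) d
      calc 2 ^ (β * (B + 1)) * m = 2 ^ β * (2 ^ (β * B) * m) := by
            rw [mul_add, mul_one, pow_add]; ring
        _ = 2 ^ β * (d * (2 ^ (β * B) * m / d) + 2 ^ (β * B) * m % d) := by rw [h4]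
        _ = _ := by ring
    rw [h3, Nat.mul_add_div hd]

lemma digit_sum (β B m d : ℕ) (hm : m < d) :
    ∑ k ∈ range B, (2 ^ β * ((2 ^ (β * (B - 1 - k)) * m) % d) / d) * 2 ^ (β * k) =
      2 ^ (β * B) * m / d := by
  rw [← digit_rec β m d hm B]
  rw [← sum_range_reflect]
  apply sum_congr rfl
  intro i hi
  have hi' : i < B := mem_range.1 hi
  have : B - 1 - (B - 1 - i) = i := by omega
  rw [this]

lemma carry_sum (β : ℕ) (V : ℕ → ℕ) : ∀ B : ℕ,
    ∑ k ∈ range B, (V k % 2 ^ β + (if k = 0 then 0 else V (k - 1) / 2 ^ β)) * 2 ^ (β * k) +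
      (if B = 0 then 0 else V (B - 1) / 2 ^ β) * 2 ^ (β * B) =
    ∑ k ∈ range B, V k * 2 ^ (β * k) := by
  intro B
  induction B with
  | zero => simp
  | succ B ih =>
    rw [sum_range_succ, sum_range_succ, ← ih]
    simp only [Nat.add_sub_cancel, Nat.succ_ne_zero, if_false]
    have h := Nat.div_add_mod (V B) (2 ^ β)
    have e : 2 ^ (β * (B + 1)) = 2 ^ β * 2 ^ (β * B) := by
      rw [mul_add, mul_one, pow_add]; ring
    rw [e]
    conv_rhs => rw [← h]
    ring

lemma carry_mod (β B : ℕ) (V : ℕ → ℕ) (hJ : 1 ≤ β * B) :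
    (∑ k ∈ range B, (V k % 2 ^ β + (if k = 0 then 0 else V (k - 1) / 2 ^ β)) * 2 ^ (β * k)) /
      2 ^ (β * B - 1) % 2 = (∑ k ∈ range B, V k * 2 ^ (β * k)) / 2 ^ (β * B - 1) % 2 := by
  rw [← carry_sum β V B]
  generalize (∑ k ∈ range B, (V k % 2 ^ β + (if k = 0 then 0 else V (k - 1) / 2 ^ β)) *
    2 ^ (β * k)) = A
  generalize (if B = 0 then 0 else V (B - 1) / 2 ^ β) = c
  generalize β * B = J at *
  have e : 2 ^ J = 2 ^ (J - 1) * 2 := by
    rw [← pow_succ]
    congr 1
    omega
  rw [e, show A + c * (2 ^ (J - 1) * 2) = A + 2 ^ (J - 1) * (2 * c) by ring,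
    Nat.add_mul_div_left _ _ (by positivity)]
  omega

lemma zsum (β B D N : ℕ) (nu de : ℕ → ℕ) (hnd : ∀ i, nu i < de i) (hB : N + 2 < B) :
    ∑ k ∈ range B, ((∑ i ∈ range D, 2 ^ β * ((2 ^ (β * (B - 1 - k)) * nu i) % de i) / de i) +
      (if k + N + 2 = B then 1 else 0)) * 2 ^ (β * k) =
    (∑ i ∈ range D, 2 ^ (β * B) * nu i / de i) + 2 ^ (β * (B - (N + 2))) := by
  have h1 : ∀ k ∈ range B, ((∑ i ∈ range D, 2 ^ β * ((2 ^ (β * (B - 1 - k)) * nu i) % de i) /
      de i) + (if k + N + 2 = B then 1 else 0)) * 2 ^ (β * k) =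
      (∑ i ∈ range D, 2 ^ β * ((2 ^ (β * (B - 1 - k)) * nu i) % de i) / de i) * 2 ^ (β * k) +
        (if k = B - (N + 2) then 2 ^ (β * k) else 0) := by
    intro k _
    by_cases h : k + N + 2 = B
    · rw [if_pos h, if_pos (by omega)]; ring
    · rw [if_neg h, if_neg (by omega)]; ring
  rw [sum_congr rfl h1, sum_add_distrib, sum_ite_eq' (range B), if_pos (mem_range.2 (by omega))]
  congr 1
  simp only [sum_mul]
  rw [sum_comm]
  apply sum_congr rfl
  intro i _
  exact digit_sum β B _ _ (hnd i)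

/-- the rational floor estimate for natural division -/
lemma floor_lo (a b : ℕ) (hb : 0 < b) : (a : ℚ) / b - 1 ≤ ((a / b : ℕ) : ℚ) := by
  have hb' : (0 : ℚ) < b := by exact_mod_cast hb
  have h := Nat.lt_div_mul_add hb (a := a)
  have h' : (a : ℚ) ≤ ((a / b : ℕ) : ℚ) * b + b := by exact_mod_cast h.le
  rw [sub_le_iff_le_add, div_le_iff₀ hb']
  linarith

lemma bitCore (Z X j J : ℕ) (z : ℤ) (δ : ℚ) (hj : 1 ≤ j) (hJ : 1 ≤ J) (hδ0 : 0 ≤ δ)
    (hδ1 : δ < 1 / 2 ^ j) (hZ : (Z : ℚ) = 2 ^ J * ((X : ℚ) / 2 ^ j + z + δ)) :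
    Z / 2 ^ (J - 1) % 2 = X / 2 ^ (j - 1) % 2 := by
  obtain ⟨j, rfl⟩ : ∃ i, j = i + 1 := ⟨j - 1, by omega⟩
  obtain ⟨J, rfl⟩ : ∃ i, J = i + 1 := ⟨J - 1, by omega⟩
  simp only [Nat.add_sub_cancel]
  have hq := Nat.div_add_mod X (2 ^ j)
  have hr : X % 2 ^ j < 2 ^ j := Nat.mod_lt _ (by positivity)
  set q := X / 2 ^ j with hqdef
  set r := X % 2 ^ j with hrdef
  have hX : (X : ℚ) = 2 ^ j * q + r := by
    have : (X : ℚ) = ((2 ^ j * q + r : ℕ) : ℚ) := by rw [hq]
    rw [this]; push_cast; ring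
  have hr' : (r : ℚ) + 1 ≤ 2 ^ j := by exact_mod_cast hr
  have h2j : (0 : ℚ) < 2 ^ j := by positivity
  have h2J : (0 : ℚ) < 2 ^ J := by positivity
  have hZ2 : (Z : ℚ) = 2 ^ J * ((q : ℚ) + 2 * z + (r / 2 ^ j + 2 * δ)) := by
    rw [hZ, hX, pow_succ, pow_succ]
    field_simp
    ring
  have hδ2 : r / 2 ^ j + 2 * δ < 1 := by
    have h1 : (r : ℚ) / 2 ^ j ≤ 1 - 1 / 2 ^ j := by
      rw [le_sub_iff_add_le, ← add_div, div_le_one h2j]
      exact hr'
    have h2 : 2 * δ < 1 / 2 ^ j := by
      have : (1 : ℚ) / 2 ^ (j + 1) = 1 / 2 ^ j / 2 := by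
        rw [pow_succ]; field_simp
      rw [this] at hδ1
      linarith
    linarith
  have hδ3 : 0 ≤ (r : ℚ) / 2 ^ j + 2 * δ := by positivity
  have hlo : ((q : ℤ) + 2 * z) * ((2 ^ J : ℕ) : ℤ) ≤ (Z : ℤ) := by
    have : (((q : ℤ) + 2 * z) * ((2 ^ J : ℕ) : ℤ) : ℚ) ≤ (Z : ℚ) := by
      rw [hZ2]; push_cast; nlinarith
    exact_mod_cast this
  have hhi : (Z : ℤ) < ((q : ℤ) + 2 * z + 1) * ((2 ^ J : ℕ) : ℤ) := by
    have : (Z : ℚ) < (((q : ℤ) + 2 * z + 1) * ((2 ^ J : ℕ) : ℤ) : ℚ) := by
      rw [hZ2]; push_cast; nlinarith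
    exact_mod_cast this
  have hd : (Z : ℤ) / ((2 ^ J : ℕ) : ℤ) = (q : ℤ) + 2 * z := by
    have hpos : (0 : ℤ) < ((2 ^ J : ℕ) : ℤ) := by positivity
    apply le_antisymm
    · have := (Int.ediv_lt_iff_lt_mul hpos).2 hhi
      omega
    · exact (Int.le_ediv_iff_mul_le hpos).2 hlo
  have hd' : ((Z / 2 ^ J : ℕ) : ℤ) = (q : ℤ) + 2 * z := by
    rw [← hd]; norm_cast
  omega

/-- abstract form of the main statement -/
lemma bitFinal (L J P Q j X : ℕ) (α : ℚ) (z : ℤ) (nu de : ℕ → ℕ) (hden : ∀ i, 0 < de i)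
    (hz : ∑ i ∈ range (2 ^ L), (nu i : ℚ) / (de i : ℚ) = α * X + z)
    (ha1 : α * X ≤ (X : ℚ) / 2 ^ j) (ha2 : (X : ℚ) / 2 ^ j ≤ α * X + 1 / 2 ^ (Q + 1))
    (hLJ : L + Q + 1 ≤ J) (hPQ : P + Q = J) (hjQ : j + 1 ≤ Q) (hj1 : 1 ≤ j) (hJ : 1 ≤ J) :
    ((∑ i ∈ range (2 ^ L), 2 ^ J * nu i / de i) + 2 ^ P) / 2 ^ (J - 1) % 2 =
      X / 2 ^ (j - 1) % 2 := by
  set T := ∑ i ∈ range (2 ^ L), 2 ^ J * nu i / de i with hT
  have hTup : (T : ℚ) ≤ 2 ^ J * (α * X + z) := by
    rw [← hz, mul_sum, hT]
    push_cast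
    apply sum_le_sum
    intro i _
    calc ((2 ^ J * nu i / de i : ℕ) : ℚ)
        ≤ ((2 ^ J * nu i : ℕ) : ℚ) / (de i : ℚ) := Nat.cast_div_le
      _ = _ := by push_cast; ring
  have hTlo : 2 ^ J * (α * X + z) - 2 ^ L ≤ (T : ℚ) := by
    rw [← hz, mul_sum, hT]
    push_cast
    have h1 : ∑ i ∈ range (2 ^ L), ((2 : ℚ) ^ J * ((nu i : ℚ) / (de i : ℚ)) - 1) ≤
        ∑ i ∈ range (2 ^ L), ((2 ^ J * nu i / de i : ℕ) : ℚ) := by
      apply sum_le_sum
      intro i _
      have h2 := floor_lo (2 ^ J * nu i) _ (hden i)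
      calc _ = ((2 ^ J * nu i : ℕ) : ℚ) / (de i : ℚ) - 1 := by push_cast; ring
        _ ≤ _ := h2
    rw [sum_sub_distrib] at h1
    simpa using h1
  have hL : (2 : ℚ) ^ L * (2 * 2 ^ Q) ≤ 2 ^ J := by
    rw [← pow_succ', ← pow_add]
    apply pow_le_pow_right₀ (by norm_num)
    omega
  have hJpow : (2 : ℚ) ^ P * 2 ^ Q = 2 ^ J := by
    rw [← pow_add, hPQ]
  have hjlt : (2 : ℚ) ^ (j + 1) ≤ 2 ^ Q := pow_le_pow_right₀ (by norm_num) hjQ
  clear_value T
  have hQ : (0 : ℚ) < 2 ^ Q := by positivity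
  have hJp : (0 : ℚ) < 2 ^ J := by positivity
  refine bitCore (T + 2 ^ P) X j J z (((T + 2 ^ P : ℕ) : ℚ) / 2 ^ J - X / 2 ^ j - z) hj1 hJ
    ?_ ?_ ?_
  · -- lower bound
    have e1 : ((T + 2 ^ P : ℕ) : ℚ) / 2 ^ J = T / 2 ^ J + 1 / 2 ^ Q := by
      push_cast
      rw [← hJpow]
      field_simp
    have e2 : α * X + z - 1 / (2 * 2 ^ Q) ≤ T / 2 ^ J := by
      rw [le_div_iff₀ hJp]
      have h1 : (2 : ℚ) ^ L ≤ 2 ^ J * (1 / (2 * 2 ^ Q)) := by
        rw [mul_one_div, le_div_iff₀ (by positivity)]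
        exact hL
      nlinarith
    have e3 : (1 : ℚ) / 2 ^ (Q + 1) = 1 / (2 * 2 ^ Q) := by
      rw [pow_succ']
    have e4 : (1 : ℚ) / (2 * 2 ^ Q) + 1 / (2 * 2 ^ Q) = 1 / 2 ^ Q := by
      field_simp; norm_num
    rw [e1]
    rw [e3] at ha2
    linarith
  · -- upper bound
    have e1 : ((T + 2 ^ P : ℕ) : ℚ) / 2 ^ J = T / 2 ^ J + 1 / 2 ^ Q := by
      push_cast
      rw [← hJpow]
      field_simp
    have e2 : T / 2 ^ J ≤ α * X + z := by
      rw [div_le_iff₀ hJp]
      linarith
    have e3 : (1 : ℚ) / 2 ^ Q < 1 / 2 ^ j := by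
      apply one_div_lt_one_div_of_lt (by positivity)
      calc (2 : ℚ) ^ j < 2 ^ (j + 1) := pow_lt_pow_right₀ (by norm_num) (by omega)
        _ ≤ _ := hjlt
    rw [e1]
    linarith
  · field_simp
    ring

end Bit

open Bit

/-- module BIT -/
theorem specBit (hSum : SpecSum) (hApprox : SpecApprox) (hParam : SpecParam) : SpecBit := by
  intro s j X hj1 hj2 hX
  obtain ⟨-, -, -, -, -, hp6, hp7, -, -⟩ := hParam s
  have hbt : bt s = LL s + 2 := rfl
  have hblk : ∀ k idx, blk s j (fun q => X % q) k idx + 1 ≤ 2 ^ bt s := by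
    intro k idx
    unfold blk
    have hden : 0 < den s j (fld s idx) := by
      unfold den
      split_ifs with h
      · have := h.2.1
        omega
      · exact one_pos
    have : 2 ^ bt s * ((2 ^ (bt s * (BB s - 1 - k)) * num s j (fun q => X % q) (fld s idx)) %
        den s j (fld s idx)) / den s j (fld s idx) < 2 ^ bt s := by
      rw [Nat.div_lt_iff_lt_mul hden]
      exact Nat.mul_lt_mul_of_pos_left (Nat.mod_lt _ hden) (by positivity)
    exact this
  have hV : ∀ k, VV s j (fun q => X % q) k + 2 ^ LL s ≤ 2 ^ LL s * 2 ^ bt s := by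
    intro k
    unfold VV
    have h1 : ∑ idx ∈ range (2 ^ LL s), (blk s j (fun q => X % q) k idx + 1) ≤
        ∑ _idx ∈ range (2 ^ LL s), 2 ^ bt s := sum_le_sum (fun i _ => hblk k i)
    rw [sum_add_distrib] at h1
    simpa using h1
  have hLpos : 1 ≤ 2 ^ LL s := Nat.one_le_two_pow
  have hbtL : 2 ^ bt s = 4 * 2 ^ LL s := by
    rw [hbt, pow_add]; ring
  have hVO : ∀ k, VO s (VV s j (fun q => X % q)) k / 2 ^ bt s + 1 ≤ 2 ^ LL s + 1 := by
    intro k
    have h1 : VO s (VV s j (fun q => X % q)) k ≤ 2 ^ LL s * 2 ^ bt s := by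
      unfold VO
      have := hV k
      split_ifs <;> omega
    have h2 : VO s (VV s j (fun q => X % q)) k / 2 ^ bt s ≤ 2 ^ LL s := by
      apply Nat.div_le_of_le_mul
      calc _ ≤ _ := h1
        _ = _ := by ring
    omega
  constructor
  · intro k hk
    unfold SS
    have h1 : VO s (VV s j (fun q => X % q)) k % 2 ^ bt s < 2 ^ bt s :=
      Nat.mod_lt _ (by positivity)
    have h2 : 2 ^ (bt s + 1) = 2 * 2 ^ bt s := by rw [pow_succ]; ring
    have h3 := hVO (k - 1)
    rw [h2]
    split_ifs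
    · omega
    · omega
  · -- the value of the sum modulo 2 ^ J
    have hBpos : BB s ≠ 0 := by omega
    have hbtpos : 1 ≤ bt s := by omega
    have hJ : 1 ≤ bt s * BB s := Nat.one_le_iff_ne_zero.2 (Nat.mul_ne_zero (by omega) hBpos)
    have hmod : (∑ k ∈ range (BB s), SS s (VV s j (fun q => X % q)) k * 2 ^ (bt s * k)) /
        2 ^ (bt s * BB s - 1) % 2 =
        (∑ k ∈ range (BB s), VO s (VV s j (fun q => X % q)) k * 2 ^ (bt s * k)) /
        2 ^ (bt s * BB s - 1) % 2 := carry_mod (bt s) (BB s) _ hJ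
    rw [hmod]
    -- Z in terms of T
    have hnd : ∀ idx, num s j (fun q => X % q) (fld s idx) < den s j (fld s idx) := by
      intro idx
      unfold num den
      split_ifs with h
      · have h2 := h.2.1
        exact Nat.mod_lt _ (by omega)
      · exact one_pos
    have hZ : ∑ k ∈ range (BB s), VO s (VV s j (fun q => X % q)) k * 2 ^ (bt s * k) =
        (∑ idx ∈ range (2 ^ LL s), 2 ^ (bt s * BB s) * num s j (fun q => X % q) (fld s idx) /
          den s j (fld s idx)) + 2 ^ (bt s * (BB s - (2 ^ s + 2))) :=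
      zsum (bt s) (BB s) (2 ^ LL s) (2 ^ s) (fun idx => num s j (fun q => X % q) (fld s idx))
        (fun idx => den s j (fld s idx)) hnd hp6
    rw [hZ]
    obtain ⟨z, hz⟩ := hSum s j X
    obtain ⟨ha1, ha2⟩ := hApprox s j X hj1 hj2 hX
    have hden : ∀ idx, 0 < den s j (fld s idx) := fun idx => lt_of_le_of_lt (Nat.zero_le _) (hnd idx)
    have hPQ : bt s * (BB s - (2 ^ s + 2)) + bt s * (2 ^ s + 2) = bt s * BB s := by
      rw [← mul_add, Nat.sub_add_cancel hp6.le]
    have hjQ : j + 1 ≤ bt s * (2 ^ s + 2) := by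
      have h2 : 2 ≤ bt s := by omega
      generalize bt s = b at h2 ⊢
      have : 2 * (2 ^ s + 2) ≤ b * (2 ^ s + 2) := Nat.mul_le_mul_right _ h2
      omega
    exact bitFinal (LL s) (bt s * BB s) (bt s * (BB s - (2 ^ s + 2))) (bt s * (2 ^ s + 2)) j X
      (alpha s j) z (fun idx => num s j (fun q => X % q) (fld s idx))
      (fun idx => den s j (fld s idx)) hden hz ha1 ha2 hp7 hPQ hjQ hj1 hJ

end MP21c4c4
end

section
/-!
# MP_21c4c4_lc, module BLK: the block function is polynomial time.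
-/
open scoped Classical
open Finset

noncomputable section

namespace MP21c4c4

namespace BlkM

variable {A : Set ℕ} {k : ℕ}

/-! ### functions which are polynomial time modulo `q` -/

/-- `f` is polynomial time modulo `q` -/
def MF (A : Set ℕ) (k : ℕ) (q f : Fn k) : Prop :=
  ∃ f' : Fn k, FP A k f' ∧ ∀ v, q v ≠ 0 → f' v ≡ f v [MOD q v]

theorem MF.of_fp {q f : Fn k} (h : FP A k f) : MF A k q f := ⟨f, h, fun _ _ => rfl⟩

theorem MF.mul {q f g : Fn k} (hf : MF A k q f) (hg : MF A k q g) :
    MF A k q (fun v => f v * g v) := by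
  obtain ⟨f', hf', h1⟩ := hf
  obtain ⟨g', hg', h2⟩ := hg
  exact ⟨_, hf'.mul' hg', fun v hq => (h1 v hq).mul (h2 v hq)⟩

theorem MF.pow {q a n : Fn k} (hq : FP A k q) (ha : FP A k a) (hn : FP A k n) :
    MF A k q (fun v => a v ^ n v) := by
  refine ⟨_, FP.pmod' ha hn hq, fun v hv => ?_⟩
  show pmod (a v) (n v) (q v) ≡ a v ^ n v [MOD q v]
  rw [pmod_eq hv]
  exact Nat.mod_modEq _ _

theorem MF.mod {q f : Fn k} (hq : FP A k q) (hf : MF A k q f) :
    FP A k (fun v => if q v = 0 then 0 else f v % q v) := by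
  obtain ⟨f', hf', h1⟩ := hf
  refine (FP.ite (R := fun v => q v = 0) (_inst := fun _ => inferInstance)
    (PolyRel.eq hq (FP.const 0)) (FP.const 0) (hf'.mod' hq)).congr fun v => ?_
  by_cases hv : q v = 0
  · simp only [hv, if_true]
  · simp only [hv, if_false]
    exact h1 v hv

/-! ### pieces -/

theorem fp_fx {q u N l : Fn k} (hq : FP A k q) (hu : FP A k u) (hN : FP A k N)
    (hl : FP A k l) : FP A k (fun v => fx (q v) (u v) (N v) (l v)) := by
  have h1 : FP A k (fun v => pmod (1 + u v) (N v) (q v)) :=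
    FP.pmod' ((FP.const 1).add' hu) hN hq
  have h2 : FP A k (fun v => pmod (u v) (q v - 1 - l v) (q v)) :=
    FP.pmod' hu ((hq.sub' (FP.const 1)).sub' hl) hq
  have h3 := hq.sub' ((h1.mul' h2).mod' hq)
  have h4 : FP A k (fun v => if u v = 0 then 1 else 0) :=
    FP.ite (R := fun v => u v = 0) (_inst := fun _ => inferInstance)
      (PolyRel.eq hu (FP.const 0)) (FP.const 1) (FP.const 0)
  refine (FP.ite (R := fun v => l v = 0) (_inst := fun _ => inferInstance)
    (PolyRel.eq hl (FP.const 0)) h4 h3).congr fun v => ?_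
  unfold fx
  by_cases hv : l v = 0
  · simp only [hv, if_true]
  · simp only [hv, if_false]
    by_cases hq0 : q v = 0
    · rw [hq0]; simp
    · rw [pmod_eq hq0, pmod_eq hq0, ← Nat.mul_mod]

/-- truncated index -/
theorem pe_min {b : Fn k} (hb : PE A k b) :
    PE A (k + 1) (fun w => min (w 0) (b (Fin.tail w))) :=
  PE.of_le (FP.min' (FP.proj 0) hb.tail.fp) hb.tail fun _ => min_le_right _ _

theorem fp_fld {e idx i : Fn k} (he : PE A k e) (hidx : FP A k idx) (hi : PE A k i) :
    FP A k (fun v => fld (e v) (idx v) (i v)) :=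
  (hidx.div' (he.FF.mul hi).pow).mod' he.FF.pow

theorem fld_lt (s idx i : ℕ) : fld s idx i < 2 ^ FF s :=
  Nat.mod_lt _ (Nat.two_pow_pos _)

/-- the field with number `c + min i b` -/
theorem fp_fldT {e idx c b : Fn k} (he : PE A k e) (hidx : FP A k idx) (hc : PE A k c)
    (hb : PE A k b) :
    FP A (k + 1) (fun w => fld (e (Fin.tail w)) (idx (Fin.tail w))
      (c (Fin.tail w) + min (w 0) (b (Fin.tail w)))) :=
  fp_fld (e := fun w => e (Fin.tail w)) (idx := fun w => idx (Fin.tail w))
    (i := fun w => c (Fin.tail w) + min (w 0) (b (Fin.tail w))) he.tail hidx.tail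
    (hc.tail.add (pe_min hb))

/-- the field with number `c + min (i + 1) b` -/
theorem fp_fldS {e idx c b : Fn k} (he : PE A k e) (hidx : FP A k idx) (hc : PE A k c)
    (hb : PE A k b) :
    FP A (k + 1) (fun w => fld (e (Fin.tail w)) (idx (Fin.tail w))
      (c (Fin.tail w) + min (w 0 + 1) (b (Fin.tail w)))) :=
  fp_fld (e := fun w => e (Fin.tail w)) (idx := fun w => idx (Fin.tail w))
    (i := fun w => c (Fin.tail w) + min (w 0 + 1) (b (Fin.tail w))) he.tail hidx.tail
    (hc.tail.add (PE.of_le (FP.min' ((FP.proj 0).add' (FP.const 1)) hb.tail.fp) hb.tail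
      fun _ => min_le_right _ _))

theorem pr_small {e idx c q : Fn k} (he : PE A k e) (hidx : FP A k idx) (hc : PE A k c)
    (hq : FP A k q) (n : ℕ) :
    PolyRel A k (fun v => ∀ i < n, fld (e v) (idx v) (c v + i) < q v) := by
  refine (PolyRel.ball (n := fun _ => n) (e := fun _ => n)
    (R := fun w => fld (e (Fin.tail w)) (idx (Fin.tail w))
      (c (Fin.tail w) + min (w 0) n) < q (Fin.tail w))
    (PolyRel.lt (fp_fldT he hidx hc (PE.const n)) hq.tail) (FP.const n) (PE.const n)
    fun _ => le_rfl).congr fun v => ?_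
  refine forall₂_congr fun i hi => ?_
  simp only [Fin.cons_zero, Fin.tail_cons, min_eq_left hi.le]

theorem pad_iff (F : ℕ) (g : ℕ → ℕ) :
    (∀ i j, i < j → j < F → g i = 1 → g j = 1) ↔
      ∀ i < F, i + 1 < F → g i = 1 → g (i + 1) = 1 := by
  constructor
  · intro h i _ h1 h2
    exact h i (i + 1) (Nat.lt_succ_self i) h1 h2
  · intro h i j hij hj hi
    induction j with
    | zero => omega
    | succ j ih =>
      rcases Nat.lt_or_ge i j with h1 | h1
      · exact h j (by omega) hj (ih h1 (by omega))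
      · have : i = j := by omega
        subst this
        exact h i (by omega) hj hi

theorem pr_okT {e idx c q : Fn k} (he : PE A k e) (hidx : FP A k idx) (hc : PE A k c)
    (hq : FP A k q) :
    PolyRel A k (fun v => okT (FF (e v)) (q v) (fun i => fld (e v) (idx v) (c v + i))) := by
  have hT := fp_fldT he hidx hc he.FF
  have hS := fp_fldS he hidx hc he.FF
  have h1 : PolyRel A k (fun v => ∀ i < FF (e v), 1 ≤ fld (e v) (idx v) (c v + i)) := by
    refine (PolyRel.ball (n := fun v => FF (e v)) (e := fun v => FF (e v))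
      (R := fun w => 1 ≤ fld (e (Fin.tail w)) (idx (Fin.tail w))
        (c (Fin.tail w) + min (w 0) (FF (e (Fin.tail w)))))
      (PolyRel.le (FP.const 1) hT) he.FF.fp he.FF fun _ => le_rfl).congr fun v => ?_
    refine forall₂_congr fun i hi => ?_
    simp only [Fin.cons_zero, Fin.tail_cons, min_eq_left (le_of_lt hi)]
  have h2 : PolyRel A k (fun v => ∀ i < FF (e v), i + 1 < FF (e v) →
      fld (e v) (idx v) (c v + i) = 1 → fld (e v) (idx v) (c v + (i + 1)) = 1) := by
    refine (PolyRel.ball (n := fun v => FF (e v)) (e := fun v => FF (e v))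
      (R := fun w => w 0 + 1 < FF (e (Fin.tail w)) →
        fld (e (Fin.tail w)) (idx (Fin.tail w))
          (c (Fin.tail w) + min (w 0) (FF (e (Fin.tail w)))) = 1 →
        fld (e (Fin.tail w)) (idx (Fin.tail w))
          (c (Fin.tail w) + min (w 0 + 1) (FF (e (Fin.tail w)))) = 1)
      (PolyRel.imp (PolyRel.lt ((FP.proj 0).add' (FP.const 1)) he.FF.fp.tail)
        (PolyRel.imp (PolyRel.eq hT (FP.const 1)) (PolyRel.eq hS (FP.const 1))))
      he.FF.fp he.FF fun _ => le_rfl).congr fun v => ?_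
    refine forall₂_congr fun i hi => ?_
    simp only [Fin.cons_zero, Fin.tail_cons, min_eq_left (le_of_lt hi)]
    refine forall_congr' fun h => ?_
    rw [min_eq_left h.le]
  have h3 : FP A k (fun v => ∏ i ∈ range (FF (e v)), fld (e v) (idx v) (c v + i)) := by
    refine (FP.prod (n := fun v => FF (e v)) (e := fun v => FF (e v))
      (bd := fun v => 2 ^ (FF (e v) * FF (e v)))
      (f := fun w => fld (e (Fin.tail w)) (idx (Fin.tail w))
        (c (Fin.tail w) + min (w 0) (FF (e (Fin.tail w)))))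
      hT he.FF.fp he.FF (he.FF.mul he.FF) (fun _ => le_rfl) ?_).congr fun v => ?_
    · intro v i hi
      calc ∏ j ∈ range i, (fun w : Fin (k + 1) → ℕ => fld (e (Fin.tail w)) (idx (Fin.tail w))
              (c (Fin.tail w) + min (w 0) (FF (e (Fin.tail w))))) (Fin.cons j v)
          ≤ ∏ _j ∈ range i, 2 ^ FF (e v) :=
            Finset.prod_le_prod (fun _ _ => Nat.zero_le _) fun j _ => (fld_lt _ _ _).le
        _ = 2 ^ (FF (e v) * i) := by simp [pow_mul]
        _ ≤ _ := Nat.pow_le_pow_right (by norm_num) (Nat.mul_le_mul_left _ hi)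
    · refine Finset.prod_congr rfl fun i hi => ?_
      have hi' := Finset.mem_range.1 hi
      simp only [Fin.cons_zero, Fin.tail_cons, min_eq_left (le_of_lt hi')]
  refine ((h1.and (h2.and (PolyRel.eq h3 hq)))).congr fun v => ?_
  unfold okT
  rw [← pad_iff (FF (e v)) (fun i => fld (e v) (idx v) (c v + i))]

theorem fp_cntT {e idx c : Fn k} (he : PE A k e) (hidx : FP A k idx) (hc : PE A k c) :
    FP A k (fun v => cntT (FF (e v)) (fun i => fld (e v) (idx v) (c v + i))) := by
  have hT := fp_fldT he hidx hc he.FF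
  refine (FP.count (n := fun v => FF (e v)) (e := fun v => FF (e v))
    (_inst := fun _ => Classical.decPred _)
    (R := fun w => fld (e (Fin.tail w)) (idx (Fin.tail w))
      (c (Fin.tail w) + min (w 0) (FF (e (Fin.tail w)))) ≠ 1)
    (PolyRel.eq hT (FP.const 1)).not he.FF.fp he.FF fun _ => le_rfl).congr fun v => ?_
  unfold cntT
  congr 1
  ext i
  simp only [Finset.mem_filter, Finset.mem_range, Fin.cons_zero, Fin.tail_cons]
  refine and_congr_right fun hi => ?_
  rw [min_eq_left hi.le]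

theorem fp_fact {e : Fn k} (he : PE A k e) : FP A k (fun v => (FF (e v)).factorial) := by
  refine (FP.prod (n := fun v => FF (e v)) (e := fun v => FF (e v))
    (bd := fun v => 2 ^ (FF (e v) * FF (e v))) (f := fun w => w 0 + 1)
    ((FP.proj 0).add' (FP.const 1)) he.FF.fp he.FF (he.FF.mul he.FF) (fun _ => le_rfl)
    ?_).congr fun v => ?_
  · intro v i hi
    calc ∏ j ∈ range i, ((Fin.cons j v : Fin (k + 1) → ℕ) 0 + 1)
        ≤ ∏ _j ∈ range i, 2 ^ FF (e v) := by
          refine Finset.prod_le_prod (fun _ _ => Nat.zero_le _) fun j hj => ?_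
          have hj' := Finset.mem_range.1 hj
          have := Nat.lt_two_pow_self (n := FF (e v))
          show j + 1 ≤ _
          omega
      _ = 2 ^ (FF (e v) * i) := by simp [pow_mul]
      _ ≤ _ := Nat.pow_le_pow_right (by norm_num) (Nat.mul_le_mul_left _ hi)
  · show ∏ i ∈ range (FF (e v)), (i + 1) = _
    exact Finset.prod_range_add_one_eq_factorial _

/-! ### the numerator and the denominator -/

theorem pr_Good {e j idx : Fn k} (he : PE A k e) (hj : FP A k j) (hidx : FP A k idx) :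
    PolyRel A k (fun v => Good (e v) (j v) (fld (e v) (idx v))) := by
  have g : ∀ n : ℕ, FP A k (fun v => fld (e v) (idx v) n) := fun n =>
    fp_fld he hidx (PE.const n)
  have c1 := PolyRel.le (g 0) (FP.nn he)
  have c2 := PolyRel.lt (FP.ww he) (g 1)
  have c3 := PolyRel.dvd (g 1) (((FP.nn he).add' (FP.const 1)).add' (g 0))
  have c4 := PolyRel.le (FP.jp he hj) (g 2)
  have c5 := PolyRel.le (g 2) (FP.nn he)
  have c6 := PolyRel.dvd (FP.const 2) (g 2)
  have c7 := PolyRel.le (g 3) (FP.ww he)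
  have c8 := pr_small he hidx (PE.const 4) (g 1) 7
  have c9 := pr_okT he hidx (PE.const 11) (g 1)
  have c10 := pr_okT he hidx ((PE.const 11).add he.FF) (g 1)
  exact c1.and (c2.and (c3.and (c4.and (c5.and (c6.and (c7.and (c8.and (c9.and c10))))))))

theorem mf_core {e j idx xv : Fn k} (he : PE A k e) (hj : FP A k j) (hidx : FP A k idx)
    (hx : FP A k xv) :
    MF A k (fun v => fld (e v) (idx v) 1)
      (fun v => core (e v) (j v) (xv v) (fld (e v) (idx v))) := by
  have g : ∀ n : ℕ, FP A k (fun v => fld (e v) (idx v) n) := fun n =>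
    fp_fld he hidx (PE.const n)
  have hn := FP.nn he
  have hw := FP.ww he
  have hK := FP.KK he
  have hjp := FP.jp he hj
  have c1 := FP.const (A := A) (k := k) 1
  have c2 := FP.const (A := A) (k := k) 2
  have hnl := hn.sub' (g 2)
  have m1 := MF.pow (g 1) ((g 1).sub' c1) ((g 0).add' (g 3))
  have m2 : MF A k (fun v => fld (e v) (idx v) 1) (fun v => 2 * nn (e v) + 1) :=
    MF.of_fp ((c2.mul' hn).add' c1)
  have f1 := fp_fx (g 1) (g 4) (hn.div' (g 1)) ((g 0).div' (g 1))
  have f2 := fp_fx (g 1) (g 5) (hn.mod' (g 1)) ((g 0).mod' (g 1))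
  have f3 := fp_fx (g 1) (g 6) hw (g 3)
  have f4 := fp_fx (g 1) (g 7) (hn.div' (g 1)) ((g 2).div' (g 1))
  have f5 := fp_fx (g 1) (g 8) (hn.mod' (g 1)) ((g 2).mod' (g 1))
  have f6 := fp_fx (g 1) (g 9) (hnl.div' (g 1)) ((hnl.div' c2).div' (g 1))
  have f7 := fp_fx (g 1) (g 10) (hnl.mod' (g 1)) ((hnl.div' c2).mod' (g 1))
  have m3 := MF.pow (g 1) (g 3) hK
  have m4 := MF.pow (g 1) c2 ((g 2).sub' hjp)
  have m5 := MF.pow (g 1) (((hn.add' c1).add' (g 0)).div' (g 1)) ((g 1).sub' c2)
  have m6 := MF.pow (g 1) (fp_fact he) ((g 1).sub' c2)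
  exact (((((((m1.mul m2).mul ((MF.of_fp f1).mul (MF.of_fp f2)))).mul
    (m3.mul (MF.of_fp f3))).mul
    ((((m4.mul (MF.of_fp f4)).mul (MF.of_fp f5)).mul (MF.of_fp f6)).mul (MF.of_fp f7))).mul
    (MF.of_fp hx)).mul m5).mul m6

theorem mf_wgt {e idx : Fn k} (he : PE A k e) (hidx : FP A k idx) :
    MF A k (fun v => fld (e v) (idx v) 1) (fun v => wgt (e v) (fld (e v) (idx v))) := by
  have g : ∀ n : ℕ, FP A k (fun v => fld (e v) (idx v) n) := fun n =>
    fp_fld he hidx (PE.const n)
  have k1 := fp_cntT he hidx (PE.const 11)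
  have k2 := fp_cntT he hidx ((PE.const 11).add he.FF)
  exact (MF.pow (g 1) ((g 1).sub' (FP.const 1)) (k1.add' k2)).mul
    (MF.of_fp ((fp_fact he).div' k1))

theorem Good.pos {s j : ℕ} {g : ℕ → ℕ} (h : Good s j g) : g 1 ≠ 0 := by
  have := h.2.1
  omega

theorem den_ne (s j : ℕ) (g : ℕ → ℕ) : den s j g ≠ 0 := by
  unfold den
  split_ifs with h
  · exact Good.pos h
  · exact one_ne_zero

theorem fp_den {e j idx : Fn k} (he : PE A k e) (hj : FP A k j) (hidx : FP A k idx) :
    FP A k (fun v => den (e v) (j v) (fld (e v) (idx v))) :=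
  FP.ite (R := fun v => Good (e v) (j v) (fld (e v) (idx v)))
    (pr_Good he hj hidx) (fp_fld he hidx (PE.const 1)) (FP.const 1)

theorem fp_num {e j idx : Fn k} {xv : Fn k} (he : PE A k e) (hj : FP A k j)
    (hidx : FP A k idx) (xm : Fn (k + 1)) (hx : FP A (k + 1) xm)
    (hxv : ∀ v, xv v = xm (Fin.cons (fld (e v) (idx v) 1) v)) :
    FP A k (fun v => num (e v) (j v) (fun q => xm (Fin.cons q v)) (fld (e v) (idx v))) := by
  have hg1 : FP A k (fun v => fld (e v) (idx v) 1) := fp_fld he hidx (PE.const 1)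
  have hxv' : FP A k xv := (FP.subst0 hx hg1).congr fun v => (hxv v).symm
  have h1 := MF.mod hg1 ((mf_core he hj hidx hxv').mul (mf_wgt he hidx))
  refine (FP.ite (R := fun v => Good (e v) (j v) (fld (e v) (idx v)))
    (_inst := fun _ => Classical.propDecidable _)
    (pr_Good he hj hidx) h1 (FP.const 0)).congr fun v => ?_
  unfold num
  by_cases hG : Good (e v) (j v) (fld (e v) (idx v))
  · rw [if_pos hG, if_pos hG, if_neg (Good.pos hG), hxv v]
  · rw [if_neg hG, if_neg hG]

theorem fp_blk {e j l idx : Fn k} (he : PE A k e) (hj : FP A k j) (hl : FP A k l)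
    (hidx : FP A k idx) (xm : Fn (k + 1)) (hx : FP A (k + 1) xm) :
    FP A k (fun v => blk (e v) (j v) (fun q => xm (Fin.cons q v)) (l v) (idx v)) := by
  have hd := fp_den he hj hidx
  have hn := fp_num (xv := fun v => xm (Fin.cons (fld (e v) (idx v) 1) v)) he hj hidx xm hx
    fun _ => rfl
  have hexp : FP A k (fun v => bt (e v) * (BB (e v) - 1 - l v)) :=
    he.bt.fp.mul' (((FP.BB he).sub' (FP.const 1)).sub' hl)
  have hp := FP.pmod' (FP.const 2) hexp hd
  refine ((he.bt.pow.mul' ((hp.mul' hn).mod' hd)).div' hd).congr fun v => ?_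
  unfold blk
  rw [pmod_eq (den_ne _ _ _)]
  rw [Nat.mod_mul_mod]

end BlkM

/-- module BLK -/
theorem specBlk : SpecBlk := by
  intro xm hxm
  have hx : FP ∅ 6 (fun w => xm ![w 1, w 2, w 0]) := by
    refine FP.comp (g := fun i w => (![w 1, w 2, w 0] : Fin 3 → ℕ) i) hxm ?_
    intro i
    fin_cases i
    · exact FP.proj 1
    · exact FP.proj 2
    · exact FP.proj 0
  have h := BlkM.fp_blk (A := ∅) (k := 5) (e := fun v => Nat.size (v 0)) (j := fun v => v 2)
    (l := fun v => v 3) (idx := fun v => v 4) (PE.size (FP.proj 0)) (FP.proj 2) (FP.proj 3)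
    (FP.proj 4) (fun w => xm ![w 1, w 2, w 0]) hx
  exact h.congr fun v => rfl

end MP21c4c4
end
end

section
/-!
# MP_21c4c4_lc, module CARRY: carry look-ahead
-/
open scoped Classical
open Finset

noncomputable section

namespace MP21c4c4

namespace Carry

/-- partial sum -/
def Z (β : ℕ) (S : ℕ → ℕ) (m : ℕ) : ℕ := ∑ k ∈ range m, S k * 2 ^ (β * k)

/-- carry into position `m` -/
def cy (β : ℕ) (S : ℕ → ℕ) (m : ℕ) : ℕ := Z β S m / 2 ^ (β * m)

lemma Z_succ (β : ℕ) (S : ℕ → ℕ) (m : ℕ) :
    Z β S (m + 1) = Z β S m + S m * 2 ^ (β * m) := by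
  unfold Z
  rw [Finset.sum_range_succ]

lemma div_succ (β : ℕ) (S : ℕ → ℕ) (m : ℕ) :
    Z β S (m + 1) / 2 ^ (β * m) = cy β S m + S m := by
  rw [Z_succ, Nat.add_mul_div_right _ _ (by positivity)]
  rfl

lemma cy_succ (β : ℕ) (S : ℕ → ℕ) (m : ℕ) :
    cy β S (m + 1) = (cy β S m + S m) / 2 ^ β := by
  have h : 2 ^ (β * (m + 1)) = 2 ^ (β * m) * 2 ^ β := by
    rw [← pow_add]
    congr 1
  unfold cy
  rw [h, ← Nat.div_div_eq_div_mul, div_succ]
  rfl

lemma cy_zero (β : ℕ) (S : ℕ → ℕ) : cy β S 0 = 0 := by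
  simp [cy, Z]

lemma cy_le (β : ℕ) (S : ℕ → ℕ) (B : ℕ) (hS : ∀ k < B, S k + 2 ≤ 2 ^ (β + 1)) :
    ∀ m ≤ B, cy β S m ≤ 1 := by
  intro m
  induction m with
  | zero => intro _; rw [cy_zero]; omega
  | succ m ih =>
    intro hm
    rw [cy_succ]
    have h1 := ih (by omega)
    have h2 := hS m (by omega)
    have h3 : 2 ^ (β + 1) = 2 * 2 ^ β := by ring
    have h4 : (cy β S m + S m) / 2 ^ β < 2 := by
      apply Nat.div_lt_of_lt_mul
      omega
    omega

/-- the condition for carry one -/
def P1 (β : ℕ) (S : ℕ → ℕ) (m : ℕ) : Prop :=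
  ∃ k < m, 2 ^ β ≤ S k ∧ ∀ z < m, k < z → S z + 1 = 2 ^ β

/-- the condition for carry zero -/
def P0 (β : ℕ) (S : ℕ → ℕ) (m : ℕ) : Prop :=
  (∀ z < m, S z + 1 = 2 ^ β) ∨ ∃ k < m, S k + 2 ≤ 2 ^ β ∧ ∀ z < m, k < z → S z + 1 = 2 ^ β

lemma step_eq (β : ℕ) (S : ℕ → ℕ) (m : ℕ) (h : S m + 1 = 2 ^ β) (h1 : cy β S m ≤ 1) :
    cy β S (m + 1) = cy β S m := by
  rw [cy_succ]
  have h2 : 0 < 2 ^ β := by positivity
  interval_cases hc : cy β S m
  · apply Nat.div_eq_of_lt
    omega
  · have : 1 + S m = 2 ^ β := by omega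
    rw [this]
    exact Nat.div_self h2

lemma step_big (β : ℕ) (S : ℕ → ℕ) (m : ℕ) (h : 2 ^ β ≤ S m) (h2 : cy β S (m + 1) ≤ 1) :
    cy β S (m + 1) = 1 := by
  have h3 : 1 ≤ cy β S (m + 1) := by
    rw [cy_succ]
    rw [Nat.one_le_div_iff (by positivity)]
    omega
  omega

lemma step_small (β : ℕ) (S : ℕ → ℕ) (m : ℕ) (h : S m + 2 ≤ 2 ^ β) (h1 : cy β S m ≤ 1) :
    cy β S (m + 1) = 0 := by
  rw [cy_succ]
  apply Nat.div_eq_of_lt
  omega

lemma main (β : ℕ) (S : ℕ → ℕ) (B : ℕ) (hS : ∀ k < B, S k + 2 ≤ 2 ^ (β + 1)) :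
    ∀ m ≤ B, (P1 β S m ↔ cy β S m = 1) ∧ (P0 β S m ↔ cy β S m = 0) := by
  intro m
  induction m with
  | zero =>
    intro _
    rw [cy_zero]
    refine ⟨⟨?_, ?_⟩, ⟨?_, ?_⟩⟩
    · rintro ⟨k, hk, _⟩
      omega
    · intro h
      omega
    · intro _
      rfl
    · intro _
      left
      intro z hz
      omega
  | succ m ih =>
    intro hm
    obtain ⟨ih1, ih0⟩ := ih (by omega)
    have hc := cy_le β S B hS m (by omega)
    have hc' := cy_le β S B hS (m + 1) hm
    rcases lt_trichotomy (S m + 1) (2 ^ β) with h | h | h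
    · have h0 := step_small β S m (by omega) hc
      rw [h0]
      refine ⟨⟨?_, ?_⟩, ⟨?_, ?_⟩⟩
      · rintro ⟨k, hk, hk1, hk2⟩
        exfalso
        by_cases hkm : k = m
        · subst hkm
          omega
        · have := hk2 m (by omega) (by omega)
          omega
      · intro h
        omega
      · intro _
        rfl
      · intro _
        right
        exact ⟨m, by omega, by omega, fun z hz hz' => by omega⟩
    · have h0 := step_eq β S m h hc
      rw [h0, ← ih1, ← ih0]
      refine ⟨⟨?_, ?_⟩, ⟨?_, ?_⟩⟩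
      · rintro ⟨k, hk, hk1, hk2⟩
        have hkm : k ≠ m := by
          rintro rfl
          omega
        exact ⟨k, by omega, hk1, fun z hz hz' => hk2 z (by omega) hz'⟩
      · rintro ⟨k, hk, hk1, hk2⟩
        refine ⟨k, by omega, hk1, fun z hz hz' => ?_⟩
        by_cases hzm : z = m
        · rw [hzm]
          exact h
        · exact hk2 z (by omega) hz'
      · rintro (h1 | ⟨k, hk, hk1, hk2⟩)
        · left
          exact fun z hz => h1 z (by omega)
        · right
          have hkm : k ≠ m := by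
            rintro rfl
            omega
          exact ⟨k, by omega, hk1, fun z hz hz' => hk2 z (by omega) hz'⟩
      · rintro (h1 | ⟨k, hk, hk1, hk2⟩)
        · left
          intro z hz
          by_cases hzm : z = m
          · rw [hzm]
            exact h
          · exact h1 z (by omega)
        · right
          refine ⟨k, by omega, hk1, fun z hz hz' => ?_⟩
          by_cases hzm : z = m
          · rw [hzm]
            exact h
          · exact hk2 z (by omega) hz'
    · have h0 := step_big β S m (by omega) hc'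
      rw [h0]
      refine ⟨⟨?_, ?_⟩, ⟨?_, ?_⟩⟩
      · intro _
        rfl
      · intro _
        exact ⟨m, by omega, by omega, fun z hz hz' => by omega⟩
      · rintro (h1 | ⟨k, hk, hk1, hk2⟩)
        · have := h1 m (by omega)
          omega
        · exfalso
          by_cases hkm : k = m
          · subst hkm
            omega
          · have := hk2 m (by omega) (by omega)
            omega
      · intro h
        omega

end Carry

open Carry in
theorem specCarry : SpecCarry := by
  intro β B S hβ hB hS b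
  obtain ⟨m, rfl⟩ : ∃ m, B = m + 1 := ⟨B - 1, by omega⟩
  obtain ⟨h1, h0⟩ := main β S (m + 1) hS m (by omega)
  have hc := cy_le β S (m + 1) hS m (by omega)
  have hm : m + 1 - 1 = m := by omega
  have hbit : (∑ k ∈ range (m + 1), S k * 2 ^ (β * k)) / 2 ^ (β * (m + 1) - 1) % 2 =
      (S m + cy β S m) / 2 ^ (β - 1) % 2 := by
    have e1 : 2 ^ (β * (m + 1) - 1) = 2 ^ (β * m) * 2 ^ (β - 1) := by
      rw [← pow_add]
      congr 1
      rw [Nat.mul_succ]
      omega
    have e2 := div_succ β S m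
    unfold Z at e2
    rw [e1, ← Nat.div_div_eq_div_mul, e2, add_comm]
  rw [hbit, hm]
  constructor
  · intro hb
    refine ⟨cy β S m, hc, ?_⟩
    interval_cases hcv : cy β S m
    · rcases h0.2 rfl with h | ⟨k, hk, hk1, hk2⟩
      · refine ⟨m, by omega, fun z hz => ⟨by omega, fun _ h3 => by omega, fun h3 _ => h z (by omega)⟩,
          hb⟩
      · refine ⟨k, by omega, fun z hz => ⟨by omega, fun _ _ => hk1, fun h3 h4 => ?_⟩, hb⟩
        rcases h4 with h4 | h4
        · exact hk2 z (by omega) h4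
        · omega
    · obtain ⟨k, hk, hk1, hk2⟩ := h1.2 rfl
      refine ⟨k, by omega, fun z hz => ⟨fun _ => ⟨by omega, hk1⟩, by omega, fun h3 h4 => ?_⟩, hb⟩
      rcases h4 with h4 | h4
      · exact hk2 z (by omega) h4
      · omega
  · rintro ⟨c, hc1, k0, hk0, hz, hb⟩
    have hcc : c = cy β S m := by
      interval_cases c
      · symm
        rw [← h0]
        by_cases hk : k0 + 1 < m + 1
        · right
          refine ⟨k0, by omega, (hz 0 (by omega)).2.1 rfl hk, fun z hz1 hz2 => ?_⟩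
          exact (hz z (by omega)).2.2 (by omega) (Or.inl hz2)
        · left
          intro z hz1
          exact (hz z (by omega)).2.2 (by omega) (Or.inr (by omega))
      · symm
        rw [← h1]
        obtain ⟨h3, h4⟩ := (hz 0 (by omega)).1 rfl
        exact ⟨k0, by omega, h4, fun z hz1 hz2 => (hz z (by omega)).2.2 (by omega) (Or.inl hz2)⟩
    rw [← hcc]
    exact hb

end MP21c4c4
end
end

section
/-!
# MP_21c4c4_lc, module CODE, part 1: the coding of lists (pure combinatorics)
-/
open scoped Classical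

noncomputable section

namespace MP21c4c4
namespace CodeM

/-! ### Decoding -/

/-- push a base 4 digit (digits are scanned from the most significant one) -/
def push (d : ℕ) (l : List ℕ) : List ℕ :=
  if d = 2 then 0 :: l else (2 * l.headD 0 + d % 2) :: l.tail

/-- the decoded list -/
def dec (x : ℕ) : List ℕ := (Nat.digits 4 x).foldr push []

theorem dec_zero : dec 0 = [] := by simp [dec]

theorem dec_pos {x : ℕ} (hx : x ≠ 0) : dec x = push (x % 4) (dec (x / 4)) := by
  unfold dec
  rw [Nat.digits_def' (by norm_num) (Nat.pos_of_ne_zero hx)]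
  rfl

theorem push_length_le (d : ℕ) (l : List ℕ) : (push d l).length ≤ l.length + 1 := by
  unfold push
  split_ifs <;> simp

theorem push_ne_nil (d : ℕ) (l : List ℕ) : push d l ≠ [] := by
  unfold push
  split_ifs <;> simp

theorem dec_length_le (x : ℕ) : (dec x).length ≤ (Nat.digits 4 x).length := by
  unfold dec
  induction Nat.digits 4 x with
  | nil => simp
  | cons d l ih =>
    simp only [List.foldr_cons, List.length_cons]
    exact (push_length_le _ _).trans (by omega)

theorem push_lt {d : ℕ} {l : List ℕ} {n : ℕ} (h : ∀ a ∈ l, a < 2 ^ n) :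
    ∀ a ∈ push d l, a < 2 ^ (n + 1) := by
  intro a ha
  have h2 : 2 ^ (n + 1) = 2 * 2 ^ n := by ring
  have h1 : 1 ≤ 2 ^ n := Nat.one_le_two_pow
  unfold push at ha
  split_ifs at ha with hd
  · rcases List.mem_cons.1 ha with rfl | h'
    · omega
    · have := h a h'
      omega
  · rcases List.mem_cons.1 ha with rfl | h'
    · have : l.headD 0 < 2 ^ n := by
        cases l with
        | nil => simp
        | cons c r => exact h c (by simp)
      have := Nat.mod_lt d (by norm_num : 0 < 2)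
      omega
    · have := h a (List.mem_of_mem_tail h')
      omega

theorem dec_lt (x : ℕ) : ∀ a ∈ dec x, a < 2 ^ (Nat.digits 4 x).length := by
  unfold dec
  induction Nat.digits 4 x with
  | nil => simp
  | cons d l ih =>
    simp only [List.foldr_cons, List.length_cons]
    exact push_lt ih

theorem digits_four_length_le (x : ℕ) : (Nat.digits 4 x).length ≤ Nat.size x := by
  induction x using Nat.strong_induction_on with
  | _ x ih =>
    rcases Nat.eq_zero_or_pos x with rfl | hx
    · simp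
    · rw [Nat.digits_def' (by norm_num) hx, List.length_cons]
      have h1 := ih (x / 4) (Nat.div_lt_self hx (by norm_num))
      have h2 : Nat.size (x / 4) + 1 ≤ Nat.size x := by
        have h3 : Nat.size (x / 4) < Nat.size x := by
          rw [Nat.lt_size]
          have : 2 ^ Nat.size (x / 4) ≤ 2 * (x / 4) ∨ x / 4 = 0 := by
            rcases Nat.eq_zero_or_pos (x / 4) with h | h
            · exact Or.inr h
            · left
              have hs : Nat.size (x / 4) ≠ 0 := by
                rw [Ne, Nat.size_eq_zero]; omega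
              obtain ⟨m, hm⟩ := Nat.exists_eq_succ_of_ne_zero hs
              have : 2 ^ m ≤ x / 4 := by
                rw [← Nat.lt_size, hm]; exact Nat.lt_succ_self m
              rw [hm, pow_succ]; omega
          rcases this with h | h
          · omega
          · rw [h]; simp; omega
        exact h3
      omega

theorem dec_length_le_size (x : ℕ) : (dec x).length ≤ Nat.size x :=
  (dec_length_le x).trans (digits_four_length_le x)

theorem dec_lt_size (x : ℕ) : ∀ a ∈ dec x, a < 2 ^ Nat.size x := fun a ha =>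
  (dec_lt x a ha).trans_le (Nat.pow_le_pow_right (by norm_num) (digits_four_length_le x))

/-! ### Encoding, number by number -/

/-- code of one number followed by the code `y` -/
def enc1 (a y : ℕ) : ℕ := Nat.ofDigits 4 (Nat.digits 2 a ++ [2 + 4 * y])

theorem enc1_zero (y : ℕ) : enc1 0 y = 2 + 4 * y := by
  simp [enc1]

theorem enc1_pos {a : ℕ} (ha : a ≠ 0) (y : ℕ) : enc1 a y = a % 2 + 4 * enc1 (a / 2) y := by
  unfold enc1
  rw [Nat.digits_def' (by norm_num) (Nat.pos_of_ne_zero ha)]
  simp [Nat.ofDigits_cons]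

theorem ofDigits_append_two (D E : List ℕ) :
    Nat.ofDigits 4 (D ++ [2] ++ E) = Nat.ofDigits 4 (D ++ [2 + 4 * Nat.ofDigits 4 E]) := by
  induction D with
  | nil => simp [Nat.ofDigits_cons]
  | cons d D ih =>
    simp only [List.cons_append, Nat.ofDigits_cons] at ih ⊢
    rw [ih]

theorem encList_nil : encList [] = 0 := by simp [encList]

theorem encList_cons (a : ℕ) (l : List ℕ) : encList (a :: l) = enc1 a (encList l) := by
  unfold encList enc1
  rw [List.flatMap_cons]
  exact ofDigits_append_two _ _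

theorem enc1_ne_zero (a y : ℕ) : enc1 a y ≠ 0 := by
  induction a using Nat.strong_induction_on with
  | _ a ih =>
    rcases Nat.eq_zero_or_pos a with rfl | ha
    · rw [enc1_zero]; omega
    · rw [enc1_pos ha.ne']
      have := ih (a / 2) (Nat.div_lt_self ha (by norm_num))
      omega

theorem enc1_mod {a : ℕ} (ha : a ≠ 0) (y : ℕ) : enc1 a y % 4 = a % 2 := by
  rw [enc1_pos ha]
  omega

theorem enc1_div {a : ℕ} (ha : a ≠ 0) (y : ℕ) : enc1 a y / 4 = enc1 (a / 2) y := by
  rw [enc1_pos ha]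
  omega

theorem dec_enc1 (a y : ℕ) : dec (enc1 a y) = a :: dec y := by
  induction a using Nat.strong_induction_on with
  | _ a ih =>
    rw [dec_pos (enc1_ne_zero _ _)]
    rcases Nat.eq_zero_or_pos a with rfl | ha
    · rw [enc1_zero]
      have h1 : (2 + 4 * y) % 4 = 2 := by omega
      have h2 : (2 + 4 * y) / 4 = y := by omega
      rw [h1, h2]
      simp [push]
    · rw [enc1_mod ha.ne', enc1_div ha.ne', ih (a / 2) (Nat.div_lt_self ha (by norm_num))]
      have : a % 2 ≠ 2 := by omega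
      unfold push
      rw [if_neg this]
      simp only [List.headD_cons, List.tail_cons]
      congr 1
      omega

theorem dec_encList (l : List ℕ) : dec (encList l) = l := by
  induction l with
  | nil => rw [encList_nil, dec_zero]
  | cons a l ih => rw [encList_cons, dec_enc1, ih]

/-! ### Canonical codes -/

/-- local condition at one position -/
def Loc (z : ℕ) : Prop :=
  z = 0 ∨ z % 4 = 2 ∨ (z % 4 = 1 ∧ z / 4 ≠ 0) ∨ (z % 4 = 0 ∧ z / 4 ≠ 0 ∧ z / 4 % 4 ≠ 2)

/-- canonical code -/
def Can (x : ℕ) : Prop := ∀ t, Loc (x / 4 ^ t)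

theorem can_zero : Can 0 := by
  intro t
  left
  simp

theorem can_of {z : ℕ} (h : Loc z) (h' : Can (z / 4)) : Can z := by
  intro t
  cases t with
  | zero => simpa using h
  | succ t =>
    have := h' t
    rwa [Nat.div_div_eq_div_mul, ← pow_succ'] at this

theorem can_div {z : ℕ} (h : Can z) : Can (z / 4) := by
  intro t
  have := h (t + 1)
  rwa [pow_succ', ← Nat.div_div_eq_div_mul] at this

theorem can_loc {z : ℕ} (h : Can z) : Loc z := by simpa using h 0

theorem can_enc1 (a y : ℕ) (hy : Can y) : Can (enc1 a y) := by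
  induction a using Nat.strong_induction_on with
  | _ a ih =>
    rcases Nat.eq_zero_or_pos a with rfl | ha
    · apply can_of
      · right; left
        rw [enc1_zero]; omega
      · have h2 : (2 + 4 * y) / 4 = y := by omega
        rw [enc1_zero, h2]; exact hy
    · apply can_of
      · right; right
        rw [enc1_mod ha.ne', enc1_div ha.ne']
        rcases Nat.mod_two_eq_zero_or_one a with h | h
        · right
          refine ⟨h, enc1_ne_zero _ _, ?_⟩
          rw [enc1_mod (by omega)]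
          omega
        · left
          exact ⟨h, enc1_ne_zero _ _⟩
      · rw [enc1_div ha.ne']
        exact ih (a / 2) (Nat.div_lt_self ha (by norm_num))

theorem can_encList (l : List ℕ) : Can (encList l) := by
  induction l with
  | nil => rw [encList_nil]; exact can_zero
  | cons a l ih => rw [encList_cons]; exact can_enc1 _ _ ih

theorem dec_ne_nil {x : ℕ} (hx : x ≠ 0) : dec x ≠ [] := by
  rw [dec_pos hx]; exact push_ne_nil _ _

theorem head_ne_zero {x : ℕ} (hx : x ≠ 0) (h : Can x) (h2 : x % 4 ≠ 2) :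
    (dec x).headD 0 ≠ 0 := by
  induction x using Nat.strong_induction_on with
  | _ x ih =>
    rw [dec_pos hx]
    unfold push
    rw [if_neg h2]
    simp only [List.headD_cons]
    rcases can_loc h with h' | h' | ⟨h', _⟩ | ⟨h', h3, h4⟩
    · exact absurd h' hx
    · exact absurd h' h2
    · rw [h']; omega
    · have := ih (x / 4) (Nat.div_lt_self (Nat.pos_of_ne_zero hx) (by norm_num)) h3 (can_div h) h4
      omega

theorem encList_dec {x : ℕ} (h : Can x) : encList (dec x) = x := by
  induction x using Nat.strong_induction_on with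
  | _ x ih =>
    rcases Nat.eq_zero_or_pos x with rfl | hx
    · rw [dec_zero, encList_nil]
    · have ih' := ih (x / 4) (Nat.div_lt_self hx (by norm_num)) (can_div h)
      rw [dec_pos hx.ne']
      rcases can_loc h with h' | h' | ⟨h', h3⟩ | ⟨h', h3, h4⟩
      · exact absurd h' hx.ne'
      · unfold push
        rw [if_pos h', encList_cons, ih', enc1_zero]
        omega
      · have hne := dec_ne_nil h3
        cases hd : dec (x / 4) with
        | nil => exact absurd hd hne
        | cons c r =>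
          rw [hd, encList_cons] at ih'
          unfold push
          rw [if_neg (by omega), List.headD_cons, List.tail_cons, encList_cons, h',
            enc1_pos (by omega)]
          have e1 : (2 * c + 1 % 2) % 2 = 1 := by omega
          have e2 : (2 * c + 1 % 2) / 2 = c := by omega
          rw [e1, e2, ih']
          omega
      · have hne := dec_ne_nil h3
        have hh := head_ne_zero h3 (can_div h) h4
        cases hd : dec (x / 4) with
        | nil => exact absurd hd hne
        | cons c r =>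
          rw [hd, encList_cons] at ih'
          rw [hd, List.headD_cons] at hh
          unfold push
          rw [if_neg (by omega), List.headD_cons, List.tail_cons, encList_cons, h',
            enc1_pos (by omega)]
          have e1 : (2 * c + 0 % 2) % 2 = 0 := by omega
          have e2 : (2 * c + 0 % 2) / 2 = c := by omega
          rw [e1, e2, ih']
          omega

/-! ### Instances -/

/-- the list of numbers of an instance -/
def flat (P : SLP) : List ℕ := P.flatMap (fun c => [c.1.code, c.2.1, c.2.2])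

theorem flat_length (P : SLP) : (flat P).length = 3 * P.length := by
  induction P with
  | nil => simp [flat]
  | cons c P ih =>
    simp only [flat, List.flatMap_cons, List.length_append, List.length_cons,
      List.length_nil] at ih ⊢
    omega

theorem flat_cons (c : Op × ℕ × ℕ) (P : SLP) :
    flat (c :: P) = c.1.code :: c.2.1 :: c.2.2 :: flat P := by
  simp [flat]

theorem flat_getD (P : SLP) : ∀ (k : ℕ) (c : Op × ℕ × ℕ), P[k]? = some c →
    (flat P).getD (3 * k) 0 = c.1.code ∧ (flat P).getD (3 * k + 1) 0 = c.2.1 ∧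
      (flat P).getD (3 * k + 2) 0 = c.2.2 := by
  induction P with
  | nil => intro k c h; simp at h
  | cons d P ih =>
    intro k c h
    cases k with
    | zero =>
      simp only [List.getElem?_cons_zero, Option.some.injEq] at h
      subst h
      rw [flat_cons]
      simp
    | succ k =>
      simp only [List.getElem?_cons_succ] at h
      have := ih k c h
      rw [flat_cons]
      have e1 : 3 * (k + 1) = 3 * k + 1 + 1 + 1 := by ring
      have e2 : 3 * (k + 1) + 1 = 3 * k + 1 + 1 + 1 + 1 := by ring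
      have e3 : 3 * (k + 1) + 2 = 3 * k + 2 + 1 + 1 + 1 := by ring
      rw [e2, e3, e1]
      simpa using this

/-- the operation with a given code -/
def opOf (n : ℕ) : Op := if n = 0 then Op.add else if n = 1 then Op.sub else Op.mul

theorem opOf_code {n : ℕ} (h : n ≤ 2) : (opOf n).code = n := by
  unfold opOf
  split_ifs with h1 h2
  · simp [Op.code, h1]
  · simp [Op.code, h2]
  · simp [Op.code]; omega

theorem code_le (o : Op) : o.code ≤ 2 := by
  cases o <;> simp [Op.code]

theorem exists_flat : ∀ (m : ℕ) (l : List ℕ), l.length = 3 * m →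
    (∀ k < m, l.getD (3 * k) 0 ≤ 2) → ∃ P : SLP, P.length = m ∧ l = flat P := by
  intro m
  induction m with
  | zero =>
    intro l h _
    refine ⟨[], rfl, ?_⟩
    have : l = [] := List.length_eq_zero_iff.1 (by simpa using h)
    rw [this]; simp [flat]
  | succ m ih =>
    intro l h h2
    match l, h, h2 with
    | [], h, _ => simp at h
    | [_], h, _ => simp at h; omega
    | [_, _], h, _ => simp at h; omega
    | a :: b :: c :: l, h, h2 =>
      have hl : l.length = 3 * m := by
        simp only [List.length_cons] at h; omega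
      obtain ⟨P, hP, hl'⟩ := ih l hl (by
        intro k hk
        have := h2 (k + 1) (by omega)
        have e1 : 3 * (k + 1) = 3 * k + 1 + 1 + 1 := by ring
        rw [e1] at this
        simpa using this)
      refine ⟨(opOf a, b, c) :: P, by simp [hP], ?_⟩
      rw [flat_cons, ← hl', opOf_code]
      have := h2 0 (by omega)
      simpa using this

theorem dec_code (P : SLP) (i b : ℕ) : dec (code P i b) = i :: b :: flat P := by
  unfold code
  rw [dec_encList]
  rfl

/-- the condition on the decoded list -/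
def WL (s : ℕ) (l : List ℕ) : Prop :=
  2 ≤ l.length ∧ (l.length - 2) % 3 = 0 ∧ l.getD 1 0 ≤ 1 ∧
  ∀ k < s, l.getD (3 * k + 2) 0 ≤ 2 ∧ l.getD (3 * k + 3) 0 ≤ k ∧ l.getD (3 * k + 4) 0 ≤ k

theorem getD_flat_of_le (P : SLP) {k j : ℕ} (hk : P.length ≤ k) :
    (flat P).getD (3 * k + j) 0 = 0 := by
  rw [List.getD_eq_default]
  rw [flat_length]
  omega

theorem W_iff (x : ℕ) : (Can x ∧ WL (Nat.size x) (dec x)) ↔
    ∃ (P : SLP) (i b : ℕ), Valid P ∧ b ≤ 1 ∧ x = code P i b := by
  constructor
  · rintro ⟨hc, h2, h3, hb, hk⟩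
    match hd : dec x, h2 with
    | [], h2 => simp at h2
    | [_], h2 => simp at h2
    | i :: b :: l, _ =>
      rw [hd] at h3 hb hk
      have hlen : (i :: b :: l).length ≤ Nat.size x := by
        rw [← hd]; exact dec_length_le_size x
      simp only [List.length_cons] at hlen h3
      have hl : l.length = 3 * (l.length / 3) := by omega
      obtain ⟨P, hP, hl'⟩ := exists_flat (l.length / 3) l hl (by
        intro k hk'
        have := (hk k (by omega)).1
        have e1 : 3 * k + 2 = 3 * k + 1 + 1 := by ring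
        rw [e1] at this
        simpa using this)
      refine ⟨P, i, b, ?_, by simpa using hb, ?_⟩
      · intro k c hkc
        have hkP : k < P.length := by
          by_contra hcon
          rw [List.getElem?_eq_none (by omega)] at hkc
          simp at hkc
        obtain ⟨h4, h5, h6⟩ := flat_getD P k c hkc
        have h7 := hk k (by omega)
        have e2 : 3 * k + 3 = 3 * k + 1 + 1 + 1 := by ring
        have e3 : 3 * k + 4 = 3 * k + 2 + 1 + 1 := by ring
        rw [e2, e3, hl'] at h7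
        simp only [List.getD_cons_succ] at h7
        rw [← h5, ← h6]
        exact ⟨h7.2.1, h7.2.2⟩
      · have : dec x = dec (code P i b) := by
          rw [dec_code, hd, hl']
        rw [← encList_dec hc, this]
        unfold code
        rw [dec_encList]
  · rintro ⟨P, i, b, hV, hb, rfl⟩
    refine ⟨can_encList _, ?_⟩
    rw [dec_code]
    refine ⟨by simp, ?_, by simpa using hb, ?_⟩
    · simp only [List.length_cons, flat_length]; omega
    · intro k _
      have e1 : 3 * k + 2 = 3 * k + 1 + 1 := by ring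
      have e2 : 3 * k + 3 = 3 * k + 1 + 1 + 1 := by ring
      have e3 : 3 * k + 4 = 3 * k + 2 + 1 + 1 := by ring
      rw [e2, e3, e1]
      simp only [List.getD_cons_succ]
      by_cases hk : k < P.length
      · have hc : P[k]? = some P[k] := List.getElem?_eq_getElem hk
        obtain ⟨h4, h5, h6⟩ := flat_getD P k _ hc
        have := hV k _ hc
        rw [h4, h5, h6]
        exact ⟨code_le _, this.1, this.2⟩
      · have h0 := getD_flat_of_le P (j := 0) (not_lt.1 hk)
        have h1 := getD_flat_of_le P (j := 1) (not_lt.1 hk)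
        have h2 := getD_flat_of_le P (j := 2) (not_lt.1 hk)
        rw [Nat.add_zero] at h0
        rw [h0, h1, h2]
        simp

/-! ### Arrays as numbers -/

theorem ofDigits_lt {B : ℕ} (l : List ℕ) (h : ∀ a ∈ l, a < B) :
    Nat.ofDigits B l < B ^ l.length := by
  induction l with
  | nil => simp
  | cons a l ih =>
    have h1 := ih (fun b hb => h b (by simp [hb]))
    have h2 := h a (by simp)
    rw [Nat.ofDigits_cons, List.length_cons, pow_succ]
    have h3 : B * (Nat.ofDigits B l + 1) ≤ B * B ^ l.length := Nat.mul_le_mul_left _ h1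
    have h4 : B * (Nat.ofDigits B l + 1) = B * Nat.ofDigits B l + B := by ring
    have h5 : B * B ^ l.length = B ^ l.length * B := Nat.mul_comm _ _
    omega

theorem ofDigits_get {B : ℕ} (l : List ℕ) (h : ∀ a ∈ l, a < B) (e : ℕ) :
    Nat.ofDigits B l / B ^ e % B = l.getD e 0 := by
  induction l generalizing e with
  | nil => simp
  | cons a l ih =>
    have h2 := h a (by simp)
    have hB : 0 < B := by omega
    rw [Nat.ofDigits_cons]
    cases e with
    | zero => simp [Nat.mod_eq_of_lt h2]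
    | succ e =>
      have h1 := ih (fun b hb => h b (by simp [hb])) e
      rw [pow_succ', ← Nat.div_div_eq_div_mul, Nat.add_mul_div_left _ _ hB,
        Nat.div_eq_of_lt h2, Nat.zero_add, List.getD_cons_succ]
      exact h1

theorem ofDigits_push {B d : ℕ} {l : List ℕ} (hl : ∀ a ∈ l, a < B) :
    Nat.ofDigits B (push d l) =
      if d = 2 then B * Nat.ofDigits B l
      else Nat.ofDigits B l + Nat.ofDigits B l % B + d % 2 := by
  unfold push
  split_ifs with hd
  · rw [Nat.ofDigits_cons]; simp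
  · cases l with
    | nil => simp
    | cons c r =>
      have hc := hl c (by simp)
      rw [Nat.ofDigits_cons, Nat.ofDigits_cons]
      simp only [List.headD_cons, List.tail_cons]
      rw [Nat.add_mul_mod_self_left, Nat.mod_eq_of_lt hc]
      ring

end CodeM
end MP21c4c4
end
end

section
/-!
# MP_21c4c4_lc, module CODE, part 2: decoding and evaluation in polynomial time
-/
open scoped Classical
open Finset

noncomputable section

namespace MP21c4c4
namespace CodeM

variable {A : Set ℕ} {k : ℕ}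

theorem size_div_pow_zero (x : ℕ) : x / 4 ^ Nat.size x = 0 := by
  apply Nat.div_eq_of_lt
  calc x < 2 ^ Nat.size x := Nat.lt_size_self x
    _ ≤ 4 ^ Nat.size x := Nat.pow_le_pow_left (by norm_num) _

theorem div_pow_step (x s i : ℕ) (h : i < s) :
    x / 4 ^ (s - (i + 1)) / 4 = x / 4 ^ (s - i) := by
  rw [Nat.div_div_eq_div_mul, ← pow_succ]
  congr 2
  omega

/-! ### The array of the numbers -/

/-- the step of the scan -/
def stA (x i r : ℕ) : ℕ :=
  if x / 4 ^ (Nat.size x - (i + 1)) = 0 then 0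
  else if x / 4 ^ (Nat.size x - (i + 1)) % 4 = 2 then 2 ^ Nat.size x * r
  else r + r % 2 ^ Nat.size x + x / 4 ^ (Nat.size x - (i + 1)) % 2

theorem itr_stA (x i : ℕ) (hi : i ≤ Nat.size x) :
    itr 0 (stA x) i = Nat.ofDigits (2 ^ Nat.size x) (dec (x / 4 ^ (Nat.size x - i))) := by
  induction i with
  | zero =>
    rw [Nat.sub_zero, size_div_pow_zero, dec_zero]
    simp
  | succ i ih =>
    rw [itr_succ, ih (by omega)]
    unfold stA
    have hz := div_pow_step x (Nat.size x) i (by omega)
    set z := x / 4 ^ (Nat.size x - (i + 1)) with hzdef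
    split_ifs with h0 h2
    · rw [h0, dec_zero]; simp
    · rw [dec_pos h0, hz, ofDigits_push, if_pos h2]
      intro a ha
      refine (dec_lt_size _ a ha).trans_le (Nat.pow_le_pow_right (by norm_num) ?_)
      exact Nat.size_le_size (Nat.div_le_self _ _)
    · rw [dec_pos h0, hz, ofDigits_push, if_neg h2]
      · congr 1
        omega
      · intro a ha
        refine (dec_lt_size _ a ha).trans_le (Nat.pow_le_pow_right (by norm_num) ?_)
        exact Nat.size_le_size (Nat.div_le_self _ _)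

theorem PE.four {f : Fn k} (hf : FP A k f) {e : Fn k} (he : PE A k e) (h : ∀ v, f v ≤ e v) :
    FP A k (fun v => 4 ^ f v) := by
  have h1 : PE A k f := PE.of_le hf he h
  exact (h1.pow.mul' h1.pow).congr fun v => by
    rw [← Nat.mul_pow]

theorem fp_zz : FP A 3 (fun w => w 2 / 4 ^ (Nat.size (w 2) - (w 0 + 1))) := by
  refine (FP.proj 2).div' (PE.four (e := fun w => Nat.size (w 2)) ?_ (PE.size (FP.proj 2)) ?_)
  · exact (FP.proj 2).size'.sub' ((FP.proj 0).add' (FP.const 1))
  · intro v; exact Nat.sub_le _ _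

/-- the array of the decoded list -/
def AR (x : ℕ) : ℕ := Nat.ofDigits (2 ^ Nat.size x) (dec x)

theorem fp_AR : FP A 1 (fun v => AR (v 0)) := by
  have hst : FP A 3 (fun w => stA (w 2) (w 0) (w 1)) := by
    unfold stA
    have hz : FP A 3 (fun w => w 2 / 4 ^ (Nat.size (w 2) - (w 0 + 1))) := fp_zz
    have hs : FP A 3 (fun w => 2 ^ Nat.size (w 2)) := PE.size (FP.proj 2)
    refine FP.ite (PolyRel.eq hz (FP.const 0)) (FP.const 0) ?_
    refine FP.ite (PolyRel.eq (hz.mod' (FP.const 4)) (FP.const 2)) (hs.mul' (FP.proj 1)) ?_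
    exact ((FP.proj 1).add' ((FP.proj 1).mod' hs)).add' (hz.mod' (FP.const 2))
  have key := FP.iter (A := A) (k := 1) (init := fun _ => 0)
    (step := fun w => stA (w 2) (w 0) (w 1)) (n := fun v => Nat.size (v 0)) (z := fun v => v 0)
    (bd := fun v => 2 ^ (Nat.size (v 0) * Nat.size (v 0))) (FP.const 0) hst (FP.proj 0).size'
    (FP.proj 0) ((FP.proj 0).smash' (FP.proj 0)) (fun v => le_rfl) ?_
  · refine key.congr fun v => ?_
    show itr 0 (stA (v 0)) (Nat.size (v 0)) = _
    rw [itr_stA _ _ le_rfl, Nat.sub_self, pow_zero, Nat.div_one]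
    rfl
  · intro v i hi
    show itr 0 (stA (v 0)) i ≤ _
    rw [itr_stA _ _ hi]
    have h2 := ofDigits_lt (B := 2 ^ Nat.size (v 0)) (dec (v 0 / 4 ^ (Nat.size (v 0) - i))) (by
      intro a ha
      refine (dec_lt_size _ a ha).trans_le (Nat.pow_le_pow_right (by norm_num) ?_)
      exact Nat.size_le_size (Nat.div_le_self _ _))
    refine h2.le.trans ?_
    rw [← pow_mul]
    refine Nat.pow_le_pow_right (by norm_num) (Nat.mul_le_mul_left _ ?_)
    exact (dec_length_le_size _).trans (Nat.size_le_size (Nat.div_le_self _ _))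

/-- access to the decoded list -/
theorem fp_getD : FP A 2 (fun v => (dec (v 0)).getD (v 1) 0) := by
  have hs : PE A 2 (fun v => Nat.size (v 0)) := PE.size (FP.proj 0)
  have hm : PE A 2 (fun v => min (v 1) (Nat.size (v 0))) :=
    PE.of_le ((FP.proj 1).min' hs.fp) hs fun v => min_le_right _ _
  have h1 : FP A 2 (fun v => AR (v 0) / 2 ^ (Nat.size (v 0) * min (v 1) (Nat.size (v 0))) %
      2 ^ Nat.size (v 0)) :=
    ((FP.comp1 fp_AR (FP.proj 0)).div' (hs.mul hm).pow).mod' hs.pow
  refine h1.congr fun v => ?_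
  rw [pow_mul]
  unfold AR
  rw [ofDigits_get _ (dec_lt_size _)]
  rcases le_total (v 1) (Nat.size (v 0)) with h | h
  · rw [min_eq_left h]
  · rw [min_eq_right h, List.getD_eq_default, List.getD_eq_default]
    · exact (dec_length_le_size _).trans h
    · exact dec_length_le_size _

theorem fp_getD' {f g : Fn k} (hf : FP A k f) (hg : FP A k g) :
    FP A k (fun v => (dec (f v)).getD (g v) 0) :=
  FP.comp2 (F := fun a b => (dec a).getD b 0) fp_getD hf hg

/-! ### The length of the decoded list -/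

/-- the step of the scan -/
def stM (x i r : ℕ) : ℕ :=
  if x / 4 ^ (Nat.size x - (i + 1)) = 0 then 0
  else if x / 4 ^ (Nat.size x - (i + 1)) % 4 = 2 then r + 1
  else max r 1

theorem push_length (d : ℕ) (l : List ℕ) :
    (push d l).length = if d = 2 then l.length + 1 else max l.length 1 := by
  unfold push
  split_ifs with h
  · simp
  · cases l with
    | nil => simp
    | cons a l => simp

theorem itr_stM (x i : ℕ) (hi : i ≤ Nat.size x) :
    itr 0 (stM x) i = (dec (x / 4 ^ (Nat.size x - i))).length := by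
  induction i with
  | zero =>
    rw [Nat.sub_zero, size_div_pow_zero, dec_zero]
    simp
  | succ i ih =>
    rw [itr_succ, ih (by omega)]
    unfold stM
    have hz := div_pow_step x (Nat.size x) i (by omega)
    set z := x / 4 ^ (Nat.size x - (i + 1)) with hzdef
    split_ifs with h0 h2
    · rw [h0, dec_zero]; simp
    · rw [dec_pos h0, hz, push_length, if_pos h2]
    · rw [dec_pos h0, hz, push_length, if_neg h2]

theorem fp_length : FP A 1 (fun v => (dec (v 0)).length) := by
  have hst : FP A 3 (fun w => stM (w 2) (w 0) (w 1)) := by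
    unfold stM
    have hz : FP A 3 (fun w => w 2 / 4 ^ (Nat.size (w 2) - (w 0 + 1))) := fp_zz
    refine FP.ite (PolyRel.eq hz (FP.const 0)) (FP.const 0) ?_
    refine FP.ite (PolyRel.eq (hz.mod' (FP.const 4)) (FP.const 2))
      ((FP.proj 1).add' (FP.const 1)) ?_
    exact (FP.proj 1).max' (FP.const 1)
  have key := FP.iter (A := A) (k := 1) (init := fun _ => 0)
    (step := fun w => stM (w 2) (w 0) (w 1)) (n := fun v => Nat.size (v 0)) (z := fun v => v 0)
    (bd := fun v => Nat.size (v 0)) (FP.const 0) hst (FP.proj 0).size'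
    (FP.proj 0) (FP.proj 0).size' (fun v => le_rfl) ?_
  · refine key.congr fun v => ?_
    show itr 0 (stM (v 0)) (Nat.size (v 0)) = _
    rw [itr_stM _ _ le_rfl, Nat.sub_self, pow_zero, Nat.div_one]
  · intro v i hi
    show itr 0 (stM (v 0)) i ≤ _
    rw [itr_stM _ _ hi]
    exact (dec_length_le_size _).trans (Nat.size_le_size (Nat.div_le_self _ _))

/-! ### The test `W` -/

theorem pr_loc {f : Fn k} (hf : FP A k f) : PolyRel A k (fun v => Loc (f v)) := by
  unfold Loc
  have h4 : FP A k (fun v => f v % 4) := hf.mod' (FP.const 4)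
  have hd : FP A k (fun v => f v / 4) := hf.div' (FP.const 4)
  have hd4 : FP A k (fun v => f v / 4 % 4) := hd.mod' (FP.const 4)
  refine PolyRel.or (PolyRel.eq hf (FP.const 0)) (PolyRel.or (PolyRel.eq h4 (FP.const 2))
    (PolyRel.or ?_ ?_))
  · exact (PolyRel.eq h4 (FP.const 1)).and (PolyRel.eq hd (FP.const 0)).not
  · exact (PolyRel.eq h4 (FP.const 0)).and ((PolyRel.eq hd (FP.const 0)).not.and
      (PolyRel.eq hd4 (FP.const 2)).not)

theorem can_iff (x : ℕ) : Can x ↔ ∀ t < Nat.size x, Loc (x / 4 ^ min t (Nat.size x)) := by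
  constructor
  · intro h t _
    exact h _
  · intro h t
    rcases lt_or_ge t (Nat.size x) with ht | ht
    · have := h t ht
      rwa [min_eq_left ht.le] at this
    · left
      apply Nat.div_eq_of_lt
      calc x < 2 ^ Nat.size x := Nat.lt_size_self x
        _ ≤ 4 ^ Nat.size x := Nat.pow_le_pow_left (by norm_num) _
        _ ≤ 4 ^ t := Nat.pow_le_pow_right (by norm_num) ht

theorem pr_can : PolyRel A 1 (fun v => Can (v 0)) := by
  have hR : PolyRel A 2 (fun w => Loc (w 1 / 4 ^ min (w 0) (Nat.size (w 1)))) := by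
    refine pr_loc ((FP.proj 1).div' (PE.four (e := fun w => Nat.size (w 1)) ?_
      (PE.size (FP.proj 1)) fun v => min_le_right _ _))
    exact (FP.proj 0).min' (FP.proj 1).size'
  have := PolyRel.ball (n := fun v => Nat.size (v 0)) (e := fun v => Nat.size (v 0)) hR
    (FP.proj 0).size' (PE.size (FP.proj 0)) (fun v => le_rfl)
  refine this.congr fun v => ?_
  rw [can_iff]
  rfl

/-- the well-formedness test -/
def W (x : ℕ) : Prop := Can x ∧ WL (Nat.size x) (dec x)

theorem pr_W : PolyRel A 1 (fun v => W (v 0)) := by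
  have hlen : FP A 1 (fun v => (dec (v 0)).length) := fp_length
  refine pr_can.and (PolyRel.and (PolyRel.le (FP.const 2) hlen) (PolyRel.and
    (PolyRel.eq ((hlen.sub' (FP.const 2)).mod' (FP.const 3)) (FP.const 0)) (PolyRel.and
      (PolyRel.le (fp_getD' (FP.proj 0) (FP.const 1)) (FP.const 1)) ?_)))
  have h3 : FP A 2 (fun w => 3 * w 0) := (FP.const 3).mul' (FP.proj 0)
  have hR : PolyRel A 2 (fun w => (dec (w 1)).getD (3 * w 0 + 2) 0 ≤ 2 ∧
      (dec (w 1)).getD (3 * w 0 + 3) 0 ≤ w 0 ∧ (dec (w 1)).getD (3 * w 0 + 4) 0 ≤ w 0) := by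
    refine PolyRel.and (PolyRel.le (fp_getD' (FP.proj 1) (h3.add' (FP.const 2))) (FP.const 2))
      (PolyRel.and (PolyRel.le (fp_getD' (FP.proj 1) (h3.add' (FP.const 3))) (FP.proj 0))
      (PolyRel.le (fp_getD' (FP.proj 1) (h3.add' (FP.const 4))) (FP.proj 0)))
  exact PolyRel.ball (n := fun v => Nat.size (v 0)) (e := fun v => Nat.size (v 0)) hR
    (FP.proj 0).size' (PE.size (FP.proj 0)) (fun v => le_rfl)

/-! ### Arithmetic modulo `q` -/

/-- residue -/
def mq (q : ℕ) (z : ℤ) : ℕ := (z % q).toNat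

theorem mq_lt {q : ℕ} (hq : 1 ≤ q) (z : ℤ) : mq q z < q := by
  unfold mq
  have h1 : z % (q : ℤ) < q := Int.emod_lt_of_pos _ (by exact_mod_cast hq)
  have h2 : 0 ≤ z % (q : ℤ) := Int.emod_nonneg _ (by exact_mod_cast (by omega : q ≠ 0))
  omega

theorem mq_cast {q : ℕ} (hq : 1 ≤ q) (z : ℤ) : ((mq q z : ℕ) : ZMod q) = (z : ZMod q) := by
  unfold mq
  have h2 : 0 ≤ z % (q : ℤ) := Int.emod_nonneg _ (by exact_mod_cast (by omega : q ≠ 0))
  have h3 : (((z % (q : ℤ)).toNat : ℕ) : ZMod q) = (((z % (q : ℤ)).toNat : ℤ) : ZMod q) := by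
    push_cast; rfl
  rw [h3, Int.toNat_of_nonneg h2, ZMod.intCast_mod]

theorem eq_of_cast {a b q : ℕ} (ha : a < q) (hb : b < q) (h : (a : ZMod q) = (b : ZMod q)) :
    a = b := by
  rw [ZMod.natCast_eq_natCast_iff', Nat.mod_eq_of_lt ha, Nat.mod_eq_of_lt hb] at h
  exact h

/-- an operation modulo `q` -/
def opN (q o u v : ℕ) : ℕ :=
  (if o = 0 then u + v else if o = 1 then u + (q - v) else u * v) % q

theorem opN_lt {q : ℕ} (hq : 1 ≤ q) (o u v : ℕ) : opN q o u v < q := Nat.mod_lt _ hq

theorem opN_eq {q : ℕ} (hq : 1 ≤ q) (o : Op) (a b : ℤ) :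
    opN q o.code (mq q a) (mq q b) = mq q (o.ev a b) := by
  apply eq_of_cast (opN_lt hq _ _ _) (mq_lt hq _)
  rw [mq_cast hq]
  unfold opN
  rw [ZMod.natCast_mod]
  cases o with
  | add => simp [Op.code, Op.ev, mq_cast hq]
  | sub =>
    simp only [Op.code, Op.ev, one_ne_zero, if_false, if_true]
    rw [Nat.cast_add, Nat.cast_sub (mq_lt hq b).le, mq_cast hq, mq_cast hq]
    push_cast
    simp [sub_eq_add_neg]
  | mul => simp [Op.code, Op.ev, mq_cast hq]

/-! ### Running the program -/

theorem vals_take_succ (P : SLP) (k : ℕ) (c : Op × ℕ × ℕ) (h : P[k]? = some c) :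
    vals (P.take (k + 1)) = vals (P.take k) ++
      [c.1.ev ((vals (P.take k)).getD c.2.1 0) ((vals (P.take k)).getD c.2.2 0)] := by
  unfold vals
  rw [List.take_add_one, h, Option.toList_some, List.foldl_append]
  rfl

theorem vals_length (P : SLP) : (vals P).length = P.length + 1 := by
  unfold vals
  have : ∀ (l : List ℤ), (P.foldl (fun l c =>
      l ++ [c.1.ev (l.getD c.2.1 0) (l.getD c.2.2 0)]) l).length = P.length + l.length := by
    induction P with
    | nil => intro l; simp
    | cons c P ih =>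
      intro l
      rw [List.foldl_cons, ih]
      simp
      omega
  rw [this]
  rfl

/-- one step of the run; `r` is the array of the values so far -/
def stR (x q i r : ℕ) : ℕ :=
  r + 2 ^ (Nat.size q * min (i + 1) (Nat.size x + 1)) *
    opN q ((dec x).getD (3 * i + 2) 0)
      (r / 2 ^ (Nat.size q * min ((dec x).getD (3 * i + 3) 0) (Nat.size x)) % 2 ^ Nat.size q)
      (r / 2 ^ (Nat.size q * min ((dec x).getD (3 * i + 4) 0) (Nat.size x)) % 2 ^ Nat.size q)

/-- number of steps -/
def mm (x : ℕ) : ℕ := ((dec x).length - 2) / 3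

theorem mm_le (x : ℕ) : mm x ≤ Nat.size x := by
  have := dec_length_le_size x
  unfold mm
  omega

theorem stR_lt {q : ℕ} (hq : 1 ≤ q) (x i r : ℕ) (hi : i + 1 ≤ Nat.size x)
    (hr : r < 2 ^ (Nat.size q * (i + 1))) : stR x q i r < 2 ^ (Nat.size q * (i + 1 + 1)) := by
  have hlt : q < 2 ^ Nat.size q := Nat.lt_size_self q
  unfold stR
  have h2 := opN_lt hq ((dec x).getD (3 * i + 2) 0)
    (r / 2 ^ (Nat.size q * min ((dec x).getD (3 * i + 3) 0) (Nat.size x)) % 2 ^ Nat.size q)
    (r / 2 ^ (Nat.size q * min ((dec x).getD (3 * i + 4) 0) (Nat.size x)) % 2 ^ Nat.size q)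
  generalize opN q ((dec x).getD (3 * i + 2) 0)
    (r / 2 ^ (Nat.size q * min ((dec x).getD (3 * i + 3) 0) (Nat.size x)) % 2 ^ Nat.size q)
    (r / 2 ^ (Nat.size q * min ((dec x).getD (3 * i + 4) 0) (Nat.size x)) % 2 ^ Nat.size q) = o
    at h2 ⊢
  have h3 : min (i + 1) (Nat.size x + 1) = i + 1 := by omega
  rw [h3]
  have h4 : 2 ^ (Nat.size q * (i + 1 + 1)) = 2 ^ (Nat.size q * (i + 1)) * 2 ^ Nat.size q := by
    rw [← pow_add]; ring_nf
  rw [h4]
  have h5 : 2 ^ (Nat.size q * (i + 1)) * (o + 1) ≤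
      2 ^ (Nat.size q * (i + 1)) * 2 ^ Nat.size q := Nat.mul_le_mul_left _ (by omega)
  have h6 : 2 ^ (Nat.size q * (i + 1)) * (o + 1) =
      2 ^ (Nat.size q * (i + 1)) * o + 2 ^ (Nat.size q * (i + 1)) := by ring
  omega

theorem itr_stR_lt {q : ℕ} (hq : 1 ≤ q) (x i : ℕ) (hi : i ≤ Nat.size x) :
    itr (1 % q) (stR x q) i < 2 ^ (Nat.size q * (i + 1)) := by
  have hlt : q < 2 ^ Nat.size q := Nat.lt_size_self q
  induction i with
  | zero =>
    rw [itr_zero, Nat.zero_add, Nat.mul_one]
    exact (Nat.mod_lt _ hq).trans hlt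
  | succ i ih =>
    rw [itr_succ]
    exact stR_lt hq x i _ (by omega) (ih (by omega))

/-- the residue of the value -/
def valq (x q : ℕ) : ℕ :=
  itr (1 % max q 1) (stR x (max q 1)) (mm x) / 2 ^ (Nat.size (max q 1) * mm x) %
    2 ^ Nat.size (max q 1)

theorem fp_opN {o u v q : Fn k} (hq : FP A k q) (ho : FP A k o) (hu : FP A k u)
    (hv : FP A k v) : FP A k (fun w => opN (q w) (o w) (u w) (v w)) := by
  unfold opN
  refine FP.mod' (FP.ite (PolyRel.eq ho (FP.const 0)) (hu.add' hv) ?_) hq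
  exact FP.ite (PolyRel.eq ho (FP.const 1)) (hu.add' (hq.sub' hv)) (hu.mul' hv)

theorem fp_valq : FP A 2 (fun v => valq (v 0) (v 1)) := by
  have hq4 : FP A 4 (fun w => max (w 3) 1) := (FP.proj 3).max' (FP.const 1)
  have hqs : PE A 4 (fun w => Nat.size (max (w 3) 1)) := PE.size hq4
  have hs : PE A 4 (fun w => Nat.size (w 2)) := PE.size (FP.proj 2)
  have h3 : FP A 4 (fun w => 3 * w 0) := (FP.const 3).mul' (FP.proj 0)
  have hg : ∀ c, FP A 4 (fun w => (dec (w 2)).getD (3 * w 0 + c) 0) := fun c =>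
    fp_getD' (FP.proj 2) (h3.add' (FP.const c))
  have hm : ∀ c, PE A 4 (fun w => min ((dec (w 2)).getD (3 * w 0 + c) 0) (Nat.size (w 2))) :=
    fun c => PE.of_le ((hg c).min' hs.fp) hs fun v => min_le_right _ _
  have hk : PE A 4 (fun w => min (w 0 + 1) (Nat.size (w 2) + 1)) :=
    PE.of_le (((FP.proj 0).add' (FP.const 1)).min' (hs.fp.add' (FP.const 1)))
      (hs.add (PE.const 1)) fun v => min_le_right _ _
  have hst : FP A 4 (fun w => stR (w 2) (max (w 3) 1) (w 0) (w 1)) := by
    unfold stR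
    refine (FP.proj 1).add' (FP.mul' (hqs.mul hk).pow (fp_opN hq4 (hg 2) ?_ ?_))
    · exact ((FP.proj 1).div' (hqs.mul (hm 3)).pow).mod' hqs.pow
    · exact ((FP.proj 1).div' (hqs.mul (hm 4)).pow).mod' hqs.pow
  have hq : FP A 2 (fun v => max (v 1) 1) := (FP.proj 1).max' (FP.const 1)
  have hqp : PE A 2 (fun v => Nat.size (max (v 1) 1)) := PE.size hq
  have hmm : FP A 2 (fun v => mm (v 0)) :=
    ((FP.comp1 (F := fun a => (dec a).length) fp_length (FP.proj 0)).sub'
      (FP.const 2)).div' (FP.const 3)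
  have hmp : PE A 2 (fun v => mm (v 0)) :=
    PE.of_le hmm (PE.size (FP.proj 0)) fun v => mm_le _
  have key := FP.iter (A := A) (k := 2) (init := fun v => 1 % max (v 1) 1)
    (step := fun w => stR (w 2) (max (w 3) 1) (w 0) (w 1)) (n := fun v => mm (v 0))
    (z := fun v => v 0)
    (bd := fun v => 2 ^ (Nat.size (max (v 1) 1) * (Nat.size (v 0) + 1)))
    ((FP.const 1).mod' hq) hst hmm (FP.proj 0)
    (hqp.mul ((PE.size (FP.proj 0)).add (PE.const 1))).pow (fun v => mm_le _) ?_
  · exact (FP.div' key (hqp.mul hmp).pow).mod' hqp.pow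
  · intro v i hi
    have h1 : i ≤ Nat.size (v 0) := hi.trans (mm_le _)
    refine (itr_stR_lt (le_max_right _ _) (v 0) i h1).le.trans ?_
    exact Nat.pow_le_pow_right (by norm_num) (Nat.mul_le_mul_left _ (by omega))

/-! ### Correctness of the run -/

theorem getD_map_mq (q : ℕ) (l : List ℤ) (e : ℕ) :
    (l.map (mq q)).getD e 0 = if e < l.length then mq q (l.getD e 0) else 0 := by
  split_ifs with h
  · rw [List.getD_eq_getElem _ _ (by simpa using h), List.getD_eq_getElem _ _ h,
      List.getElem_map]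
  · rw [List.getD_eq_default]
    simpa using h

theorem itr_stR_eq {q : ℕ} (hq : 1 ≤ q) (P : SLP) (i b : ℕ) (hV : Valid P)
    (j : ℕ) (hj : j ≤ P.length) :
    itr (1 % q) (stR (code P i b) q) j =
      Nat.ofDigits (2 ^ Nat.size q) ((vals (P.take j)).map (mq q)) := by
  have hlt : q < 2 ^ Nat.size q := Nat.lt_size_self q
  have hlen : (dec (code P i b)).length = 2 + 3 * P.length := by
    rw [dec_code]; simp only [List.length_cons, flat_length]; omega
  have hsz : 2 + 3 * P.length ≤ Nat.size (code P i b) := by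
    rw [← hlen]; exact dec_length_le_size _
  induction j with
  | zero =>
    rw [itr_zero, List.take_zero]
    simp only [vals, List.foldl_nil, List.map_cons, List.map_nil, Nat.ofDigits_singleton]
    apply eq_of_cast (Nat.mod_lt _ hq) (mq_lt hq _)
    rw [mq_cast hq, ZMod.natCast_mod]
    simp
  | succ j ih =>
    have hj' : j < P.length := by omega
    have hc : P[j]? = some P[j] := List.getElem?_eq_getElem hj'
    have hv := hV j _ hc
    obtain ⟨h4, h5, h6⟩ := flat_getD P j _ hc
    rw [itr_succ, ih (by omega), vals_take_succ P j _ hc, List.map_append, Nat.ofDigits_append]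
    have hl : (vals (P.take j)).length = j + 1 := by
      rw [vals_length, List.length_take, min_eq_left hj'.le]
    have e2 : (dec (code P i b)).getD (3 * j + 2) 0 = P[j].1.code := by
      rw [dec_code]
      have e1 : 3 * j + 2 = 3 * j + 1 + 1 := by ring
      rw [e1]
      simpa using h4
    have e3 : (dec (code P i b)).getD (3 * j + 3) 0 = P[j].2.1 := by
      rw [dec_code]
      have e1 : 3 * j + 3 = 3 * j + 1 + 1 + 1 := by ring
      rw [e1]
      simpa using h5
    have e4 : (dec (code P i b)).getD (3 * j + 4) 0 = P[j].2.2 := by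
      rw [dec_code]
      have e1 : 3 * j + 4 = 3 * j + 2 + 1 + 1 := by ring
      rw [e1]
      simpa using h6
    have hall : ∀ a ∈ (vals (P.take j)).map (mq q), a < 2 ^ Nat.size q := by
      intro a ha
      obtain ⟨z, _, rfl⟩ := List.mem_map.1 ha
      exact (mq_lt hq z).trans hlt
    unfold stR
    rw [e2, e3, e4]
    have m1 : min (j + 1) (Nat.size (code P i b) + 1) = j + 1 := by omega
    have m2 : min P[j].2.1 (Nat.size (code P i b)) = P[j].2.1 := by omega
    have m3 : min P[j].2.2 (Nat.size (code P i b)) = P[j].2.2 := by omega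
    rw [m1, m2, m3, pow_mul, pow_mul, pow_mul, ofDigits_get _ hall, ofDigits_get _ hall,
      getD_map_mq, getD_map_mq, if_pos (by omega), if_pos (by omega), opN_eq hq]
    simp [hl]

theorem valq_eq {q : ℕ} (hq : 1 ≤ q) (P : SLP) (i b : ℕ) (hV : Valid P) :
    valq (code P i b) q = mq q (value P) := by
  have hlt : q < 2 ^ Nat.size q := Nat.lt_size_self q
  have hlen : (dec (code P i b)).length = 2 + 3 * P.length := by
    rw [dec_code]; simp only [List.length_cons, flat_length]; omega
  have hmm : mm (code P i b) = P.length := by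
    unfold mm; rw [hlen]; omega
  unfold valq
  rw [max_eq_left hq, hmm, itr_stR_eq hq P i b hV _ le_rfl, List.take_length, pow_mul,
    ofDigits_get, getD_map_mq, if_pos (by rw [vals_length]; omega)]
  · congr 1
    unfold value
    have hl := vals_length P
    have hne : vals P ≠ [] := by
      intro h; rw [h] at hl; simp at hl
    rw [List.getD_eq_getElem _ _ (by omega), List.getLastD_eq_getLast?,
      List.getLast?_eq_getLast_of_ne_nil hne, Option.getD_some, List.getLast_eq_getElem]
    congr 1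
    omega
  · intro a ha
    obtain ⟨z, _, rfl⟩ := List.mem_map.1 ha
    exact (mq_lt hq z).trans hlt

end CodeM

open CodeM in
/-- module CODE -/
theorem specCode (hVal : SpecValue) : SpecCode := by
  refine ⟨fun v => ((if v 1 = 0 then valq (v 0) (v 2) else max (v 2) 1 - valq (v 0) (v 2)) +
      pmod 2 (2 ^ Nat.size (v 0)) (max (v 2) 1)) % max (v 2) 1,
    fun v => (dec (v 0)).getD 0 0, fun v => (dec (v 0)).getD 1 0, fun v => W (v 0), ?_, ?_, ?_,
    pr_W, ?_, ?_⟩
  · have hq : FP ∅ 3 (fun v => max (v 2) 1) := (FP.proj 2).max' (FP.const 1)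
    have hv : FP ∅ 3 (fun v => valq (v 0) (v 2)) :=
      FP.comp2 (F := valq) fp_valq (FP.proj 0) (FP.proj 2)
    refine FP.mod' (FP.add' (FP.ite (PolyRel.eq (FP.proj 1) (FP.const 0)) hv (hq.sub' hv)) ?_) hq
    exact FP.pmod' (FP.const 2) (PE.size (FP.proj 0)).pow hq
  · exact fp_getD' (FP.proj 0) (FP.const 0)
  · exact fp_getD' (FP.proj 0) (FP.const 1)
  · intro x
    exact W_iff x
  · intro P i b hV hb
    refine ⟨?_, ?_, ?_⟩
    · show (dec (code P i b)).getD 0 0 = i
      rw [dec_code]; rfl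
    · show (dec (code P i b)).getD 1 0 = b
      rw [dec_code]; rfl
    · intro σ q hq
      show ((if σ = 0 then valq (code P i b) q else max q 1 - valq (code P i b) q) +
        pmod 2 (2 ^ Nat.size (code P i b)) (max q 1)) % max q 1 = _
      rw [max_eq_left hq, valq_eq hq P i b hV, pmod_eq (by omega)]
      obtain ⟨_, _, habs⟩ := hVal P i b hV hb
      set s := Nat.size (code P i b)
      rw [← ZMod.natCast_eq_natCast_iff']
      have hX : ((XX s P σ : ℕ) : ZMod q) =
          (((if σ = 0 then value P else - value P) + 2 ^ (2 ^ s) : ℤ) : ZMod q) := by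
        unfold XX
        rw [← Int.cast_natCast, Int.toNat_of_nonneg]
        rw [abs_lt] at habs
        split_ifs <;> linarith [habs.1, habs.2]
      rw [hX, Nat.cast_add, ZMod.natCast_mod]
      split_ifs with hσ
      · rw [mq_cast hq]; push_cast; rfl
      · rw [Nat.cast_sub (mq_lt hq _).le, mq_cast hq]; push_cast; simp
  
end MP21c4c4
end
end

section
/-!
# Module COUNT: exponential counting in polynomial time with a PP oracle
-/
set_option autoImplicit false

open scoped Classical
open Finset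

noncomputable section

namespace MP21c4c4

namespace COUNT

variable {k : ℕ}

/-! ### Encoding of tuples -/

/-- the code of the tuple `u` with entries `< 2 ^ m` -/
def enc (m : ℕ) {n : ℕ} (u : Fin n → ℕ) : ℕ := (2 ^ m) ^ n + pack (2 ^ m) u

/-- the exponent read off from the code -/
def dm (n x : ℕ) : ℕ := (Nat.size x - 1) / n

/-- the entries -/
def de (n : ℕ) (i : ℕ) (x : ℕ) : ℕ := x / (2 ^ dm n x) ^ i % 2 ^ dm n x

lemma dm_enc {m n : ℕ} (hn : 0 < n) (u : Fin n → ℕ) (hu : ∀ i, u i < 2 ^ m) :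
    dm n (enc m u) = m := by
  have h1 := pack_lt u hu
  have h2 : Nat.size (enc m u) = m * n + 1 := by
    apply le_antisymm
    · rw [Nat.size_le]
      unfold enc
      rw [← pow_mul] at h1 ⊢
      rw [pow_succ]
      omega
    · have h3 : m * n < Nat.size (enc m u) := by
        rw [Nat.lt_size]
        unfold enc
        rw [← pow_mul]
        omega
      omega
  unfold dm
  rw [h2, Nat.add_sub_cancel, Nat.mul_div_cancel _ hn]

lemma de_enc {m n : ℕ} (u : Fin n → ℕ) (hu : ∀ i, u i < 2 ^ m) (i : Fin n) :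
    de n i (enc m u) = u i := by
  have hn : 0 < n := lt_of_le_of_lt (Nat.zero_le _) i.2
  unfold de
  rw [dm_enc hn u hu]
  unfold enc
  have h1 := unpack u hu i
  have hM : 0 < (2 ^ m) ^ (i : ℕ) := by positivity
  obtain ⟨d, hd⟩ : ∃ d, n = i + (d + 1) := ⟨n - i - 1, by have := i.2; omega⟩
  have h2 : (2 ^ m) ^ n = (2 ^ m) ^ (i : ℕ) * (2 ^ m * (2 ^ m) ^ d) := by
    conv_lhs => rw [hd]
    rw [pow_add, pow_succ (2 ^ m) d, mul_comm ((2 ^ m) ^ d)]
  rw [h2, Nat.mul_add_div hM, Nat.mul_add_mod, h1]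

variable {A : Set ℕ}

lemma fp_dm (n : ℕ) {f : Fn k} (hf : FP A k f) : FP A k (fun v => dm n (f v)) :=
  ((hf.size').sub' (FP.const 1)).div' (FP.const n)

lemma pe_dm (n : ℕ) {f : Fn k} (hf : FP A k f) : PE A k (fun v => dm n (f v)) :=
  PE.of_le (fp_dm n hf) (PE.size hf) (fun v => by
    unfold dm
    exact le_trans (Nat.div_le_self _ _) (Nat.sub_le _ _))

lemma fp_de (n i : ℕ) {f : Fn k} (hf : FP A k f) : FP A k (fun v => de n i (f v)) :=
  (hf.div' ((pe_dm n hf).pow.powc i)).mod' (pe_dm n hf).pow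

lemma fp_enc {n : ℕ} {m : Fn k} {u : Fin n → Fn k} (hm : PE A k m) (hu : ∀ i, FP A k (u i)) :
    FP A k (fun v => enc (m v) (fun i => u i v)) := by
  unfold enc pack
  exact (hm.pow.powc n).add' (FP.finsum _ (fun i _ => (hu i).mul' (hm.pow.powc _)))

/-! ### The oracle -/

variable (G : (Fin (k + 1) → ℕ) → Prop) (b : (Fin k → ℕ) → ℕ)

/-- the counting function -/
def cnt (v : Fin k → ℕ) : ℕ := ((range (b v)).filter (fun z => G (Fin.cons z v))).card

/-- the tuple decoded from `x` -/
def dv (k x : ℕ) : Fin k → ℕ := fun i => de (k + 1) (i.succ : Fin (k + 1)) x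

/-- the oracle -/
def orc : Set ℕ := {x | de (k + 1) 0 x < cnt G b (dv k x)}

variable {G b}

lemma poly_mono (p : Polynomial ℕ) {a c : ℕ} (h : a ≤ c) : p.eval a ≤ p.eval c := by
  rw [Polynomial.eval_eq_sum_range, Polynomial.eval_eq_sum_range]
  apply Finset.sum_le_sum
  intro i _
  exact Nat.mul_le_mul_left _ (Nat.pow_le_pow_left h i)

lemma size_de_le (n i x : ℕ) : Nat.size (de n i x) ≤ dm n x := by
  rw [Nat.size_le]
  unfold de
  exact Nat.mod_lt _ (by positivity)

lemma len_dv_le (x : ℕ) : len (dv k x) ≤ Nat.size x := by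
  unfold len
  have h1 : ∑ i : Fin k, Nat.size (dv k x i) ≤ ∑ i : Fin k, dm (k + 1) x :=
    Finset.sum_le_sum fun i _ => size_de_le _ _ _
  refine le_trans h1 ?_
  rw [Finset.sum_const, Finset.card_univ, Fintype.card_fin, smul_eq_mul]
  unfold dm
  have h2 := Nat.div_mul_le_self (Nat.size x - 1) (k + 1)
  have h3 : k * ((Nat.size x - 1) / (k + 1)) ≤ (Nat.size x - 1) / (k + 1) * (k + 1) := by
    rw [mul_comm]
    exact Nat.mul_le_mul_left _ (Nat.le_succ k)
  omega

lemma cnt_le (v : Fin k → ℕ) : cnt G b v ≤ b v := by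
  unfold cnt
  refine le_trans (Finset.card_filter_le _ _) ?_
  simp

/-- the threshold -/
def TT (p : Polynomial ℕ) (x : ℕ) : ℕ := 2 ^ (p.eval (Nat.size x) + Nat.size x)

variable (G b) in
/-- the witness relation -/
def RR' (p : Polynomial ℕ) (u : Fin 2 → ℕ) : Prop :=
  (u 1 < b (dv k (u 0)) ∧ G (Fin.cons (u 1) (dv k (u 0)))) ∨
    (TT p (u 0) ≤ u 1 ∧ u 1 + de (k + 1) 0 (u 0) < 2 * TT p (u 0))

lemma poly_RR (hG : PolyRel ∅ (k + 1) G) (hb : FP ∅ k b) (p : Polynomial ℕ) :
    PolyRel ∅ 2 (RR' G b p) := by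
  have h0 : FP ∅ 2 (fun u => u 0) := FP.proj 0
  have h1 : FP ∅ 2 (fun u => u 1) := FP.proj 1
  have hT : FP ∅ 2 (fun u => TT p (u 0)) := by
    unfold TT
    exact ((PE.poly p (PE.size h0)).add (PE.size h0)).pow
  have hd : ∀ i : Fin k, FP ∅ 2 (fun u => dv k (u 0) i) := fun i => fp_de _ _ h0
  have hbv : FP ∅ 2 (fun u => b (dv k (u 0))) := FP.comp hb hd
  have hGv : PolyRel ∅ 2 (fun u => G (Fin.cons (u 1) (dv k (u 0)))) := by
    refine (PolyRel.comp hG (g := fun i u => (Fin.cons (u 1) (dv k (u 0)) :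
      Fin (k + 1) → ℕ) i) ?_)
    intro i
    refine Fin.cases ?_ (fun i => ?_) i
    · simpa using h1
    · simpa using hd i
  exact ((PolyRel.lt h1 hbv).and hGv).or ((PolyRel.le hT h1).and
    (PolyRel.lt (h1.add' (fp_de _ _ h0)) ((FP.const 2).mul' hT)))

lemma orc_mem_PP (hG : PolyRel ∅ (k + 1) G) (hb : FP ∅ k b) (p : Polynomial ℕ)
    (hbp : ∀ v, b v ≤ 2 ^ (p.eval (len v))) : orc G b ∈ PP := by
  refine ⟨RR' G b p, p + Polynomial.X + 1, poly_RR hG hb p, ?_⟩
  intro x
  have hP : (p + Polynomial.X + 1 : Polynomial ℕ).eval (Nat.size x) =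
      p.eval (Nat.size x) + Nat.size x + 1 := by simp
  rw [hP]
  set T := TT p x with hT
  have hT' : 2 ^ (p.eval (Nat.size x) + Nat.size x + 1) = 2 * T := by
    rw [pow_succ, mul_comm]; rfl
  rw [hT']
  have hbT : b (dv k x) ≤ T := by
    refine le_trans (hbp _) (Nat.pow_le_pow_right (by norm_num) ?_)
    exact le_trans (poly_mono p (len_dv_le x)) (Nat.le_add_right _ _)
  have hc : de (k + 1) 0 x ≤ T := by
    have h1 : de (k + 1) 0 x < 2 ^ Nat.size x := by
      unfold de
      refine lt_of_lt_of_le (Nat.mod_lt _ (by positivity)) ?_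
      apply Nat.pow_le_pow_right (by norm_num)
      unfold dm
      exact le_trans (Nat.div_le_self _ _) (Nat.sub_le _ _)
    refine le_trans h1.le (Nat.pow_le_pow_right (by norm_num) (Nat.le_add_left _ _))
  have hset : (range (2 * T)).filter (fun y => RR' G b p ![x, y]) =
      ((range (b (dv k x))).filter (fun z => G (Fin.cons z (dv k x)))) ∪
        (range (T - de (k + 1) 0 x)).image (fun y => T + y) := by
    ext y
    simp only [mem_filter, mem_range, mem_union, mem_image]
    have e0 : (![x, y] : Fin 2 → ℕ) 0 = x := rfl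
    have e1 : (![x, y] : Fin 2 → ℕ) 1 = y := rfl
    unfold RR'
    rw [e0, e1, ← hT]
    constructor
    · rintro ⟨h1, h2 | h2⟩
      · left; exact h2
      · right
        exact ⟨y - T, by omega, by omega⟩
    · rintro (h2 | ⟨z, hz, rfl⟩)
      · exact ⟨by omega, Or.inl h2⟩
      · exact ⟨by omega, Or.inr ⟨by omega, by omega⟩⟩
  have hdisj : Disjoint ((range (b (dv k x))).filter (fun z => G (Fin.cons z (dv k x))))
      ((range (T - de (k + 1) 0 x)).image (fun y => T + y)) := by
    rw [Finset.disjoint_left]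
    intro y hy hy'
    simp only [mem_filter, mem_range, mem_image] at hy hy'
    obtain ⟨z, _, hz⟩ := hy'
    omega
  have hcard : ((range (2 * T)).filter (fun y => RR' G b p ![x, y])).card =
      cnt G b (dv k x) + (T - de (k + 1) 0 x) := by
    rw [hset, card_union_of_disjoint hdisj,
      card_image_of_injective _ (fun a c h => by
        have h' : T + a = T + c := h
        omega), card_range]
    rfl
  rw [hcard]
  show de (k + 1) 0 x < cnt G b (dv k x) ↔ _
  omega

/-! ### Binary search -/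

lemma search (N : ℕ) (e : ℕ) (hN : N < 2 ^ e) (i : ℕ) (hi : i ≤ e) :
    itr 0 (fun i r => if r + 2 ^ (e - 1 - i) - 1 < N then r + 2 ^ (e - 1 - i) else r) i =
      N / 2 ^ (e - i) * 2 ^ (e - i) := by
  induction i with
  | zero =>
    rw [itr_zero, Nat.sub_zero, Nat.div_eq_of_lt hN, zero_mul]
  | succ i ih =>
    rw [itr_succ, ih (by omega)]
    obtain ⟨d, hd⟩ : ∃ d, e - i = d + 1 := ⟨e - i - 1, by omega⟩
    have h1 : e - 1 - i = d := by omega
    have h2 : e - (i + 1) = d := by omega
    rw [hd, h1, h2, pow_succ]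
    have hpos : 0 < 2 ^ d := Nat.two_pow_pos d
    have h3 : N / (2 ^ d * 2) = N / 2 ^ d / 2 := by rw [Nat.div_div_eq_div_mul]
    rw [h3]
    set q := N / 2 ^ d with hq
    have h4 := Nat.div_add_mod N (2 ^ d)
    have h5 := Nat.mod_lt N hpos
    rw [← hq] at h4
    have h6 := Nat.div_add_mod q 2
    have h7 : q / 2 * (2 ^ d * 2) = 2 ^ d * (2 * (q / 2)) := by ring
    rw [h7]
    rcases Nat.mod_two_eq_zero_or_one q with h8 | h8
    · have h9 : 2 * (q / 2) = q := by omega
      rw [h9, if_neg (by omega), mul_comm]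
    · have h9 : 2 * (q / 2) + 1 = q := by omega
      have h10 : 2 ^ d * (2 * (q / 2)) + 2 ^ d = 2 ^ d * q := by
        calc 2 ^ d * (2 * (q / 2)) + 2 ^ d = 2 ^ d * (2 * (q / 2) + 1) := by ring
          _ = 2 ^ d * q := by rw [h9]
      rw [h10, if_pos (by omega), mul_comm]

/-- the exponent used in the code of a query -/
def ex (p : Polynomial ℕ) (v : Fin k → ℕ) : ℕ := len v + (p.eval (len v) + 1)

lemma mem_orc {p : Polynomial ℕ} (v : Fin k → ℕ) (c : ℕ) (hc : c < 2 ^ ex p v) :
    enc (ex p v) (Fin.cons c v : Fin (k + 1) → ℕ) ∈ orc G b ↔ c < cnt G b v := by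
  have hu : ∀ i, (Fin.cons c v : Fin (k + 1) → ℕ) i < 2 ^ ex p v := by
    intro i
    refine Fin.cases ?_ (fun i => ?_) i
    · simpa using hc
    · rw [Fin.cons_succ]
      refine lt_of_lt_of_le (Nat.lt_size_self _) (Nat.pow_le_pow_right (by norm_num) ?_)
      have : Nat.size (v i) ≤ len v := by
        unfold len
        exact Finset.single_le_sum (f := fun i => Nat.size (v i)) (fun _ _ => Nat.zero_le _)
          (Finset.mem_univ i)
      unfold ex
      omega
  have h0 : de (k + 1) 0 (enc (ex p v) (Fin.cons c v : Fin (k + 1) → ℕ)) = c :=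
    de_enc _ hu 0
  have h1 : dv k (enc (ex p v) (Fin.cons c v : Fin (k + 1) → ℕ)) = v := by
    funext i
    unfold dv
    rw [de_enc _ hu i.succ, Fin.cons_succ]
  unfold orc
  rw [Set.mem_ofPred_eq, h0, h1]

lemma fp_cnt (p : Polynomial ℕ) (hbp : ∀ v, b v ≤ 2 ^ (p.eval (len v))) :
    FP (orc G b) k (fun v => cnt G b v) := by
  have hN : ∀ v, cnt G b v < 2 ^ (p.eval (len v) + 1) := fun v => by
    refine lt_of_le_of_lt (le_trans (cnt_le v) (hbp v)) ?_
    exact Nat.pow_lt_pow_right (by norm_num) (Nat.lt_succ_self _)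
  have hlen : PE (orc G b) k (fun v => len v) := PE.len
  have hp : PE (orc G b) k (fun v => p.eval (len v)) := PE.poly p hlen
  have he : PE (orc G b) k (fun v => p.eval (len v) + 1) := hp.add (PE.const 1)
  have hex : PE (orc G b) k (fun v => ex p v) := hlen.add he
  -- the step
  have hd : PE (orc G b) (k + 2)
      (fun w => p.eval (len (Fin.tail (Fin.tail w))) + 1 - 1 - w 0) := by
    refine PE.of_le (e := fun w => p.eval (len (Fin.tail (Fin.tail w))) + 1)
      ((he.fp.tail2.sub' (FP.const 1)).sub' (FP.proj 0)) he.tail2 (fun w => by omega)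
  have hq : FP (orc G b) (k + 2) (fun w => enc (ex p (Fin.tail (Fin.tail w)))
      (fun i => (Fin.cons (w 1 + 2 ^ (p.eval (len (Fin.tail (Fin.tail w))) + 1 - 1 - w 0) - 1)
        (Fin.tail (Fin.tail w)) : Fin (k + 1) → ℕ) i)) := by
    refine fp_enc (m := fun w => ex p (Fin.tail (Fin.tail w))) (u := fun i w =>
      (Fin.cons (w 1 + 2 ^ (p.eval (len (Fin.tail (Fin.tail w))) + 1 - 1 - w 0) - 1)
        (Fin.tail (Fin.tail w)) : Fin (k + 1) → ℕ) i) hex.tail2 ?_
    intro i
    refine Fin.cases ?_ (fun i => ?_) i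
    · simp only [Fin.cons_zero]
      exact ((FP.proj 1).add' hd.pow).sub' (FP.const 1)
    · simp only [Fin.cons_succ]
      exact FP.proj i.succ.succ
  have hstep : FP (orc G b) (k + 2) (fun w =>
      if enc (ex p (Fin.tail (Fin.tail w)))
        (fun i => (Fin.cons (w 1 + 2 ^ (p.eval (len (Fin.tail (Fin.tail w))) + 1 - 1 - w 0) - 1)
          (Fin.tail (Fin.tail w)) : Fin (k + 1) → ℕ) i) ∈ orc G b
      then w 1 + 2 ^ (p.eval (len (Fin.tail (Fin.tail w))) + 1 - 1 - w 0) else w 1) :=
    FP.ite (R := fun w => enc (ex p (Fin.tail (Fin.tail w)))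
        (fun i => (Fin.cons (w 1 + 2 ^ (p.eval (len (Fin.tail (Fin.tail w))) + 1 - 1 - w 0) - 1)
          (Fin.tail (Fin.tail w)) : Fin (k + 1) → ℕ) i) ∈ orc G b)
      (PolyRel.orc hq) ((FP.proj 1).add' hd.pow) (FP.proj 1)
  -- the iteration
  have hit : ∀ (v : Fin k → ℕ) (i : ℕ), i ≤ p.eval (len v) + 1 →
      itr 0 (fun i r => (fun w : Fin (k + 2) → ℕ =>
      if enc (ex p (Fin.tail (Fin.tail w)))
        (fun i => (Fin.cons (w 1 + 2 ^ (p.eval (len (Fin.tail (Fin.tail w))) + 1 - 1 - w 0) - 1)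
          (Fin.tail (Fin.tail w)) : Fin (k + 1) → ℕ) i) ∈ orc G b
      then w 1 + 2 ^ (p.eval (len (Fin.tail (Fin.tail w))) + 1 - 1 - w 0) else w 1)
        (Fin.cons i (Fin.cons r v))) i =
      cnt G b v / 2 ^ (p.eval (len v) + 1 - i) * 2 ^ (p.eval (len v) + 1 - i) := by
    intro v i
    induction i with
    | zero =>
      intro _
      rw [itr_zero, Nat.sub_zero, Nat.div_eq_of_lt (hN v), zero_mul]
    | succ i ih =>
      intro hi
      have h1 := ih (by omega)
      have h2 := search (cnt G b v) (p.eval (len v) + 1) (hN v) (i + 1) hi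
      have h3 := search (cnt G b v) (p.eval (len v) + 1) (hN v) i (by omega)
      rw [itr_succ, h3] at h2
      rw [itr_succ, h1]
      have e0 : (Fin.cons i (Fin.cons (cnt G b v / 2 ^ (p.eval (len v) + 1 - i) *
          2 ^ (p.eval (len v) + 1 - i)) v) : Fin (k + 2) → ℕ) 0 = i := rfl
      have e1 : (Fin.cons i (Fin.cons (cnt G b v / 2 ^ (p.eval (len v) + 1 - i) *
          2 ^ (p.eval (len v) + 1 - i)) v) : Fin (k + 2) → ℕ) 1 =
          cnt G b v / 2 ^ (p.eval (len v) + 1 - i) * 2 ^ (p.eval (len v) + 1 - i) := rfl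
      beta_reduce
      rw [Fin.tail_cons, Fin.tail_cons, e0, e1]
      have hle : cnt G b v / 2 ^ (p.eval (len v) + 1 - i) * 2 ^ (p.eval (len v) + 1 - i) ≤
          cnt G b v := Nat.div_mul_le_self _ _
      have hc : cnt G b v / 2 ^ (p.eval (len v) + 1 - i) * 2 ^ (p.eval (len v) + 1 - i) +
          2 ^ (p.eval (len v) + 1 - 1 - i) - 1 < 2 ^ ex p v := by
        have h4 : 2 ^ (p.eval (len v) + 1 - 1 - i) ≤ 2 ^ p.eval (len v) :=
          Nat.pow_le_pow_right (by norm_num) (by omega)
        have h5 : cnt G b v ≤ 2 ^ p.eval (len v) := le_trans (cnt_le v) (hbp v)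
        have h6 : 2 ^ (p.eval (len v) + 1) ≤ 2 ^ ex p v :=
          Nat.pow_le_pow_right (by norm_num) (by unfold ex; omega)
        rw [pow_succ] at h6
        have := Nat.two_pow_pos (p.eval (len v))
        omega
      have hm := mem_orc (G := G) (b := b) (p := p) v _ hc
      rw [← h2]
      by_cases h7 : cnt G b v / 2 ^ (p.eval (len v) + 1 - i) * 2 ^ (p.eval (len v) + 1 - i) +
          2 ^ (p.eval (len v) + 1 - 1 - i) - 1 < cnt G b v
      · rw [if_pos (hm.2 h7), if_pos h7]
      · rw [if_neg (fun h => h7 (hm.1 h)), if_neg h7]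
  have hfin := FP.iterE (A := orc G b) (k := k) (init := fun _ => 0)
    (n := fun v => p.eval (len v) + 1) (e := fun v => p.eval (len v) + 1)
    (bd := fun v => 2 ^ (p.eval (len v) + 1)) (FP.const 0) hstep he.fp he he.pow
    (fun v => le_rfl) (fun v i hi => by
      rw [hit v i hi]
      exact le_trans (Nat.div_mul_le_self _ _) (hN v).le)
  refine hfin.congr fun v => ?_
  rw [hit v _ le_rfl]
  simp

end COUNT

open COUNT in
theorem specCount : SpecCount := by
  intro k G b p hG hb hbp
  exact ⟨orc G b, orc_mem_PP hG hb p hbp, fp_cnt p hbp⟩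

end MP21c4c4
end
end

section
/-!
# MP_21c4c4_lc, module EXACT
-/
open scoped Classical
open Finset

noncomputable section

namespace MP21c4c4

namespace Exact

/-- one term of the beta sum, with `D` in place of the common factor -/
lemma term (w n a : ℕ) (D R : ℤ) (hR : ((w.factorial : ℕ) : ℤ) ∣ R) (ha : a ≤ n)
    (hw : 2 * n + 1 < w ^ 2)
    (hsm : ∀ m : ℕ, 1 ≤ m → m ≤ 2 * n + 1 → (∀ q : ℕ, q.Prime → q ∣ m → q ≤ w) → m ∣ w.factorial) :
    ∃ z : ℤ, ((D * R : ℤ) : ℚ) / ((n + 1 + a : ℕ) : ℚ) = z +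
      ∑ q ∈ (range (2 * n + 2)).filter (fun q => q.Prime ∧ w < q ∧ q ∣ n + 1 + a),
        ((D * R * (((n + 1 + a) / q : ℕ) : ℤ) ^ (q - 2) : ℤ) : ℚ) / q := by
  by_cases hq : ∃ q : ℕ, q.Prime ∧ w < q ∧ q ∣ n + 1 + a
  · obtain ⟨q, hqp, hwq, hqd⟩ := hq
    obtain ⟨r, hr⟩ := hqd
    have hr0 : r ≠ 0 := by
      rintro rfl
      omega
    have hrw : r < w := by
      by_contra hcon
      have h1 : w ^ 2 ≤ q * r := by
        rw [sq]
        exact Nat.mul_le_mul (by omega) (by omega)
      omega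
    have hfil : (range (2 * n + 2)).filter (fun q => q.Prime ∧ w < q ∧ q ∣ n + 1 + a) = {q} := by
      ext q'
      simp only [mem_filter, mem_range, mem_singleton]
      constructor
      · rintro ⟨-, hp', hw', hd'⟩
        rw [hr] at hd'
        rcases (hp'.dvd_mul).1 hd' with h | h
        · exact (Nat.prime_dvd_prime_iff_eq hp' hqp).1 h
        · have := Nat.le_of_dvd (by omega) h
          omega
      · rintro rfl
        refine ⟨?_, hqp, hwq, ⟨r, hr⟩⟩
        have : q' ≤ q' * r := Nat.le_mul_of_pos_right _ (by omega)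
        omega
    rw [hfil, sum_singleton]
    have hdiv : (n + 1 + a) / q = r := by
      rw [hr]
      exact Nat.mul_div_cancel_left r hqp.pos
    rw [hdiv]
    have hrd : (r : ℤ) ∣ R := by
      have : ((r : ℕ) : ℤ) ∣ ((w.factorial : ℕ) : ℤ) := by
        exact_mod_cast Nat.dvd_factorial (by omega) hrw.le
      exact this.trans hR
    obtain ⟨R', hR'⟩ := hrd
    have hcop : IsCoprime (r : ℤ) (q : ℤ) := by
      rw [Nat.isCoprime_iff_coprime]
      refine Nat.Coprime.symm ((Nat.Prime.coprime_iff_not_dvd hqp).2 fun h => ?_)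
      have := Nat.le_of_dvd (by omega) h
      omega
    have hfer := Int.ModEq.pow_card_sub_one_eq_one hqp hcop
    obtain ⟨e, he⟩ := hfer.dvd
    -- `1 - r ^ (q - 1) = q * e`
    refine ⟨D * R' * e, ?_⟩
    have hq0 : (q : ℚ) ≠ 0 := by exact_mod_cast hqp.pos.ne'
    have hrq : (r : ℚ) ≠ 0 := by exact_mod_cast hr0
    have h1 : ((n + 1 + a : ℕ) : ℚ) = q * r := by exact_mod_cast hr
    have h2 : (1 : ℚ) - (r : ℚ) ^ (q - 1) = q * e := by exact_mod_cast he
    have h3 : (r : ℚ) ^ (q - 1) = r * (r : ℚ) ^ (q - 2) := by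
      have : q - 1 = (q - 2) + 1 := by
        have := hqp.two_le
        omega
      rw [this, pow_succ]
      ring
    rw [h1, hR']
    push_cast
    rw [h3] at h2
    have he' : (e : ℚ) = (1 - r * (r : ℚ) ^ (q - 2)) / q := by
      rw [h2]
      field_simp
    rw [he']
    field_simp
    ring
  · push Not at hq
    have hfil : (range (2 * n + 2)).filter (fun q => q.Prime ∧ w < q ∧ q ∣ n + 1 + a) = ∅ := by
      refine filter_eq_empty_iff.2 fun q _ h => hq q h.1 h.2.1 h.2.2
    rw [hfil, sum_empty]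
    have hd : (((n + 1 + a : ℕ) : ℕ) : ℤ) ∣ R := by
      have h1 : n + 1 + a ∣ w.factorial := by
        refine hsm _ (by omega) (by omega) fun q hq1 hq2 => ?_
        by_contra hcon
        exact hq q hq1 (by omega) hq2
      exact (by exact_mod_cast h1 : (((n + 1 + a : ℕ) : ℕ) : ℤ) ∣ ((w.factorial : ℕ) : ℤ)).trans hR
    obtain ⟨R', hR'⟩ := hd
    refine ⟨D * R', ?_⟩
    have h0 : ((n + 1 + a : ℕ) : ℚ) ≠ 0 := by
      have : n + 1 + a ≠ 0 := by omega
      exact_mod_cast this
    rw [hR']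
    push_cast at h0 ⊢
    field_simp
    ring

end Exact

attribute [local irreducible] nn ww KK GG RR jp

lemma Exact.cc_eq (s j X a q : ℕ) : cc s j X a q =
    ((-1) ^ a * (2 * nn s + 1) * ((nn s).choose a : ℤ) * (GG (nn s) (jp s j) : ℤ) * X) *
      RR (ww s) (KK s) * (((nn s + 1 + a) / q : ℕ) : ℤ) ^ (q - 2) := by
  unfold cc
  ring

theorem specExact (hB : SpecBeta) (hS : SpecSurj) (hM : SpecSmooth) (hP : SpecParam) :
    SpecExact := by
  intro s j X
  obtain ⟨hp1, hp2, -⟩ := hP s
  have hw1 : 1 ≤ ww s := by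
    unfold ww
    exact Nat.one_le_two_pow
  obtain ⟨hR, -, -⟩ := hS (ww s) (KK s) hw1
  have hb := hB (nn s)
  have hcc := Exact.cc_eq s j X
  have hal : alpha s j = (RR (ww s) (KK s) : ℚ) * (GG (nn s) (jp s j) : ℚ) /
    (Nat.centralBinom (nn s) : ℚ) := rfl
  rw [hal]
  simp only [hcc]
  clear hcc hal
  generalize hn : nn s = n at *
  generalize hw : ww s = w at *
  generalize hRR : RR w (KK s) = R at *
  generalize hGG : GG n (jp s j) = G at *
  have hsm : ∀ m : ℕ, 1 ≤ m → m ≤ 2 * n + 1 → (∀ q : ℕ, q.Prime → q ∣ m → q ≤ w) →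
      m ∣ w.factorial := fun m h1 h2 h3 => hM w (2 * n + 1) m hp2 h1 h2 h3
  have hc : (0 : ℚ) < Nat.centralBinom n := by exact_mod_cast Nat.centralBinom_pos n
  have key : (R : ℚ) * (G : ℚ) / (Nat.centralBinom n : ℚ) * X = ∑ a ∈ range (n + 1),
      ((((-1) ^ a * (2 * n + 1) * (n.choose a : ℤ) * (G : ℤ) * X) * R : ℤ) : ℚ) /
        ((n + 1 + a : ℕ) : ℚ) := by
    have h1 : (R : ℚ) * (G : ℚ) / (Nat.centralBinom n : ℚ) * X =
        ((2 * n + 1) * (R : ℚ) * (G : ℚ) * X) *
        (1 / ((2 * n + 1) * (Nat.centralBinom n : ℚ))) := by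
      field_simp
    rw [h1, ← hb, mul_sum]
    refine sum_congr rfl fun a _ => ?_
    push_cast
    ring
  rw [key]
  clear key hb hp2 hP hS hM hB hRR hGG hc
  have hterm : ∀ a : ℕ, ∃ z : ℤ, a ∈ range (n + 1) →
      ((((-1) ^ a * (2 * n + 1) * (n.choose a : ℤ) * (G : ℤ) * X) * R : ℤ) : ℚ) /
        ((n + 1 + a : ℕ) : ℚ) = z +
      ∑ q ∈ (range (2 * n + 2)).filter (fun q => q.Prime ∧ w < q ∧ q ∣ n + 1 + a),
        ((((-1) ^ a * (2 * n + 1) * (n.choose a : ℤ) * (G : ℤ) * X) * R *
          (((n + 1 + a) / q : ℕ) : ℤ) ^ (q - 2) : ℤ) : ℚ) / q := by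
    intro a
    by_cases ha : a ∈ range (n + 1)
    · have ha' : a ≤ n := by
        have := mem_range.1 ha
        omega
      obtain ⟨z, hz⟩ := Exact.term w n a ((-1) ^ a * (2 * n + 1) * (n.choose a : ℤ) * (G : ℤ) * X) R
        hR ha' hp1 hsm
      exact ⟨z, fun _ => hz⟩
    · exact ⟨0, fun h => absurd h ha⟩
  choose z hz using hterm
  refine ⟨∑ a ∈ range (n + 1), z a, ?_⟩
  have hsum : ((∑ a ∈ range (n + 1), z a : ℤ) : ℚ) = ∑ a ∈ range (n + 1), (z a : ℚ) := by
    push_cast
    rfl
  rw [hsum, ← sum_add_distrib]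
  exact sum_congr rfl fun a ha => hz a ha

end MP21c4c4
end
end

section
/-!
# MP_21c4c4_lc, module EXT: binomial coefficients modulo a prime as sums of polynomial time terms
-/
open scoped Classical
open Finset

noncomputable section

namespace MP21c4c4

namespace Ext

lemma sum_range_zmod (q : ℕ) [NeZero q] (f : ZMod q → ZMod q) :
    ∑ u ∈ range q, f (u : ZMod q) = ∑ x : ZMod q, f x := by
  refine Finset.sum_bij' (fun u _ => (u : ZMod q)) (fun x _ => x.val) ?_ ?_ ?_ ?_ ?_
  · intro a _
    exact mem_univ _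
  · intro x _
    exact mem_range.2 (ZMod.val_lt x)
  · intro a ha
    exact ZMod.val_cast_of_lt (mem_range.1 ha)
  · intro x _
    exact ZMod.natCast_zmod_val x
  · intro a _
    rfl

lemma sum_pow_card (q : ℕ) (hq : q.Prime) [Fact q.Prime] :
    ∑ x : ZMod q, x ^ (q - 1) = -1 := by
  have h1 : ∀ x : ZMod q, x ^ (q - 1) = if x = 0 then 0 else 1 := by
    intro x
    by_cases hx : x = 0
    · rw [if_pos hx, hx, zero_pow]
      have := hq.two_le
      omega
    · rw [if_neg hx, ZMod.pow_card_sub_one_eq_one hx]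
  rw [Finset.sum_congr rfl (fun x _ => h1 x)]
  have h2 : ∑ x : ZMod q, (if x = 0 then (0 : ZMod q) else 1) =
      ∑ x : ZMod q, ((1 : ZMod q) - if x = 0 then 1 else 0) := by
    refine Finset.sum_congr rfl (fun x _ => ?_)
    split_ifs <;> simp
  rw [h2, Finset.sum_sub_distrib, Finset.sum_ite_eq' univ (0 : ZMod q)]
  simp

lemma sum_pow (q i k : ℕ) (hq : q.Prime) [Fact q.Prime] (hk : 1 ≤ k) (hkq : k < q) (hi : i < q) :
    ∑ x : ZMod q, x ^ (i + (q - 1 - k)) = if i = k then -1 else 0 := by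
  have hq2 := hq.two_le
  by_cases h : i = k
  · rw [if_pos h, h]
    have : k + (q - 1 - k) = q - 1 := by omega
    rw [this]
    exact sum_pow_card q hq
  · rw [if_neg h]
    by_cases h2 : i < k
    · apply FiniteField.sum_pow_lt_card_sub_one
      rw [ZMod.card]
      omega
    · have h3 : i + (q - 1 - k) = (i - k) + (q - 1) := by omega
      have h4 : 1 ≤ i - k := by omega
      have h5 : ∀ x : ZMod q, x ^ (i + (q - 1 - k)) = x ^ (i - k) := by
        intro x
        rw [h3, pow_add]
        by_cases hx : x = 0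
        · rw [hx, zero_pow (by omega)]
          simp
        · rw [ZMod.pow_card_sub_one_eq_one hx, mul_one]
      rw [Finset.sum_congr rfl (fun x _ => h5 x)]
      apply FiniteField.sum_pow_lt_card_sub_one
      rw [ZMod.card]
      omega

end Ext

open Ext in
theorem specExt : SpecExt := by
  intro q N k hq hN hk
  have : Fact q.Prime := ⟨hq⟩
  have : NeZero q := ⟨hq.ne_zero⟩
  have hq2 := hq.two_le
  rw [← ZMod.natCast_eq_natCast_iff]
  push_cast
  by_cases h0 : k = 0
  · subst h0
    have h1 : ∀ u ∈ range q, ((fx q u N 0 : ℕ) : ZMod q) = if u = 0 then 1 else 0 := by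
      intro u _
      unfold fx
      rw [if_pos rfl]
      split_ifs <;> simp
    rw [Finset.sum_congr rfl h1, Finset.sum_ite_eq' (range q) 0]
    rw [if_pos (mem_range.2 (by omega))]
    simp
  · have h1 : ∀ u ∈ range q, ((fx q u N k : ℕ) : ZMod q) =
        -((1 + (u : ZMod q)) ^ N * (u : ZMod q) ^ (q - 1 - k)) := by
      intro u _
      unfold fx
      rw [if_neg h0, Nat.cast_sub (Nat.mod_lt _ (by omega)).le, ZMod.natCast_self, ZMod.natCast_mod]
      push_cast
      ring
    rw [Finset.sum_congr rfl h1,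
      sum_range_zmod q (fun x => -((1 + x) ^ N * x ^ (q - 1 - k)))]
    have h2 : ∀ x : ZMod q, -((1 + x) ^ N * x ^ (q - 1 - k)) =
        ∑ i ∈ range (N + 1), -((N.choose i : ZMod q) * x ^ (i + (q - 1 - k))) := by
      intro x
      rw [add_comm 1 x, add_pow, Finset.sum_mul, ← Finset.sum_neg_distrib]
      refine Finset.sum_congr rfl (fun i _ => ?_)
      rw [pow_add]
      ring
    rw [Finset.sum_congr rfl (fun x _ => h2 x), Finset.sum_comm]
    have h3 : ∀ i ∈ range (N + 1), ∑ x : ZMod q,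
        -((N.choose i : ZMod q) * x ^ (i + (q - 1 - k))) =
        if i = k then (N.choose i : ZMod q) else 0 := by
      intro i hi
      have hi' : i < q := by
        have := mem_range.1 hi
        omega
      rw [Finset.sum_neg_distrib, ← Finset.mul_sum, sum_pow q i k hq (by omega) hk hi']
      split_ifs <;> simp
    rw [Finset.sum_congr rfl h3, Finset.sum_ite_eq' (range (N + 1)) k]
    split_ifs with h4
    · rfl
    · have : N < k := by
        rw [mem_range] at h4
        omega
      rw [Nat.choose_eq_zero_of_lt this]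
      simp

end MP21c4c4
end
end
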