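import Pool.Agent.Lib.MP_21c4c4_lc.Ext

/-!
# MP_21c4c4_lc, module FINAL: assembly.
-/

open scoped Classical
open Finset

noncomputable section

namespace MP21c4c4

namespace Final

theorem den_pos (s j : ℕ) (g : ℕ → ℕ) : 0 < den s j g := by
  unfold den
  split_ifs with h
  · exact lt_of_le_of_lt (Nat.zero_le _) h.2.1
  · exact Nat.one_pos

theorem blk_lt (s j : ℕ) (xm : ℕ → ℕ) (k idx : ℕ) : blk s j xm k idx < 2 ^ bt s := by
  unfold blk
  have hd := den_pos s j (fld s idx)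
  rw [Nat.div_lt_iff_lt_mul hd]
  exact Nat.mul_lt_mul_of_pos_left (Nat.mod_lt _ hd) (Nat.two_pow_pos _)

theorem card_eq (L b : ℕ) (f : ℕ → ℕ) (hf : ∀ i, f i ≤ b) (hb : 0 < b) :
    ((range (L * b)).filter (fun z => z % b < f (z / b))).card = ∑ i ∈ range L, f i := by
  induction L with
  | zero => simp
  | succ L ih =>
    rw [Finset.sum_range_succ, ← ih]
    have h1 : (range ((L + 1) * b)).filter (fun z => z % b < f (z / b)) =
        (range (L * b)).filter (fun z => z % b < f (z / b)) ∪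
        (range (f L)).image (fun c => L * b + c) := by
      ext z
      simp only [mem_filter, mem_range, mem_union, mem_image]
      constructor
      · rintro ⟨h1, h2⟩
        by_cases hz : z < L * b
        · exact Or.inl ⟨hz, h2⟩
        · right
          push Not at hz
          have hzb : z / b = L := by
            apply Nat.div_eq_of_lt_le
            · exact hz
            · exact h1
          refine ⟨z % b, ?_, ?_⟩
          · rw [hzb] at h2; exact h2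
          · have := Nat.div_add_mod z b
            rw [hzb] at this
            rw [Nat.mul_comm L b]; exact this
      · rintro (⟨h1, h2⟩ | ⟨c, hc, rfl⟩)
        · refine ⟨lt_of_lt_of_le h1 (Nat.mul_le_mul_right _ (Nat.le_succ _)), h2⟩
        · have hcb : c < b := lt_of_lt_of_le hc (hf L)
          have e1 : (L * b + c) / b = L := by
            rw [Nat.mul_comm, Nat.mul_add_div hb, Nat.div_eq_of_lt hcb, Nat.add_zero]
          have e2 : (L * b + c) % b = c := by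
            rw [Nat.mul_comm, Nat.mul_add_mod, Nat.mod_eq_of_lt hcb]
          refine ⟨by rw [Nat.succ_mul]; omega, ?_⟩
          rw [e1, e2]; exact hc
    rw [h1, Finset.card_union_of_disjoint, Finset.card_image_of_injective, card_range]
    · intro a b' h; simpa using h
    · rw [Finset.disjoint_left]
      intro z hz hz2
      simp only [mem_filter, mem_range, mem_image] at hz hz2
      obtain ⟨c, _, rfl⟩ := hz2
      omega

theorem num_congr (s j : ℕ) (xm xm' : ℕ → ℕ) (h : ∀ q, 1 ≤ q → xm q = xm' q) (g : ℕ → ℕ) :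
    num s j xm g = num s j xm' g := by
  unfold num
  split_ifs with hg
  · rw [h (g 1) (Nat.succ_le_of_lt (lt_of_le_of_lt (Nat.zero_le _) hg.2.1))]
  · rfl

theorem VV_congr (s j : ℕ) (xm xm' : ℕ → ℕ) (h : ∀ q, 1 ≤ q → xm q = xm' q) :
    VV s j xm = VV s j xm' := by
  funext k
  unfold VV blk
  exact Finset.sum_congr rfl fun idx _ => by rw [num_congr s j xm xm' h]

variable {A : Set ℕ} {m : ℕ}

theorem card_filter_inst {s : Finset ℕ} {p : ℕ → Prop} (i1 i2 : DecidablePred p) :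
    (@Finset.filter _ p i1 s).card = (@Finset.filter _ p i2 s).card := by
  have : i1 = i2 := Subsingleton.elim _ _
  rw [this]

/-- the value of `VV` in terms of the input -/
def V4 (xm : (Fin 3 → ℕ) → ℕ) (a b c d : ℕ) : ℕ :=
  VV (Nat.size a) c (fun q => xm ![a, b, q]) d

def S4 (xm : (Fin 3 → ℕ) → ℕ) (a b c d : ℕ) : ℕ :=
  SS (Nat.size a) (VV (Nat.size a) c (fun q => xm ![a, b, q])) d

theorem countV (hBlk : SpecBlk) (hCount : SpecCount) (xm : (Fin 3 → ℕ) → ℕ)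
    (hxm : FP ∅ 3 xm) : ∃ A ∈ PP, FP A 4 (fun v => V4 xm (v 0) (v 1) (v 2) (v 3)) := by
  have hb := hBlk xm hxm
  -- context: z, x, σ, j, k
  let G : (Fin 5 → ℕ) → Prop := fun w =>
    w 0 % 2 ^ bt (Nat.size (w 1)) <
      blk (Nat.size (w 1)) (w 3) (fun q => xm ![w 1, w 2, q]) (w 4)
        (w 0 / 2 ^ bt (Nat.size (w 1)))
  have hbt : FP ∅ 5 (fun w => 2 ^ bt (Nat.size (w 1))) := (PE.size (FP.proj 1)).bt
  have hG : PolyRel ∅ 5 G := by
    refine PolyRel.lt ((FP.proj 0).mod' hbt) ?_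
    refine FP.comp (g := fun i w => (![w 1, w 2, w 3, w 4,
      w 0 / 2 ^ bt (Nat.size (w 1))] : Fin 5 → ℕ) i) hb ?_
    intro i
    fin_cases i
    · exact FP.proj 1
    · exact FP.proj 2
    · exact FP.proj 3
    · exact FP.proj 4
    · exact (FP.proj 0).div' hbt
  obtain ⟨p, hp⟩ : ∃ p : Polynomial ℕ, ∀ s, p.eval s = LL s + bt s := by
    have e1 : ∀ s, FF s = 10 * s + 102 := by intro s; unfold FF tt sg; ring
    refine ⟨(10 * Polynomial.X + 102) * (11 + 2 * (10 * Polynomial.X + 102)) +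
      ((10 * Polynomial.X + 102) * (11 + 2 * (10 * Polynomial.X + 102)) + 2), fun s => ?_⟩
    simp only [LL, bt, e1, Polynomial.eval_add, Polynomial.eval_mul, Polynomial.eval_ofNat,
      Polynomial.eval_X]
  have hmono : ∀ a b : ℕ, a ≤ b → p.eval a ≤ p.eval b := by
    intro a b hab
    rw [hp, hp]
    have h1 : FF a ≤ FF b := by unfold FF tt sg; omega
    have h2 : LL a ≤ LL b := Nat.mul_le_mul h1 (by omega)
    have h3 : bt a ≤ bt b := Nat.add_le_add_right h2 2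
    exact Nat.add_le_add h2 h3
  obtain ⟨A, hA, hF⟩ := hCount 4 G (fun v => 2 ^ (LL (Nat.size (v 0)) + bt (Nat.size (v 0))))
    p hG ((PE.size (FP.proj 0)).LL.add (PE.size (FP.proj 0)).bt) (fun v => by
      apply Nat.pow_le_pow_right (by norm_num)
      rw [← hp]
      apply hmono
      unfold len
      exact Finset.single_le_sum (f := fun i => Nat.size (v i)) (fun _ _ => Nat.zero_le _)
        (Finset.mem_univ 0))
  refine ⟨A, hA, hF.congr fun v => ?_⟩
  have := card_eq (2 ^ LL (Nat.size (v 0))) (2 ^ bt (Nat.size (v 0)))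
    (fun idx => blk (Nat.size (v 0)) (v 2) (fun q => xm ![v 0, v 1, q]) (v 3) idx)
    (fun i => (blk_lt _ _ _ _ _).le) (Nat.two_pow_pos _)
  have e : V4 xm (v 0) (v 1) (v 2) (v 3) = ∑ idx ∈ range (2 ^ LL (Nat.size (v 0))),
    blk (Nat.size (v 0)) (v 2) (fun q => xm ![v 0, v 1, q]) (v 3) idx := rfl
  rw [e, ← this, pow_add]
  exact card_filter_inst _ _

theorem fpS {xm : (Fin 3 → ℕ) → ℕ} (hV : FP A 4 (fun v => V4 xm (v 0) (v 1) (v 2) (v 3)))
    {x σ j k : Fn m} (hx : FP A m x) (hσ : FP A m σ) (hj : FP A m j) (hk : FP A m k) :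
    FP A m (fun v => S4 xm (x v) (σ v) (j v) (k v)) := by
  have hs : PE A m (fun v => Nat.size (x v)) := PE.size hx
  have hVO : ∀ {k : Fn m}, FP A m k → FP A m (fun v => V4 xm (x v) (σ v) (j v) (k v) +
      (if k v + 2 ^ (Nat.size (x v)) + 2 = BB (Nat.size (x v)) then 1 else 0)) := by
    intro k hk
    refine (FP.comp4 hV hx hσ hj hk).add' ?_
    exact (PolyRel.eq ((hk.add' hs.pow).add' (FP.const 2)) (FP.BB hs)).fpd
  have h1 := (hVO hk).mod' hs.bt.pow
  have h2 := (hVO (hk.sub' (FP.const 1))).div' hs.bt.pow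
  have h3 := FP.ite (_inst := fun _ => inferInstance) (PolyRel.eq hk (FP.const 0))
    (FP.const 0) h2
  exact (h1.add' h3).congr fun v => rfl

theorem polyCz {xm : (Fin 3 → ℕ) → ℕ} (hV : FP A 4 (fun v => V4 xm (v 0) (v 1) (v 2) (v 3)))
    {x σ j c k z : Fn m} (hx : FP A m x) (hσ : FP A m σ) (hj : FP A m j) (hc : FP A m c)
    (hk : FP A m k) (hz : FP A m z) :
    PolyRel A m (fun v => Cz (bt (Nat.size (x v))) (BB (Nat.size (x v)))
      (S4 xm (x v) (σ v) (j v)) (c v) (k v) (z v)) := by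
  have hs : PE A m (fun v => Nat.size (x v)) := PE.size hx
  have hB := FP.BB hs
  have hb := hs.bt.pow
  have h1 : FP A m (fun v => k v + 1) := hk.add' (FP.const 1)
  have hSk := fpS hV hx hσ hj hk
  have hSz := fpS hV hx hσ hj hz
  refine PolyRel.and (PolyRel.imp (PolyRel.eq hc (FP.const 1))
    (PolyRel.and (PolyRel.lt h1 hB) (PolyRel.le hb hSk))) (PolyRel.and ?_ ?_)
  · exact PolyRel.imp (PolyRel.eq hc (FP.const 0)) (PolyRel.imp (PolyRel.lt h1 hB)
      (PolyRel.le (hSk.add' (FP.const 2)) hb))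
  · exact PolyRel.imp (PolyRel.lt (hz.add' (FP.const 1)) hB) (PolyRel.imp
      (PolyRel.or (PolyRel.lt hk hz) (PolyRel.eq h1 hB))
      (PolyRel.eq (hSz.add' (FP.const 1)) hb))

/-- the bit computed from the carry `c` -/
def bitv (s : ℕ) (S : ℕ → ℕ) (c : ℕ) : ℕ := (S (BB s - 1) + c) / 2 ^ (bt s - 1) % 2

theorem fpbit {xm : (Fin 3 → ℕ) → ℕ} (hV : FP A 4 (fun v => V4 xm (v 0) (v 1) (v 2) (v 3)))
    {x σ j c : Fn m} (hx : FP A m x) (hσ : FP A m σ) (hj : FP A m j) (hc : FP A m c) :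
    FP A m (fun v => bitv (Nat.size (x v)) (S4 xm (x v) (σ v) (j v)) (c v)) := by
  have hs : PE A m (fun v => Nat.size (x v)) := PE.size hx
  have hS := fpS hV hx hσ hj ((FP.BB hs).sub' (FP.const 1))
  have hb1 : FP A m (fun v => 2 ^ (bt (Nat.size (x v)) - 1)) :=
    (PE.of_le (hs.bt.fp.sub' (FP.const 1)) hs.bt (fun v => Nat.sub_le _ _)).pow
  exact ((hS.add' hc).div' hb1).mod' (FP.const 2)

theorem enc_exists (b0 l1 l2 l3 d1 d2 d3 : ℕ) (hBpos : 0 < b0) (hl1 : l1 < b0) (hl2 : l2 < b0)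
    (hl3 : l3 < b0) (hd1 : d1 ≤ 1) (hd2 : d2 ≤ 1) (hd3 : d3 ≤ 1) :
    ∃ y, y < b0 * (b0 * (b0 * 8)) ∧ y % b0 = l1 ∧ y / b0 % b0 = l2 ∧ y / (b0 * b0) % b0 = l3 ∧
      y / (b0 * b0 * b0) % 2 = d1 ∧ y / (b0 * b0 * b0 * 2) % 2 = d2 ∧
      y / (b0 * b0 * b0 * 4) % 2 = d3 := by
  let y := l1 + b0 * (l2 + b0 * (l3 + b0 * (d1 + 2 * (d2 + 2 * d3))))
  have hy2 : y / b0 = l2 + b0 * (l3 + b0 * (d1 + 2 * (d2 + 2 * d3))) := by
    simp only [y]
    rw [Nat.add_mul_div_left _ _ hBpos, Nat.div_eq_of_lt hl1, Nat.zero_add]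
  have hy3 : y / (b0 * b0) = l3 + b0 * (d1 + 2 * (d2 + 2 * d3)) := by
    rw [← Nat.div_div_eq_div_mul, hy2, Nat.add_mul_div_left _ _ hBpos, Nat.div_eq_of_lt hl2,
      Nat.zero_add]
  have hy4 : y / (b0 * b0 * b0) = d1 + 2 * (d2 + 2 * d3) := by
    rw [← Nat.div_div_eq_div_mul, hy3, Nat.add_mul_div_left _ _ hBpos, Nat.div_eq_of_lt hl3,
      Nat.zero_add]
  have hy5 : y / (b0 * b0 * b0 * 2) = d2 + 2 * d3 := by
    rw [← Nat.div_div_eq_div_mul, hy4]; omega
  have hy6 : y / (b0 * b0 * b0 * 4) = d3 := by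
    rw [← Nat.div_div_eq_div_mul, hy4]; omega
  refine ⟨y, ?_, ?_, ?_, ?_, ?_, ?_, ?_⟩
  · have g1 : d1 + 2 * (d2 + 2 * d3) + 1 ≤ 8 := by omega
    have g2 : l3 + b0 * (d1 + 2 * (d2 + 2 * d3)) + 1 ≤ b0 * 8 := by
      have := Nat.mul_le_mul_left b0 g1
      rw [Nat.mul_add, Nat.mul_one] at this
      omega
    have g3 : l2 + b0 * (l3 + b0 * (d1 + 2 * (d2 + 2 * d3))) + 1 ≤ b0 * (b0 * 8) := by
      have := Nat.mul_le_mul_left b0 g2
      rw [Nat.mul_add, Nat.mul_one] at this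
      omega
    have g4 := Nat.mul_le_mul_left b0 g3
    rw [Nat.mul_add, Nat.mul_one] at g4
    show l1 + b0 * (l2 + b0 * (l3 + b0 * (d1 + 2 * (d2 + 2 * d3)))) < _
    omega
  · simp [y, Nat.add_mul_mod_self_left, Nat.mod_eq_of_lt hl1]
  · rw [hy2, Nat.add_mul_mod_self_left, Nat.mod_eq_of_lt hl2]
  · rw [hy3, Nat.add_mul_mod_self_left, Nat.mod_eq_of_lt hl3]
  · rw [hy4]; omega
  · rw [hy5]; omega
  · rw [hy6]; omega

/-- bit extraction from sign-shifted integers -/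
theorem bit_shift (V : ℤ) (N i : ℕ) (hi : i < N) (hV : 0 ≤ V) :
    (V + 2 ^ N).toNat / 2 ^ i % 2 = V.natAbs / 2 ^ i % 2 := by
  obtain ⟨a, rfl⟩ := Int.eq_ofNat_of_zero_le hV
  have h1 : ((a : ℤ) + 2 ^ N).toNat = a + 2 ^ N := by
    have : ((a : ℤ) + 2 ^ N) = ((a + 2 ^ N : ℕ) : ℤ) := by push_cast; ring
    rw [this, Int.toNat_natCast]
  rw [h1, Int.natAbs_natCast]
  have h2 : 2 ^ N = 2 ^ i * (2 * 2 ^ (N - i - 1)) := by
    rw [← pow_succ', ← pow_add]; congr 1; omega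
  rw [h2, Nat.add_mul_div_left _ _ (Nat.two_pow_pos _), Nat.add_mul_mod_self_left]

theorem sign_bit (V : ℤ) (N : ℕ) (hV : |V| < 2 ^ N) :
    (V + 2 ^ N).toNat / 2 ^ N % 2 = 1 ↔ 0 ≤ V := by
  rw [abs_lt] at hV
  have h0 : 0 ≤ V + 2 ^ N := by linarith [hV.1]
  obtain ⟨a, ha⟩ := Int.eq_ofNat_of_zero_le h0
  have h1 : (V + 2 ^ N).toNat = a := by rw [ha]; rfl
  have h2 : a < 2 * 2 ^ N := by
    have : ((a : ℕ) : ℤ) < 2 * 2 ^ N := by
      have h3 : ((a : ℕ) : ℤ) = V + 2 ^ N := ha.symm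
      rw [h3]; linarith [hV.2]
    exact_mod_cast this
  rw [h1]
  constructor
  · intro h
    by_contra hc
    push Not at hc
    have h3 : a < 2 ^ N := by
      have : ((a : ℕ) : ℤ) < 2 ^ N := by
        have h3 : ((a : ℕ) : ℤ) = V + 2 ^ N := ha.symm
        rw [h3]; linarith
      exact_mod_cast this
    rw [Nat.div_eq_of_lt h3] at h
    omega
  · intro h
    have h3 : 2 ^ N ≤ a := by
      have : (2 : ℤ) ^ N ≤ ((a : ℕ) : ℤ) := by
        have h3 : ((a : ℕ) : ℤ) = V + 2 ^ N := ha.symm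
        rw [h3]; linarith
      exact_mod_cast this
    have h4 : a / 2 ^ N = 1 := by
      apply Nat.div_eq_of_lt_le
      · simpa using h3
      · simpa [Nat.succ_mul, two_mul] using h2
    rw [h4]

theorem XX_lt (s : ℕ) (P : SLP) (σ : ℕ) (h : |value P| < 2 ^ (2 ^ s)) :
    XX s P σ < 2 ^ (2 ^ s + 1) := by
  unfold XX
  rw [abs_lt] at h
  have h1 : ((if σ = 0 then value P else - value P) + 2 ^ (2 ^ s)) <
      ((2 ^ (2 ^ s + 1) : ℕ) : ℤ) := by
    push_cast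
    rw [pow_succ]
    split_ifs <;> linarith [h.1, h.2]
  have hpos : (0 : ℤ) < ((2 ^ (2 ^ s + 1) : ℕ) : ℤ) := by positivity
  omega

/-- summary of BIT and CARRY for a valid code -/
theorem bit_iff (hBit : SpecBit) (hCarry : SpecCarry) (s j X : ℕ)
    (hj : 1 ≤ j) (hj' : j ≤ 2 ^ s + 1) (hX : X < 2 ^ (2 ^ s + 1)) (xm : ℕ → ℕ)
    (hxm : ∀ q, 1 ≤ q → xm q = X % q) (b : ℕ) :
    X / 2 ^ (j - 1) % 2 = b ↔ ∃ c ≤ 1, ∃ k0 < BB s,
      (∀ z < BB s, Cz (bt s) (BB s) (SS s (VV s j xm)) c k0 z) ∧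
        bitv s (SS s (VV s j xm)) c = b := by
  obtain ⟨h1, h2⟩ := hBit s j X hj hj' hX
  have he : VV s j xm = VV s j (fun q => X % q) := VV_congr s j _ _ hxm
  rw [he, ← h2]
  exact hCarry (bt s) (BB s) (SS s (VV s j (fun q => X % q))) (by unfold bt; omega)
    (Nat.one_le_two_pow) h1 b

end Final

open Final in
/-- module FINAL -/
theorem specFinal (hCode : SpecCode) (hBlk : SpecBlk) (hCount : SpecCount) (hBit : SpecBit)
    (hCarry : SpecCarry) (hValue : SpecValue) : SpecFinal := by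
  obtain ⟨xm, ix, bx, W, hxm, hix, hbx, hW, hWv, hval⟩ := hCode
  obtain ⟨A, hA, hV⟩ := countV hBlk hCount xm hxm
  -- FP ∅ functions are FP A functions
  have lift : ∀ {k : ℕ} {f : Fn k}, FP ∅ k f → FP A k f := by
    intro k f hf
    induction hf with
    | const c => exact FP.const c
    | proj i => exact FP.proj i
    | add => exact FP.add
    | sub => exact FP.sub
    | mul => exact FP.mul
    | div => exact FP.div
    | size => exact FP.size
    | smash => exact FP.smash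
    | oracle => exact (FP.const 0).congr fun v => by simp
    | comp _ _ ih1 ih2 => exact FP.comp ih1 ih2
    | recN _ _ _ hb ih1 ih2 ih3 => exact FP.recN ih1 ih2 ih3 hb
  refine ⟨A, hA, ?_⟩
  -- matrix, context (z, y, x)
  let B : Fn 3 := fun w => BB (Nat.size (w 2))
  let k1 : Fn 3 := fun w => w 1 % B w
  let k2 : Fn 3 := fun w => w 1 / B w % B w
  let k3 : Fn 3 := fun w => w 1 / (B w * B w) % B w
  let c1 : Fn 3 := fun w => w 1 / (B w * B w * B w) % 2
  let c2 : Fn 3 := fun w => w 1 / (B w * B w * B w * 2) % 2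
  let c3 : Fn 3 := fun w => w 1 / (B w * B w * B w * 4) % 2
  let iw : Fn 3 := fun w => ix ![w 2]
  let bw : Fn 3 := fun w => bx ![w 2]
  let j1 : Fn 3 := fun w => 2 ^ Nat.size (w 2) + 1
  let j2 : Fn 3 := fun w => iw w + 1
  let T : (Fin 3 → ℕ) → Prop := fun w =>
    W ![w 2] ∧
    (w 0 < B w →
      Cz (bt (Nat.size (w 2))) (BB (Nat.size (w 2))) (S4 xm (w 2) 0 (j1 w)) (c1 w) (k1 w) (w 0) ∧
      Cz (bt (Nat.size (w 2))) (BB (Nat.size (w 2))) (S4 xm (w 2) 0 (j2 w)) (c2 w) (k2 w) (w 0) ∧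
      Cz (bt (Nat.size (w 2))) (BB (Nat.size (w 2))) (S4 xm (w 2) 1 (j2 w)) (c3 w) (k3 w) (w 0)) ∧
    (bitv (Nat.size (w 2)) (S4 xm (w 2) 0 (j1 w)) (c1 w) = 1 →
      bitv (Nat.size (w 2)) (S4 xm (w 2) 0 (j2 w)) (c2 w) = bw w) ∧
    (¬ bitv (Nat.size (w 2)) (S4 xm (w 2) 0 (j1 w)) (c1 w) = 1 →
      bitv (Nat.size (w 2)) (S4 xm (w 2) 1 (j2 w)) (c3 w) = bw w)
  have hx : FP A 3 (fun w => w 2) := FP.proj 2
  have hs : PE A 3 (fun w => Nat.size (w 2)) := PE.size hx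
  have hB : FP A 3 B := FP.BB hs
  have hk1 : FP A 3 k1 := (FP.proj 1).mod' hB
  have hk2 : FP A 3 k2 := ((FP.proj 1).div' hB).mod' hB
  have hk3 : FP A 3 k3 := ((FP.proj 1).div' (hB.mul' hB)).mod' hB
  have hc1 : FP A 3 c1 := ((FP.proj 1).div' ((hB.mul' hB).mul' hB)).mod' (FP.const 2)
  have hc2 : FP A 3 c2 :=
    ((FP.proj 1).div' (((hB.mul' hB).mul' hB).mul' (FP.const 2))).mod' (FP.const 2)
  have hc3 : FP A 3 c3 :=
    ((FP.proj 1).div' (((hB.mul' hB).mul' hB).mul' (FP.const 4))).mod' (FP.const 2)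
  have hiw : FP A 3 iw := (FP.comp (g := fun (_ : Fin 1) w => w 2) (lift hix)
    (fun _ => hx)).congr fun w => by
      show ix (fun _ => w 2) = ix ![w 2]
      congr 1; funext i; fin_cases i; rfl
  have hbw : FP A 3 bw := (FP.comp (g := fun (_ : Fin 1) w => w 2) (lift hbx)
    (fun _ => hx)).congr fun w => by
      show bx (fun _ => w 2) = bx ![w 2]
      congr 1; funext i; fin_cases i; rfl
  have hWw : PolyRel A 3 (fun w => W ![w 2]) :=
    (PolyRel.comp (g := fun (_ : Fin 1) w => w 2) (R := W) (lift hW)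
    (fun _ => hx)).congr fun w => by
      have : (fun _ : Fin 1 => w 2) = ![w 2] := by funext i; fin_cases i; rfl
      rw [this]
  have hj1 : FP A 3 j1 := hs.pow.add' (FP.const 1)
  have hj2 : FP A 3 j2 := hiw.add' (FP.const 1)
  have hT : PolyRel A 3 T := by
    refine hWw.and (PolyRel.and ?_ (PolyRel.and ?_ ?_))
    · refine PolyRel.imp (PolyRel.lt (FP.proj 0) hB) ?_
      exact PolyRel.and (polyCz hV hx (FP.const 0) hj1 hc1 hk1 (FP.proj 0))
        (PolyRel.and (polyCz hV hx (FP.const 0) hj2 hc2 hk2 (FP.proj 0))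
        (polyCz hV hx (FP.const 1) hj2 hc3 hk3 (FP.proj 0)))
    · exact PolyRel.imp (PolyRel.eq (fpbit hV hx (FP.const 0) hj1 hc1) (FP.const 1))
        (PolyRel.eq (fpbit hV hx (FP.const 0) hj2 hc2) hbw)
    · exact PolyRel.imp (PolyRel.eq (fpbit hV hx (FP.const 0) hj1 hc1) (FP.const 1)).not
        (PolyRel.eq (fpbit hV hx (FP.const 1) hj2 hc3) hbw)
  let p2 : Polynomial ℕ := 10 * Polynomial.X + 100
  let p1 : Polynomial ℕ := 30 * Polynomial.X + 303
  refine ⟨p1, fun w => ∀ z < 2 ^ (p2.eval (len w)), T (Fin.cons z w),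
    ⟨p2, fun u => ¬ T u, hT.congr fun v => by simp, fun v => by push Not; rfl⟩, ?_⟩
  intro v
  set x := v 0 with hxv
  set s := Nat.size x with hsx
  have hlen1 : len v = s := by simp [len, hsx, hxv]
  have hp1 : p1.eval (len v) = 3 * tt s + 3 := by
    rw [hlen1]
    simp only [p1, Polynomial.eval_add, Polynomial.eval_mul, Polynomial.eval_ofNat,
      Polynomial.eval_X, tt, sg]
    ring
  have hp2 : ∀ y, tt s ≤ p2.eval (len (Fin.cons y v : Fin 2 → ℕ)) := by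
    intro y
    have : len (Fin.cons y v : Fin 2 → ℕ) = Nat.size y + s := by
      simp [len, Fin.sum_univ_succ, hsx, hxv]
    rw [this]
    simp only [p2, Polynomial.eval_add, Polynomial.eval_mul, Polynomial.eval_ofNat,
      Polynomial.eval_X, tt, sg]
    omega
  have hBpos : 0 < BB s := Nat.two_pow_pos _
  -- reduce to a statement about `T`
  have e0 : ∀ z y, (Fin.cons z (Fin.cons y v : Fin 2 → ℕ) : Fin 3 → ℕ) 0 = z := fun _ _ => rfl
  have e1 : ∀ z y, (Fin.cons z (Fin.cons y v : Fin 2 → ℕ) : Fin 3 → ℕ) 1 = y := fun _ _ => rfl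
  have e2 : ∀ z y, (Fin.cons z (Fin.cons y v : Fin 2 → ℕ) : Fin 3 → ℕ) 2 = x := fun _ _ => rfl
  -- bits for a valid code
  have main : ∀ (P : SLP) (i b : ℕ), Valid P → b ≤ 1 → x = code P i b →
      ∀ σ j, 1 ≤ j → j ≤ 2 ^ s + 1 → ∀ b', XX s P σ / 2 ^ (j - 1) % 2 = b' ↔
        ∃ c ≤ 1, ∃ k0 < BB s, (∀ z < BB s, Cz (bt s) (BB s) (S4 xm x σ j) c k0 z) ∧
          bitv s (S4 xm x σ j) c = b' := by
    intro P i b hP hb hx σ j hj hj' b'
    obtain ⟨-, -, hv⟩ := hValue P i b hP hb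
    rw [← hx, ← hsx] at hv
    obtain ⟨-, -, hq⟩ := hval P i b hP hb
    rw [← hx] at hq
    exact bit_iff hBit hCarry s j (XX s P σ) hj hj' (XX_lt s P σ hv)
      (fun q => xm ![x, σ, q]) (fun q hq1 => hq σ q hq1) b'
  constructor
  · -- membership implies the formula
    rintro ⟨P, i, b, hP, hb, hx, hbit⟩
    change x = code P i b at hx
    obtain ⟨hi, -, hv⟩ := hValue P i b hP hb
    rw [← hx, ← hsx] at hi hv
    obtain ⟨hix', hbx', -⟩ := hval P i b hP hb
    rw [← hx] at hix' hbx'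
    obtain ⟨d1, hd1, l1, hl1, hC1, hB1⟩ := (main P i b hP hb hx 0 (2 ^ s + 1) (by omega) le_rfl
      (XX s P 0 / 2 ^ (2 ^ s + 1 - 1) % 2)).1 (Eq.refl _)
    obtain ⟨d2, hd2, l2, hl2, hC2, hB2⟩ := (main P i b hP hb hx 0 (i + 1) (by omega) (by omega)
      (XX s P 0 / 2 ^ (i + 1 - 1) % 2)).1 (Eq.refl _)
    obtain ⟨d3, hd3, l3, hl3, hC3, hB3⟩ := (main P i b hP hb hx 1 (i + 1) (by omega) (by omega)
      (XX s P 1 / 2 ^ (i + 1 - 1) % 2)).1 (Eq.refl _)
    simp only [Nat.add_sub_cancel] at hB1 hB2 hB3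
    obtain ⟨y, hylt', hy1, hy2, hy3, hy4, hy5, hy6⟩ :=
      enc_exists (BB s) l1 l2 l3 d1 d2 d3 hBpos hl1 hl2 hl3 hd1 hd2 hd3
    have hylt : y < 2 ^ (p1.eval (len v)) := by
      have h8 : (2 : ℕ) ^ (p1.eval (len v)) = BB s * (BB s * (BB s * 8)) := by
        rw [hp1]
        unfold BB
        rw [pow_add, mul_comm 3 (tt s), pow_mul]; ring
      rw [h8]; exact hylt'
    refine ⟨y, hylt, fun z _ => ?_⟩
    have f1 : c1 (Fin.cons z (Fin.cons y v : Fin 2 → ℕ)) = d1 := hy4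
    have f2 : c2 (Fin.cons z (Fin.cons y v : Fin 2 → ℕ)) = d2 := hy5
    have f3 : c3 (Fin.cons z (Fin.cons y v : Fin 2 → ℕ)) = d3 := hy6
    have m1 : k1 (Fin.cons z (Fin.cons y v : Fin 2 → ℕ)) = l1 := hy1
    have m2 : k2 (Fin.cons z (Fin.cons y v : Fin 2 → ℕ)) = l2 := hy2
    have m3 : k3 (Fin.cons z (Fin.cons y v : Fin 2 → ℕ)) = l3 := hy3
    have n1 : j1 (Fin.cons z (Fin.cons y v : Fin 2 → ℕ)) = 2 ^ s + 1 := rfl
    have n2 : j2 (Fin.cons z (Fin.cons y v : Fin 2 → ℕ)) = i + 1 := by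
      show ix ![x] + 1 = i + 1
      rw [hix']
    have n3 : bw (Fin.cons z (Fin.cons y v : Fin 2 → ℕ)) = b := hbx'
    have hXp : XX s P 0 / 2 ^ (2 ^ s) % 2 = 1 ↔ 0 ≤ value P := by
      have := sign_bit (value P) (2 ^ s) hv
      simpa [XX] using this
    show W ![x] ∧ (z < BB s → _) ∧ _ ∧ _
    simp only [f1, f2, f3, m1, m2, m3, n1, n2, n3]
    refine ⟨(hWv x).2 ⟨P, i, b, hP, hb, hx⟩, fun hz => ⟨hC1 z hz, hC2 z hz, hC3 z hz⟩, ?_, ?_⟩
    · intro h
      change bitv s (S4 xm x 0 (2 ^ s + 1)) d1 = 1 at h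
      rw [hB1, hXp] at h
      change bitv s (S4 xm x 0 (i + 1)) d2 = b
      rw [hB2, ← hbit]
      have := bit_shift (value P) (2 ^ s) i hi h
      simpa [XX] using this
    · intro h
      change ¬ bitv s (S4 xm x 0 (2 ^ s + 1)) d1 = 1 at h
      rw [hB1, hXp] at h
      change bitv s (S4 xm x 1 (i + 1)) d3 = b
      rw [hB3, ← hbit]
      have := bit_shift (- value P) (2 ^ s) i hi (by omega)
      rw [Int.natAbs_neg] at this
      simpa [XX] using this
  · -- the formula implies membership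
    rintro ⟨y, _, hy⟩
    have hT' : ∀ z < BB s, T (Fin.cons z (Fin.cons y v : Fin 2 → ℕ)) := by
      intro z hz
      refine hy z (lt_of_lt_of_le hz ?_)
      exact Nat.pow_le_pow_right (by norm_num) (hp2 y)
    obtain ⟨hWx, -, -, -⟩ := hT' 0 hBpos
    change W ![x] at hWx
    obtain ⟨P, i, b, hP, hb, hx⟩ := (hWv x).1 hWx
    obtain ⟨hi, -, hv⟩ := hValue P i b hP hb
    rw [← hx, ← hsx] at hi hv
    obtain ⟨hix', hbx', -⟩ := hval P i b hP hb
    rw [← hx] at hix' hbx'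
    refine ⟨P, i, b, hP, hb, hx, ?_⟩
    have n2 : ∀ z, j2 (Fin.cons z (Fin.cons y v : Fin 2 → ℕ)) = i + 1 := by
      intro z
      show ix ![x] + 1 = i + 1
      rw [hix']
    have n3 : ∀ z, bw (Fin.cons z (Fin.cons y v : Fin 2 → ℕ)) = b := fun _ => hbx'
    obtain ⟨-, -, hf1, hf2⟩ := hT' 0 hBpos
    set d1 := c1 (Fin.cons 0 (Fin.cons y v : Fin 2 → ℕ)) with hd1
    set d2 := c2 (Fin.cons 0 (Fin.cons y v : Fin 2 → ℕ)) with hd2
    set d3 := c3 (Fin.cons 0 (Fin.cons y v : Fin 2 → ℕ)) with hd3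
    set l1 := k1 (Fin.cons 0 (Fin.cons y v : Fin 2 → ℕ)) with hl1
    set l2 := k2 (Fin.cons 0 (Fin.cons y v : Fin 2 → ℕ)) with hl2
    set l3 := k3 (Fin.cons 0 (Fin.cons y v : Fin 2 → ℕ)) with hl3
    have hC1 : ∀ z < BB s, Cz (bt s) (BB s) (S4 xm x 0 (2 ^ s + 1)) d1 l1 z := by
      intro z hz; exact ((hT' z hz).2.1 hz).1
    have hC2 : ∀ z < BB s, Cz (bt s) (BB s) (S4 xm x 0 (i + 1)) d2 l2 z := by
      intro z hz
      have := ((hT' z hz).2.1 hz).2.1
      rw [n2 z] at this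
      exact this
    have hC3 : ∀ z < BB s, Cz (bt s) (BB s) (S4 xm x 1 (i + 1)) d3 l3 z := by
      intro z hz
      have := ((hT' z hz).2.1 hz).2.2
      rw [n2 z] at this
      exact this
    have hm : ∀ u : ℕ, u % 2 ≤ 1 := fun u => by omega
    have hr1 := (main P i b hP hb hx 0 (2 ^ s + 1) (by omega) le_rfl
      (bitv s (S4 xm x 0 (2 ^ s + 1)) d1)).2
      ⟨d1, hm _, l1, Nat.mod_lt _ hBpos, hC1, rfl⟩
    have hr2 := (main P i b hP hb hx 0 (i + 1) (by omega) (by omega)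
      (bitv s (S4 xm x 0 (i + 1)) d2)).2
      ⟨d2, hm _, l2, Nat.mod_lt _ hBpos, hC2, rfl⟩
    have hr3 := (main P i b hP hb hx 1 (i + 1) (by omega) (by omega)
      (bitv s (S4 xm x 1 (i + 1)) d3)).2
      ⟨d3, hm _, l3, Nat.mod_lt _ hBpos, hC3, rfl⟩
    simp only [Nat.add_sub_cancel] at hr1 hr2 hr3
    have hXp : XX s P 0 / 2 ^ (2 ^ s) % 2 = 1 ↔ 0 ≤ value P := by
      have := sign_bit (value P) (2 ^ s) hv
      simpa [XX] using this
    by_cases hc : 0 ≤ value P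
    · have h1 := hXp.2 hc
      rw [hr1] at h1
      have h2 := hf1 h1
      rw [n2 0, n3 0] at h2
      change bitv s (S4 xm x 0 (i + 1)) d2 = b at h2
      rw [h2] at hr2
      rw [← hr2]
      have := bit_shift (value P) (2 ^ s) i hi hc
      simpa [XX] using this.symm
    · have h1 : ¬ XX s P 0 / 2 ^ (2 ^ s) % 2 = 1 := fun h => hc (hXp.1 h)
      rw [hr1] at h1
      have h2 := hf2 h1
      rw [n2 0, n3 0] at h2
      change bitv s (S4 xm x 1 (i + 1)) d3 = b at h2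
      rw [h2] at hr3
      rw [← hr3]
      have := bit_shift (- value P) (2 ^ s) i hi (by omega)
      rw [Int.natAbs_neg] at this
      simpa [XX] using this.symm

end MP21c4c4
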