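import Pool.Agent.Lib.MP_21c4c4_lc.Defs

/-!
# MP_21c4c4_lc: parameters and exact module statements.
Paper proof: /team-store/MP_21c4c4_lc_PROOF.md
-/

open scoped Classical
open Finset

noncomputable section

namespace MP21c4c4

/-! ### Parameters (`s` = binary length of the input) -/

def sg (s : ℕ) : ℕ := s + 10
def tt (s : ℕ) : ℕ := 10 * sg s
def nn (s : ℕ) : ℕ := 2 ^ tt s
def rr (s : ℕ) : ℕ := 6 * sg s
def ww (s : ℕ) : ℕ := 2 ^ rr s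
def KK (s : ℕ) : ℕ := 2 ^ (8 * sg s)
def FF (s : ℕ) : ℕ := tt s + 2
def LL (s : ℕ) : ℕ := FF s * (11 + 2 * FF s)
def bt (s : ℕ) : ℕ := LL s + 2
def BB (s : ℕ) : ℕ := 2 ^ tt s
def jp (s j : ℕ) : ℕ := rr s * KK s + j

/-! ### The integers R and G, the rational alpha -/

/-- number of surjections `[K] → [w]` (as an alternating sum) -/
def RR (w K : ℕ) : ℤ := ∑ h ∈ range (w + 1), (-1) ^ (w - h) * (w.choose h : ℤ) * (h : ℤ) ^ K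

def GG (n j' : ℕ) : ℕ :=
  ∑ l ∈ (range (n + 1)).filter (fun l => j' ≤ l ∧ 2 ∣ l),
    n.choose l * (n - l).choose ((n - l) / 2) * 2 ^ (l - j')

def alpha (s j : ℕ) : ℚ :=
  (RR (ww s) (KK s) : ℚ) * (GG (nn s) (jp s j) : ℚ) / (Nat.centralBinom (nn s) : ℚ)

/-! ### Elementary identities -/

/-- module BETA -/
def SpecBeta : Prop := ∀ n : ℕ,
  ∑ a ∈ range (n + 1), ((-1 : ℚ) ^ a * (n.choose a : ℚ) / ((n : ℚ) + 1 + a)) =
    1 / ((2 * n + 1) * (Nat.centralBinom n : ℚ))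

/-- module TRI -/
def SpecTri : Prop := ∀ n : ℕ, 2 ∣ n →
  Nat.centralBinom n =
    ∑ l ∈ (range (n + 1)).filter (fun l => 2 ∣ l), n.choose l * (n - l).choose ((n - l) / 2) * 2 ^ l

/-- module TRI -/
def SpecGG : Prop := ∀ n j' : ℕ, 2 ∣ n → 2 ≤ n →
  2 ^ j' * GG n j' ≤ Nat.centralBinom n ∧
    Nat.centralBinom n ≤ 2 ^ j' * GG n j' + 2 ^ n * n ^ j'

/-- module SURJ -/
def SpecSurj : Prop := ∀ w K : ℕ, 1 ≤ w →
  ((w.factorial : ℕ) : ℤ) ∣ RR w K ∧ RR w K ≤ (w : ℤ) ^ K ∧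
    (w : ℤ) ^ K - w * ((w : ℤ) - 1) ^ K ≤ RR w K

/-- one summand of the binomial coefficient `C(N,k)` modulo the prime `q` -/
def fx (q u N k : ℕ) : ℕ :=
  if k = 0 then (if u = 0 then 1 else 0) else q - ((1 + u) ^ N * u ^ (q - 1 - k)) % q

/-- module EXT -/
def SpecExt : Prop := ∀ q N k : ℕ, q.Prime → N < q → k < q →
  (∑ u ∈ range q, fx q u N k) ≡ N.choose k [MOD q]

/-- valid ordered factorization of `q` with padding by ones at the end -/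
def okT (F q : ℕ) (g : ℕ → ℕ) : Prop :=
  (∀ i < F, 1 ≤ g i) ∧ (∀ i j, i < j → j < F → g i = 1 → g j = 1) ∧ ∏ i ∈ range F, g i = q

/-- number of factors different from one -/
def cntT (F : ℕ) (g : ℕ → ℕ) : ℕ := ((range F).filter (fun i => g i ≠ 1)).card

/-- extension by zero of a finite tuple -/
def ext {m M : ℕ} (g : Fin m → Fin M) : ℕ → ℕ := fun i => if h : i < m then (g ⟨i, h⟩ : ℕ) else 0

/-- module PRIMEW: exact primality weights -/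
def SpecPrimeW : Prop := ∀ F q : ℕ, 2 ≤ q → q < 2 ^ F →
  ∑ g : Fin F → Fin (2 ^ F), ∑ g' : Fin F → Fin (2 ^ F),
    (if okT F q (ext g) ∧ okT F q (ext g') then
      (-1 : ℤ) ^ (cntT F (ext g) + cntT F (ext g')) *
        ((F.factorial / cntT F (ext g) : ℕ) : ℤ) else 0) =
    if q.Prime then (F.factorial : ℤ) else 0

/-- module SMOOTH -/
def SpecSmooth : Prop := ∀ w M m : ℕ,
  (∀ p e : ℕ, p.Prime → p ≤ w → 1 ≤ e → p ^ e ≤ M → p * e ≤ w) → 1 ≤ m → m ≤ M →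
  (∀ q : ℕ, q.Prime → q ∣ m → q ≤ w) → m ∣ w.factorial

/-- module PARAM: inequalities between the parameters -/
def SpecParam : Prop := ∀ s : ℕ,
  (2 * nn s + 1 < ww s ^ 2) ∧
  (∀ p e : ℕ, p.Prime → p ≤ ww s → 1 ≤ e → p ^ e ≤ 2 * nn s + 1 → p * e ≤ ww s) ∧
  (bt s * (2 ^ s + 2) + 2 ^ s + 4 + rr s ≤ 2 ^ (2 * sg s)) ∧
  (∀ j ≤ 2 ^ s + 1, 2 * (tt s * jp s j) ≤ nn s) ∧
  (2 * (tt s + 1 + 2 ^ (2 * sg s)) ≤ nn s) ∧
  (2 ^ s + 2 < BB s) ∧ (LL s + bt s * (2 ^ s + 2) + 1 ≤ bt s * BB s) ∧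
  (2 * nn s + 1 < 2 ^ FF s) ∧ (FF s < ww s)

/-! ### The exact formula -/

def cc (s j X a q : ℕ) : ℤ :=
  (-1) ^ a * (2 * nn s + 1) * ((nn s).choose a : ℤ) * RR (ww s) (KK s) *
    (GG (nn s) (jp s j) : ℤ) * X * (((nn s + 1 + a) / q : ℕ) : ℤ) ^ (q - 2)

/-- module EXACT (from SpecBeta, SpecSurj, SpecSmooth, SpecParam) -/
def SpecExact : Prop := ∀ s j X : ℕ, ∃ z : ℤ,
  alpha s j * X = z + ∑ a ∈ range (nn s + 1),
    ∑ q ∈ (range (2 * nn s + 2)).filter (fun q => q.Prime ∧ ww s < q ∧ q ∣ nn s + 1 + a),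
      (cc s j X a q : ℚ) / q

/-! ### The exponential sum.  Fields of the index: 0 = a, 1 = q, 2 = l, 3 = h, 4,…,10 = u_1,…,u_7,
11,…,11+F-1 = first factorization, 11+F,…,11+2F-1 = second factorization. -/

/-- field number `i` of the index -/
def fld (s idx i : ℕ) : ℕ := idx / 2 ^ (FF s * i) % 2 ^ (FF s)

def Good (s j : ℕ) (g : ℕ → ℕ) : Prop :=
  g 0 ≤ nn s ∧ ww s < g 1 ∧ g 1 ∣ nn s + 1 + g 0 ∧ jp s j ≤ g 2 ∧ g 2 ≤ nn s ∧ 2 ∣ g 2 ∧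
  g 3 ≤ ww s ∧ (∀ i < 7, g (4 + i) < g 1) ∧
  okT (FF s) (g 1) (fun i => g (11 + i)) ∧ okT (FF s) (g 1) (fun i => g (11 + FF s + i))

/-- the part of the numerator without the factorizations; `xm` is the residue of `X` mod `q` -/
def core (s j xm : ℕ) (g : ℕ → ℕ) : ℕ :=
  (g 1 - 1) ^ (g 0 + g 3) * (2 * nn s + 1) *
  (fx (g 1) (g 4) (nn s / g 1) (g 0 / g 1) * fx (g 1) (g 5) (nn s % g 1) (g 0 % g 1)) *
  (g 3 ^ KK s * fx (g 1) (g 6) (ww s) (g 3)) *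
  (2 ^ (g 2 - jp s j) * fx (g 1) (g 7) (nn s / g 1) (g 2 / g 1) *
    fx (g 1) (g 8) (nn s % g 1) (g 2 % g 1) *
    fx (g 1) (g 9) ((nn s - g 2) / g 1) (((nn s - g 2) / 2) / g 1) *
    fx (g 1) (g 10) ((nn s - g 2) % g 1) (((nn s - g 2) / 2) % g 1)) *
  xm * ((nn s + 1 + g 0) / g 1) ^ (g 1 - 2) * (FF s).factorial ^ (g 1 - 2)

/-- weight of the two factorizations -/
def wgt (s : ℕ) (g : ℕ → ℕ) : ℕ :=
  (g 1 - 1) ^ (cntT (FF s) (fun i => g (11 + i)) + cntT (FF s) (fun i => g (11 + FF s + i))) *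
    ((FF s).factorial / cntT (FF s) (fun i => g (11 + i)))

def num (s j : ℕ) (xm : ℕ → ℕ) (g : ℕ → ℕ) : ℕ :=
  if Good s j g then (core s j (xm (g 1)) g * wgt s g) % g 1 else 0

def den (s j : ℕ) (g : ℕ → ℕ) : ℕ := if Good s j g then g 1 else 1

/-- module SUM (from SpecExact, SpecExt, SpecPrimeW, SpecParam; Lucas) -/
def SpecSum : Prop := ∀ s j X : ℕ, ∃ z : ℤ,
  ∑ idx ∈ range (2 ^ LL s),
    (num s j (fun q => X % q) (fld s idx) : ℚ) / (den s j (fld s idx) : ℚ) =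
    alpha s j * X + z

/-! ### Bits -/

/-- block number `k` (of length `bt s`) of the binary fraction `num / den` -/
def blk (s j : ℕ) (xm : ℕ → ℕ) (k idx : ℕ) : ℕ :=
  2 ^ bt s * ((2 ^ (bt s * (BB s - 1 - k)) * num s j xm (fld s idx)) % den s j (fld s idx)) /
    den s j (fld s idx)

def VV (s j : ℕ) (xm : ℕ → ℕ) (k : ℕ) : ℕ := ∑ idx ∈ range (2 ^ LL s), blk s j xm k idx

/-- the block sums with the offset added, `V'` -/
def VO (s : ℕ) (V : ℕ → ℕ) (k : ℕ) : ℕ := V k + (if k + 2 ^ s + 2 = BB s then 1 else 0)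

def SS (s : ℕ) (V : ℕ → ℕ) (k : ℕ) : ℕ :=
  VO s V k % 2 ^ bt s + (if k = 0 then 0 else VO s V (k - 1) / 2 ^ bt s)

/-- module APPROX (from SpecGG, SpecSurj, SpecParam) -/
def SpecApprox : Prop := ∀ s j X : ℕ, 1 ≤ j → j ≤ 2 ^ s + 1 → X < 2 ^ (2 ^ s + 1) →
  alpha s j * X ≤ (X : ℚ) / 2 ^ j ∧
    (X : ℚ) / 2 ^ j ≤ alpha s j * X + 1 / 2 ^ (bt s * (2 ^ s + 2) + 1)

/-- module BIT (from SpecSum, SpecApprox, SpecParam) -/
def SpecBit : Prop := ∀ s j X : ℕ, 1 ≤ j → j ≤ 2 ^ s + 1 → X < 2 ^ (2 ^ s + 1) →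
  (∀ k < BB s, SS s (VV s j (fun q => X % q)) k + 2 ≤ 2 ^ (bt s + 1)) ∧
  (∑ k ∈ range (BB s), SS s (VV s j (fun q => X % q)) k * 2 ^ (bt s * k)) /
      2 ^ (bt s * BB s - 1) % 2 = X / 2 ^ (j - 1) % 2

/-- carry look-ahead condition -/
def Cz (β B : ℕ) (S : ℕ → ℕ) (c k0 z : ℕ) : Prop :=
  (c = 1 → k0 + 1 < B ∧ 2 ^ β ≤ S k0) ∧
  (c = 0 → k0 + 1 < B → S k0 + 2 ≤ 2 ^ β) ∧
  (z + 1 < B → (k0 < z ∨ k0 + 1 = B) → S z + 1 = 2 ^ β)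

/-- module CARRY -/
def SpecCarry : Prop := ∀ (β B : ℕ) (S : ℕ → ℕ), 1 ≤ β → 1 ≤ B →
  (∀ k < B, S k + 2 ≤ 2 ^ (β + 1)) → ∀ b : ℕ,
  ((∑ k ∈ range B, S k * 2 ^ (β * k)) / 2 ^ (β * B - 1) % 2 = b ↔
    ∃ c ≤ 1, ∃ k0 < B, (∀ z < B, Cz β B S c k0 z) ∧ (S (B - 1) + c) / 2 ^ (β - 1) % 2 = b)

/-! ### Complexity modules -/

/-- `X⁺ = N(P) + 2^(2^s)` (for `σ = 0`) and `X⁻ = -N(P) + 2^(2^s)` (for `σ ≠ 0`) -/
def XX (s : ℕ) (P : SLP) (σ : ℕ) : ℕ :=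
  ((if σ = 0 then value P else - value P) + 2 ^ (2 ^ s)).toNat

/-- module VALUE: sizes -/
def SpecValue : Prop := ∀ (P : SLP) (i b : ℕ), Valid P → b ≤ 1 →
  i < 2 ^ Nat.size (code P i b) ∧ P.length + 1 ≤ Nat.size (code P i b) ∧
  |value P| < 2 ^ (2 ^ Nat.size (code P i b))

/-- module CODE: decoding and evaluating the program modulo `q` in polynomial time -/
def SpecCode : Prop := ∃ (xm : (Fin 3 → ℕ) → ℕ) (ix bx : (Fin 1 → ℕ) → ℕ) (W : (Fin 1 → ℕ) → Prop),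
  FP ∅ 3 xm ∧ FP ∅ 1 ix ∧ FP ∅ 1 bx ∧ PolyRel ∅ 1 W ∧
  (∀ x, W ![x] ↔ ∃ (P : SLP) (i b : ℕ), Valid P ∧ b ≤ 1 ∧ x = code P i b) ∧
  ∀ (P : SLP) (i b : ℕ), Valid P → b ≤ 1 →
    ix ![code P i b] = i ∧ bx ![code P i b] = b ∧
    ∀ σ q, 1 ≤ q → xm ![code P i b, σ, q] = XX (Nat.size (code P i b)) P σ % q

/-- module BLK: the block function is polynomial time; arguments `x, σ, j, k, idx` -/
def SpecBlk : Prop := ∀ xm : (Fin 3 → ℕ) → ℕ, FP ∅ 3 xm →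
  FP ∅ 5 (fun v => blk (Nat.size (v 0)) (v 2) (fun q => xm ![v 0, v 1, q]) (v 3) (v 4))

/-- module COUNT: exponential counting is polynomial time with a PP oracle -/
def SpecCount : Prop := ∀ (k : ℕ) (G : (Fin (k + 1) → ℕ) → Prop) (b : (Fin k → ℕ) → ℕ)
    (p : Polynomial ℕ), PolyRel ∅ (k + 1) G → FP ∅ k b → (∀ v, b v ≤ 2 ^ (p.eval (len v))) →
  ∃ A ∈ PP, FP A k (fun v => ((range (b v)).filter (fun z => G (Fin.cons z v))).card)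

/-- module FINAL (from all the others) -/
def SpecFinal : Prop := BitSLP ∈ SigmaPP 2

end MP21c4c4
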