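import Pool.Agent.Lib.MP_21c4c4_lc.Spec

section
/-!
# MP_21c4c4_lc, module PARAM: inequalities between the parameters.
-/
namespace MP21c4c4

namespace Param

lemma lin (s : ℕ) : 100 * (s + 10) ≤ 2 ^ (s + 10) := by
  induction s with
  | zero => norm_num
  | succ n ih =>
    have h : 2 ^ (n + 1 + 10) = 2 * 2 ^ (n + 10) := by
      rw [show n + 1 + 10 = (n + 10) + 1 by ring, pow_succ]; ring
    rw [h]
    omega

lemma sq_le (s : ℕ) : s ^ 2 ≤ 2 * 2 ^ s := by
  induction s with
  | zero => norm_num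
  | succ n ih =>
    rcases Nat.lt_or_ge n 4 with h | h
    · interval_cases n <;> norm_num
    · have h1 : (n + 1) ^ 2 ≤ 2 * n ^ 2 := by nlinarith
      have h2 : 2 ^ (n + 1) = 2 * 2 ^ n := by rw [pow_succ]; ring
      rw [h2]
      omega

lemma bt_eq (s : ℕ) : bt s = 200 * s ^ 2 + 4190 * s + 21932 := by
  unfold bt LL FF tt sg
  ring

lemma c3 (s : ℕ) : bt s * (2 ^ s + 2) + 2 ^ s + 4 + rr s ≤ 2 ^ (2 * sg s) := by
  have h1 := sq_le s
  have h2 : s ≤ 2 ^ s := Nat.lt_two_pow_self.le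
  have h3 : 1 ≤ 2 ^ s := Nat.one_le_two_pow
  have h4 : 2 ^ (2 * sg s) = 1048576 * (2 ^ s * 2 ^ s) := by
    unfold sg
    rw [show 2 * (s + 10) = s + s + 20 by ring, pow_add, pow_add]
    norm_num
    ring
  rw [h4, bt_eq]
  unfold rr sg
  generalize 2 ^ s = x at *
  have h5 : 200 * s ^ 2 + 4190 * s + 21932 ≤ 26522 * x := by nlinarith
  have h6 : (200 * s ^ 2 + 4190 * s + 21932) * (x + 2) ≤ 26522 * x * (3 * x) := by
    apply Nat.mul_le_mul h5
    omega
  have h7 : x ≤ x * x := Nat.le_mul_self x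
  nlinarith

lemma pw (s k : ℕ) : 2 ^ (k * sg s) = (2 ^ (s + 10)) ^ k := by
  unfold sg
  rw [← pow_mul]
  ring_nf

end Param

open Param in
/-- module PARAM -/
theorem specParam : SpecParam := by
  intro s
  have hl := lin s
  have hy : 1024 ≤ 2 ^ (s + 10) := by
    rw [pow_add]
    have : 1 ≤ 2 ^ s := Nat.one_le_two_pow
    norm_num
    omega
  have hsy : 2 ^ s + 3 ≤ 2 ^ (s + 10) := by
    rw [pow_add]
    have : 1 ≤ 2 ^ s := Nat.one_le_two_pow
    norm_num
    omega
  have hn : nn s = (2 ^ (s + 10)) ^ 10 := by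
    unfold nn tt
    exact pw s 10
  have hw : ww s = (2 ^ (s + 10)) ^ 6 := by
    unfold ww rr
    exact pw s 6
  have hK : KK s = (2 ^ (s + 10)) ^ 8 := by
    unfold KK
    exact pw s 8
  have hB : BB s = (2 ^ (s + 10)) ^ 10 := by
    unfold BB tt
    exact pw s 10
  have hE : 2 ^ (2 * sg s) = (2 ^ (s + 10)) ^ 2 := pw s 2
  have hsg : sg s = s + 10 := rfl
  have hpos : ∀ k : ℕ, 0 < (2 ^ (s + 10)) ^ k := fun k => by positivity
  have hself : 2 ^ (s + 10) ≤ (2 ^ (s + 10)) ^ 10 := by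
    calc 2 ^ (s + 10) = (2 ^ (s + 10)) ^ 1 := (pow_one _).symm
      _ ≤ _ := Nat.pow_le_pow_right (by positivity) (by norm_num)
  refine ⟨?_, ?_, c3 s, ?_, ?_, ?_, ?_, ?_, ?_⟩
  · rw [hn, hw]
    have h1 : ((2 ^ (s + 10)) ^ 6) ^ 2 = (2 ^ (s + 10)) ^ 10 * (2 ^ (s + 10)) ^ 2 := by
      rw [← pow_add, ← pow_mul]
    rw [h1]
    have h2 : 1024 * 1024 ≤ (2 ^ (s + 10)) ^ 2 := by nlinarith
    have h3 := hpos 10
    nlinarith
  · intro p e hp hpw he hpe
    rcases Nat.eq_or_lt_of_le he with h1 | h1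
    · rw [← h1, mul_one]; exact hpw
    · have h2 : 2 ≤ p := hp.two_le
      have hn' : 2 * nn s + 1 < 2 ^ (10 * (s + 10) + 2) := by
        unfold nn tt sg
        have : 2 ^ (10 * (s + 10) + 2) = 4 * 2 ^ (10 * (s + 10)) := by
          rw [pow_add]; ring
        rw [this]
        have : 0 < 2 ^ (10 * (s + 10)) := by positivity
        omega
      have h3 : p < 2 ^ (5 * (s + 10) + 1) := by
        by_contra hcon
        push Not at hcon
        have h4 : p ^ 2 ≤ p ^ e := Nat.pow_le_pow_right (by omega) h1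
        have h5 : (2 ^ (5 * (s + 10) + 1)) ^ 2 ≤ p ^ 2 := Nat.pow_le_pow_left hcon 2
        have h6 : (2 ^ (5 * (s + 10) + 1)) ^ 2 = 2 ^ (10 * (s + 10) + 2) := by
          rw [← pow_mul]; ring_nf
        omega
      have h4 : e < 10 * (s + 10) + 2 := by
        have h5 : 2 ^ e ≤ p ^ e := Nat.pow_le_pow_left h2 e
        exact (Nat.pow_lt_pow_iff_right (by norm_num : 1 < 2)).1 (by omega : 2 ^ e < 2 ^ (10 * (s + 10) + 2))
      have h5 : 2 * e ≤ 2 ^ (s + 10) := by omega
      have h6 : ww s = 2 ^ (5 * (s + 10)) * 2 ^ (s + 10) := by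
        unfold ww rr sg
        rw [← pow_add]; ring_nf
      have h7 : 2 ^ (5 * (s + 10) + 1) = 2 * 2 ^ (5 * (s + 10)) := by
        rw [pow_succ]; ring
      rw [h6]
      calc p * e ≤ (2 * 2 ^ (5 * (s + 10))) * e := Nat.mul_le_mul_right _ (by omega)
        _ = 2 ^ (5 * (s + 10)) * (2 * e) := by ring
        _ ≤ _ := Nat.mul_le_mul_left _ h5
  · intro j hj
    unfold jp tt rr
    rw [hn, hK, hsg]
    generalize 2 ^ (s + 10) = y at *
    generalize s + 10 = t at *
    have h1 : 100 * t * (100 * t) ≤ y * y := Nat.mul_le_mul hl hl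
    have h2 : 2 * (10 * t * (6 * t * y ^ 8 + j)) = (120 * (t * t)) * y ^ 8 + 20 * t * j := by ring
    have h3 : y ^ 10 = (y * y) * y ^ 8 := by ring
    have h4 : 2 * (120 * (t * t)) ≤ y * y := by nlinarith
    have h5 : j ≤ y := by omega
    have h6 : 2 * (20 * t * j) ≤ y * y := by
      have : 2 * (20 * t) ≤ y := by omega
      calc 2 * (20 * t * j) = (2 * (20 * t)) * j := by ring
        _ ≤ _ := Nat.mul_le_mul this h5
    have h7 : y * y ≤ (y * y) * y ^ 8 := Nat.le_mul_of_pos_right _ (hpos 8)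
    rw [h2, h3]
    have h8 : 2 * (120 * (t * t)) * y ^ 8 ≤ (y * y) * y ^ 8 := Nat.mul_le_mul_right _ h4
    nlinarith
  · unfold tt
    rw [hn, hE, hsg]
    have h3 : (2 ^ (s + 10)) ^ 10 = (2 ^ (s + 10)) ^ 2 * (2 ^ (s + 10)) ^ 8 := by
      rw [← pow_add]
    have h4 : 2 ^ (s + 10) ≤ (2 ^ (s + 10)) ^ 2 := by nlinarith
    have h5 : 1024 ≤ (2 ^ (s + 10)) ^ 8 := by
      calc 1024 ≤ 2 ^ (s + 10) := hy
        _ = (2 ^ (s + 10)) ^ 1 := (pow_one _).symm
        _ ≤ _ := Nat.pow_le_pow_right (by positivity) (by norm_num)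
    rw [h3]
    generalize (2 ^ (s + 10)) ^ 8 = u at *
    generalize (2 ^ (s + 10)) ^ 2 = v at *
    nlinarith
  · rw [hB]
    omega
  · have h1 : LL s + 2 = bt s := rfl
    have h2 : 2 ^ s + 3 ≤ BB s := by rw [hB]; omega
    have h3 : bt s * (2 ^ s + 3) ≤ bt s * BB s := Nat.mul_le_mul_left _ h2
    have h4 : bt s * (2 ^ s + 3) = bt s * (2 ^ s + 2) + bt s := by ring
    omega
  · unfold FF nn
    have h1 : 2 ^ (tt s + 2) = 4 * 2 ^ tt s := by rw [pow_add]; ring
    have : 0 < 2 ^ tt s := by positivity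
    rw [h1]
    omega
  · unfold FF tt
    rw [hw, hsg]
    have h3 : 2 ^ (s + 10) ≤ (2 ^ (s + 10)) ^ 6 := by
      calc 2 ^ (s + 10) = (2 ^ (s + 10)) ^ 1 := (pow_one _).symm
        _ ≤ _ := Nat.pow_le_pow_right (by positivity) (by norm_num)
    omega

end MP21c4c4
end

section
/-!
# MP_21c4c4_lc, module PRIMEW: exact primality weights
-/
open scoped Classical
open Finset ArithmeticFunction
open scoped ArithmeticFunction.zeta ArithmeticFunction.Moebius

noncomputable section

namespace MP21c4c4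

namespace PrimeW

/-- `ζ - 1` as a Dirichlet series -/
def ee (R : Type) [CommRing R] : ArithmeticFunction R := (ζ : ArithmeticFunction R) - 1

lemma ee_apply (R : Type) [CommRing R] (n : ℕ) : ee R n = if 2 ≤ n then 1 else 0 := by
  unfold ee
  rw [sub_eq_add_neg, ArithmeticFunction.add_apply, ArithmeticFunction.neg_apply]
  rcases n with _ | _ | n
  · simp
  · simp
  · have : n + 1 + 1 ≠ 1 := by omega
    simp [ArithmeticFunction.natCoe_apply, ArithmeticFunction.zeta_apply]

/-- weighted sum over the padded factorizations -/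
def WW (M F n : ℕ) (φ : ℕ → ℤ) : ℤ :=
  ∑ g : Fin F → Fin M, if okT F n (ext g) then φ (cntT F (ext g)) else 0

lemma ext_cons_zero {F M : ℕ} (a : Fin M) (g : Fin F → Fin M) :
    ext (Fin.cons a g : Fin (F + 1) → Fin M) 0 = a := by
  simp [ext]

lemma ext_cons_succ {F M : ℕ} (a : Fin M) (g : Fin F → Fin M) (i : ℕ) :
    ext (Fin.cons a g : Fin (F + 1) → Fin M) (i + 1) = ext g i := by
  unfold ext
  by_cases h : i < F
  · have h1 : i + 1 < F + 1 := by omega
    rw [dif_pos h1, dif_pos h]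
    have : (⟨i + 1, h1⟩ : Fin (F + 1)) = Fin.succ ⟨i, h⟩ := rfl
    rw [this, Fin.cons_succ]
  · have h1 : ¬ i + 1 < F + 1 := by omega
    rw [dif_neg h1, dif_neg h]

lemma cntT_cons {F M : ℕ} (a : Fin M) (g : Fin F → Fin M) :
    cntT (F + 1) (ext (Fin.cons a g : Fin (F + 1) → Fin M)) =
      cntT F (ext g) + (if (a : ℕ) = 1 then 0 else 1) := by
  unfold cntT
  rw [card_filter, card_filter, sum_range_succ']
  simp only [ext_cons_zero, ext_cons_succ]
  congr 1
  by_cases h : (a : ℕ) = 1 <;> simp [h]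

lemma okT_cons_big {F M n : ℕ} (hn : 1 ≤ n) (a : Fin M) (ha : 2 ≤ (a : ℕ)) (g : Fin F → Fin M) :
    okT (F + 1) n (ext (Fin.cons a g : Fin (F + 1) → Fin M)) ↔
      ((a : ℕ) ∣ n ∧ okT F (n / a) (ext g)) := by
  unfold okT
  rw [prod_range_succ']
  simp only [ext_cons_zero, ext_cons_succ]
  constructor
  · rintro ⟨h1, h2, h3⟩
    refine ⟨⟨_, by rw [← h3, mul_comm]⟩, ?_, ?_, ?_⟩
    · intro i hi
      have := h1 (i + 1) (by omega)
      rwa [ext_cons_succ] at this
    · intro i j hij hj hgi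
      have := h2 (i + 1) (j + 1) (by omega) (by omega)
      rw [ext_cons_succ, ext_cons_succ] at this
      exact this hgi
    · rw [← h3, Nat.mul_div_cancel _ (by omega)]
  · rintro ⟨h0, h1, h2, h3⟩
    refine ⟨?_, ?_, ?_⟩
    · intro i hi
      rcases i with _ | i
      · rw [ext_cons_zero]; omega
      · rw [ext_cons_succ]; exact h1 i (by omega)
    · intro i j hij hj hgi
      rcases j with _ | j
      · omega
      · rcases i with _ | i
        · rw [ext_cons_zero] at hgi; omega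
        · rw [ext_cons_succ] at hgi ⊢
          exact h2 i j (by omega) (by omega) hgi
    · rw [h3, Nat.div_mul_cancel h0]

lemma okT_cons_one {F M n : ℕ} (a : Fin M) (ha : (a : ℕ) = 1) (g : Fin F → Fin M) :
    okT (F + 1) n (ext (Fin.cons a g : Fin (F + 1) → Fin M)) ↔
      (n = 1 ∧ ∀ i < F, ext g i = 1) := by
  unfold okT
  rw [prod_range_succ']
  simp only [ext_cons_zero, ext_cons_succ]
  constructor
  · rintro ⟨h1, h2, h3⟩
    have hg : ∀ i < F, ext g i = 1 := by
      intro i hi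
      have := h2 0 (i + 1) (by omega) (by omega)
      rw [ext_cons_succ, ext_cons_zero] at this
      exact this ha
    refine ⟨?_, hg⟩
    rw [← h3, ha, mul_one]
    exact prod_eq_one (fun i hi => hg i (mem_range.1 hi))
  · rintro ⟨h0, h1⟩
    refine ⟨?_, ?_, ?_⟩
    · intro i hi
      rcases i with _ | i
      · rw [ext_cons_zero]; omega
      · rw [ext_cons_succ, h1 i (by omega)]
    · intro i j hij hj hgi
      rcases j with _ | j
      · omega
      · rw [ext_cons_succ]; exact h1 j (by omega)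
    · rw [ha, mul_one, h0]
      exact prod_eq_one (fun i hi => h1 i (mem_range.1 hi))

lemma not_okT_cons_zero {F M n : ℕ} (a : Fin M) (ha : (a : ℕ) = 0) (g : Fin F → Fin M) :
    ¬ okT (F + 1) n (ext (Fin.cons a g : Fin (F + 1) → Fin M)) := by
  rintro ⟨h1, _, _⟩
  have := h1 0 (by omega)
  rw [ext_cons_zero] at this
  omega

lemma cntT_eq_zero {F : ℕ} {g : ℕ → ℕ} (h : ∀ i < F, g i = 1) : cntT F g = 0 := by
  unfold cntT
  rw [card_eq_zero, filter_eq_empty_iff]
  intro i hi
  simp [h i (mem_range.1 hi)]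

lemma WW_succ (M F n : ℕ) (hM : 2 ≤ M) (hn : 1 ≤ n) (φ : ℕ → ℤ) :
    WW M (F + 1) n φ = (if n = 1 then φ 0 else 0) +
      ∑ a ∈ range M, if 2 ≤ a ∧ a ∣ n then WW M F (n / a) (fun j => φ (j + 1)) else 0 := by
  unfold WW
  rw [← (Fin.consEquiv (fun _ : Fin (F + 1) => Fin M)).sum_comp, Fintype.sum_prod_type]
  have key : ∀ a : Fin M, (∑ g : Fin F → Fin M,
      if okT (F + 1) n (ext (Fin.cons a g : Fin (F + 1) → Fin M)) then
        φ (cntT (F + 1) (ext (Fin.cons a g : Fin (F + 1) → Fin M))) else 0) =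
      (if (a : ℕ) = 1 then (if n = 1 then φ 0 else 0) else 0) +
      (if 2 ≤ (a : ℕ) ∧ (a : ℕ) ∣ n then
        ∑ g : Fin F → Fin M, (if okT F (n / a) (ext g) then φ (cntT F (ext g) + 1) else 0) else 0) := by
    intro a
    rcases Nat.lt_or_ge (a : ℕ) 2 with h | h
    · interval_cases h' : (a : ℕ)
      · simp only [not_okT_cons_zero a h', if_false, sum_const_zero]
        simp
      · have e1 : ¬ (2 ≤ 1 ∧ 1 ∣ n) := by omega
        rw [if_neg e1, add_zero, if_pos rfl]
        rw [Finset.sum_eq_single (fun _ => ⟨1, by omega⟩ : Fin F → Fin M)]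
        · have h1 : ∀ i < F, ext (fun _ => ⟨1, by omega⟩ : Fin F → Fin M) i = 1 := by
            intro i hi
            simp [ext, hi]
          rw [cntT_cons, if_pos h', cntT_eq_zero h1]
          by_cases hn1 : n = 1
          · rw [if_pos ((okT_cons_one a h' _).2 ⟨hn1, h1⟩), if_pos hn1]
          · rw [if_neg, if_neg hn1]
            intro hc
            exact hn1 ((okT_cons_one a h' _).1 hc).1
        · intro g _ hg
          rw [if_neg]
          intro hc
          apply hg
          funext i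
          have := ((okT_cons_one a h' _).1 hc).2 i i.2
          apply Fin.ext
          simpa [ext] using this
        · intro h; exact absurd (mem_univ _) h
    · have e1 : (a : ℕ) ≠ 1 := by omega
      rw [if_neg e1, zero_add]
      by_cases hd : (a : ℕ) ∣ n
      · rw [if_pos ⟨h, hd⟩]
        refine sum_congr rfl (fun g _ => ?_)
        rw [cntT_cons, if_neg e1]
        by_cases ho : okT F (n / a) (ext g)
        · rw [if_pos ho, if_pos ((okT_cons_big hn a h g).2 ⟨hd, ho⟩)]
        · rw [if_neg ho, if_neg]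
          intro hc
          exact ho ((okT_cons_big hn a h g).1 hc).2
      · rw [if_neg (fun hc => hd hc.2)]
        refine sum_eq_zero (fun g _ => ?_)
        rw [if_neg]
        intro hc
        exact hd ((okT_cons_big hn a h g).1 hc).1
  have e0 : ∀ a : Fin M, (∑ g : Fin F → Fin M,
      if okT (F + 1) n (ext ((Fin.consEquiv (fun _ : Fin (F + 1) => Fin M)) (a, g))) then
        φ (cntT (F + 1) (ext ((Fin.consEquiv (fun _ : Fin (F + 1) => Fin M)) (a, g)))) else 0) =
      (if (a : ℕ) = 1 then (if n = 1 then φ 0 else 0) else 0) +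
      (if 2 ≤ (a : ℕ) ∧ (a : ℕ) ∣ n then
        ∑ g : Fin F → Fin M, (if okT F (n / a) (ext g) then φ (cntT F (ext g) + 1) else 0) else 0) :=
    key
  rw [sum_congr rfl (fun a _ => e0 a), sum_add_distrib]
  congr 1
  · rw [Finset.sum_eq_single (⟨1, by omega⟩ : Fin M)]
    · simp
    · intro b _ hb
      rw [if_neg]
      intro hc
      exact hb (Fin.ext hc)
    · intro h; exact absurd (mem_univ _) h
  · rw [Finset.sum_range (fun a => if 2 ≤ a ∧ a ∣ n then
      ∑ g : Fin F → Fin M, (if okT F (n / a) (ext g) then φ (cntT F (ext g) + 1) else 0) else 0)]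

lemma WW_eq (M F : ℕ) (hM : 2 ≤ M) : ∀ (n : ℕ) (φ : ℕ → ℤ), 1 ≤ n → n < M →
    WW M F n φ = ∑ j ∈ range (F + 1), φ j * (ee ℤ ^ j) n := by
  induction F with
  | zero =>
    intro n φ hn hnM
    unfold WW
    have : ∀ g : Fin 0 → Fin M, (okT 0 n (ext g) ↔ n = 1) := by
      intro g
      unfold okT
      simp [eq_comm]
    simp only [this]
    by_cases h1 : n = 1
    · subst h1
      simp [cntT]
    · simp [h1, ArithmeticFunction.one_apply]
  | succ F ih =>
    intro n φ hn hnM
    rw [WW_succ M F n hM hn φ, sum_range_succ']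
    have h0 : φ 0 * (ee ℤ ^ 0) n = if n = 1 then φ 0 else 0 := by
      rw [pow_zero, ArithmeticFunction.one_apply]
      split_ifs <;> simp
    rw [h0, add_comm]
    congr 1
    have h1 : ∀ j, (ee ℤ ^ (j + 1)) n = ∑ a ∈ n.divisors, ee ℤ a * (ee ℤ ^ j) (n / a) := by
      intro j
      rw [pow_succ', ArithmeticFunction.mul_apply,
        Nat.sum_divisorsAntidiagonal (fun a b => ee ℤ a * (ee ℤ ^ j) b)]
    simp only [h1, mul_sum]
    rw [sum_comm]
    have hsub : n.divisors ⊆ range M := by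
      intro a ha
      have := Nat.divisor_le ha
      exact mem_range.2 (by omega)
    rw [← sum_subset hsub]
    · refine sum_congr rfl (fun a ha => ?_)
      have had := (Nat.mem_divisors.1 ha).1
      have hapos : 0 < a := Nat.pos_of_mem_divisors ha
      by_cases h2 : 2 ≤ a
      · rw [if_pos ⟨h2, had⟩, ih (n / a) _ (Nat.div_pos (Nat.le_of_dvd (by omega) had) hapos)
          (lt_of_le_of_lt (Nat.div_le_self _ _) hnM)]
        refine sum_congr rfl (fun j _ => ?_)
        rw [ee_apply, if_pos h2, one_mul]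
      · rw [if_neg (fun hc => h2 hc.1)]
        refine (sum_eq_zero (fun j _ => ?_)).symm
        rw [ee_apply, if_neg h2]
        ring
    · intro a ha hna
      rw [if_neg]
      rintro ⟨_, hd⟩
      exact hna (Nat.mem_divisors.2 ⟨hd, by omega⟩)

lemma nat_mul_app (R : Type) [CommRing R] (k : ℕ) (f : ArithmeticFunction R) (n : ℕ) :
    ((k : ArithmeticFunction R) * f) n = (k : R) * f n := by
  induction k with
  | zero => simp
  | succ k ih =>
    rw [Nat.cast_succ, Nat.cast_succ, add_mul, add_mul, ArithmeticFunction.add_apply, ih, one_mul, one_mul]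

lemma sgn_mul_app (R : Type) [CommRing R] (k : ℕ) : ∀ (f : ArithmeticFunction R) (n : ℕ),
    ((-1) ^ k * f : ArithmeticFunction R) n = (-1) ^ k * f n := by
  induction k with
  | zero => intro f n; rw [pow_zero, pow_zero, one_mul, one_mul]
  | succ k ih =>
    intro f n
    have h1 : ((-1) ^ (k + 1) * f : ArithmeticFunction R) = (-1) ^ k * (-f) := by ring
    rw [h1, ih, ArithmeticFunction.neg_apply]
    ring

lemma sum_app {ι : Type} (R : Type) [CommRing R] (s : Finset ι) (f : ι → ArithmeticFunction R) (n : ℕ) :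
    (∑ i ∈ s, f i) n = ∑ i ∈ s, f i n := by
  induction s using Finset.induction_on with
  | empty => simp
  | insert a s ha ih => rw [sum_insert ha, sum_insert ha, ArithmeticFunction.add_apply, ih]

/-- powers of `ee` vanish at small arguments -/
lemma ee_pow_small (R : Type) [CommRing R] (j : ℕ) : ∀ n : ℕ, n < 2 ^ j → (ee R ^ j) n = 0 := by
  induction j with
  | zero =>
    intro n hn
    have : n = 0 := by simpa using hn
    subst this; simp
  | succ j ih =>
    intro n hn
    rw [pow_succ', ArithmeticFunction.mul_apply]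
    refine sum_eq_zero (fun x hx => ?_)
    have hx' := Nat.mem_divisorsAntidiagonal.1 hx
    by_cases h2 : 2 ≤ x.1
    · have : x.2 < 2 ^ j := by
        by_contra hc
        push Not at hc
        have : 2 * 2 ^ j ≤ x.1 * x.2 := Nat.mul_le_mul h2 hc
        rw [hx'.1] at this
        rw [pow_succ] at hn
        omega
      rw [ih _ this, mul_zero]
    · rw [ee_apply, if_neg h2, zero_mul]

/-- partial sum of the alternating geometric series -/
def SG (R : Type) [CommRing R] (F : ℕ) : ArithmeticFunction R :=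
  ∑ j ∈ range (F + 1), (-1) ^ j * ee R ^ j

lemma SG_eq (R : Type) [CommRing R] (F : ℕ) :
    SG R F = (μ : ArithmeticFunction R) + (-1) ^ F * ((μ : ArithmeticFunction R) * ee R ^ (F + 1)) := by
  have h1 : ((ζ : ArithmeticFunction R)) * SG R F = 1 + (-1) ^ F * ee R ^ (F + 1) := by
    have hz : (ζ : ArithmeticFunction R) = 1 + ee R := by unfold ee; ring
    rw [hz]
    unfold SG
    induction F with
    | zero => simp
    | succ F ih =>
      rw [sum_range_succ, mul_add, ih]
      ring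
  have h2 : (μ : ArithmeticFunction R) * (ζ : ArithmeticFunction R) = 1 :=
    ArithmeticFunction.coe_moebius_mul_coe_zeta
  calc SG R F = (μ : ArithmeticFunction R) * (ζ : ArithmeticFunction R) * SG R F := by rw [h2, one_mul]
    _ = (μ : ArithmeticFunction R) * (1 + (-1) ^ F * ee R ^ (F + 1)) := by rw [mul_assoc, h1]
    _ = _ := by ring

lemma mul_ee_pow_small (R : Type) [CommRing R] (f : ArithmeticFunction R) (j n : ℕ) (hn : n < 2 ^ j) :
    (f * ee R ^ j) n = 0 := by
  rw [ArithmeticFunction.mul_apply]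
  refine sum_eq_zero (fun x hx => ?_)
  have hx' := Nat.mem_divisorsAntidiagonal.1 hx
  have hx1 : 1 ≤ x.1 := by
    rcases Nat.eq_zero_or_pos x.1 with h | h
    · exfalso; apply hx'.2; rw [← hx'.1, h, zero_mul]
    · exact h
  have : x.2 < 2 ^ j := by
    refine lt_of_le_of_lt ?_ hn
    rw [← hx'.1]
    exact Nat.le_mul_of_pos_left _ hx1
  rw [ee_pow_small R j _ this, mul_zero]

/-- multiplication by the logarithm -/
def DD (f : ArithmeticFunction ℝ) : ArithmeticFunction ℝ :=
  ⟨fun n => Real.log n * f n, by simp⟩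

lemma DD_apply (f : ArithmeticFunction ℝ) (n : ℕ) : DD f n = Real.log n * f n := rfl

lemma DD_mul (f g : ArithmeticFunction ℝ) : DD (f * g) = DD f * g + f * DD g := by
  ext n
  rw [DD_apply, ArithmeticFunction.add_apply, ArithmeticFunction.mul_apply,
    ArithmeticFunction.mul_apply, ArithmeticFunction.mul_apply, mul_sum, ← sum_add_distrib]
  refine sum_congr rfl (fun x hx => ?_)
  have hx' := Nat.mem_divisorsAntidiagonal.1 hx
  have h1 : (x.1 : ℝ) ≠ 0 := by
    intro h
    apply hx'.2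
    have : x.1 = 0 := by exact_mod_cast h
    rw [← hx'.1, this, zero_mul]
  have h2 : (x.2 : ℝ) ≠ 0 := by
    intro h
    apply hx'.2
    have : x.2 = 0 := by exact_mod_cast h
    rw [← hx'.1, this, mul_zero]
  rw [DD_apply, DD_apply, ← hx'.1, Nat.cast_mul, Real.log_mul h1 h2]
  ring

lemma DD_ee : DD (ee ℝ) = ArithmeticFunction.log := by
  ext n
  rw [DD_apply, ee_apply, ArithmeticFunction.log_apply]
  split_ifs with h
  · rw [mul_one]
  · have : n = 0 ∨ n = 1 := by omega
    rcases this with rfl | rfl <;> simp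

lemma DD_ee_pow (j : ℕ) : DD (ee ℝ ^ (j + 1)) =
    ((j + 1 : ℕ) : ArithmeticFunction ℝ) * (ee ℝ ^ j * ArithmeticFunction.log) := by
  induction j with
  | zero => simp [DD_ee]
  | succ j ih =>
    rw [pow_succ, DD_mul, ih, DD_ee]
    push_cast
    ring

/-- the truncated logarithmic series -/
lemma kappa (F q : ℕ) (hq : q < 2 ^ F) :
    Real.log q * ∑ j ∈ range (F + 1), (-1 : ℝ) ^ j / (j : ℝ) * (ee ℝ ^ j) q =
      - ArithmeticFunction.vonMangoldt q := by
  rcases F with _ | F
  · have : q = 0 := by simpa using hq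
    subst this; simp
  · rw [sum_range_succ', mul_add]
    have h0 : Real.log q * ((-1 : ℝ) ^ 0 / ((0 : ℕ) : ℝ) * (ee ℝ ^ 0) q) = 0 := by simp
    rw [h0, add_zero, mul_sum]
    have h1 : ∀ j ∈ range (F + 1), Real.log q * ((-1 : ℝ) ^ (j + 1) / ((j + 1 : ℕ) : ℝ) * (ee ℝ ^ (j + 1)) q) =
        - (((-1) ^ j * ee ℝ ^ j) * ArithmeticFunction.log) q := by
      intro j _
      have h2 := congrArg (fun f : ArithmeticFunction ℝ => f q) (DD_ee_pow j)
      simp only [DD_apply] at h2
      rw [nat_mul_app] at h2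
      have h3 : (((-1) ^ j * ee ℝ ^ j) * ArithmeticFunction.log : ArithmeticFunction ℝ) q =
          (-1) ^ j * (ee ℝ ^ j * ArithmeticFunction.log : ArithmeticFunction ℝ) q := by
        rw [mul_assoc, sgn_mul_app]
      rw [h3]
      have h4 : ((j + 1 : ℕ) : ℝ) ≠ 0 := by positivity
      calc Real.log q * ((-1 : ℝ) ^ (j + 1) / ((j + 1 : ℕ) : ℝ) * (ee ℝ ^ (j + 1)) q)
          = (-1 : ℝ) ^ (j + 1) / ((j + 1 : ℕ) : ℝ) * (Real.log q * (ee ℝ ^ (j + 1)) q) := by ring
        _ = _ := by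
          rw [h2, pow_succ]
          field_simp
    rw [sum_congr rfl h1, sum_neg_distrib]
    congr 1
    have h5 : ∑ x ∈ range (F + 1), ((-1) ^ x * ee ℝ ^ x * ArithmeticFunction.log : ArithmeticFunction ℝ) q =
        (SG ℝ F * ArithmeticFunction.log) q := by
      unfold SG
      rw [sum_mul, sum_app]
    rw [h5, SG_eq, add_mul, ArithmeticFunction.add_apply]
    have h6 : ((-1) ^ F * ((μ : ArithmeticFunction ℝ) * ee ℝ ^ (F + 1)) * ArithmeticFunction.log :
        ArithmeticFunction ℝ) q = 0 := by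
      have : ((-1) ^ F * ((μ : ArithmeticFunction ℝ) * ee ℝ ^ (F + 1)) * ArithmeticFunction.log :
        ArithmeticFunction ℝ) = ((-1) ^ F * (μ : ArithmeticFunction ℝ) * ArithmeticFunction.log) * ee ℝ ^ (F + 1) := by
        ring
      rw [this]
      exact mul_ee_pow_small ℝ _ _ _ hq
    rw [h6, add_zero, mul_comm, ArithmeticFunction.log_mul_moebius_eq_vonMangoldt]

lemma cast_ee_pow (j : ℕ) : ∀ n : ℕ, (((ee ℤ ^ j) n : ℤ) : ℝ) = (ee ℝ ^ j) n := by
  induction j with
  | zero =>
    intro n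
    rw [pow_zero, pow_zero, ArithmeticFunction.one_apply, ArithmeticFunction.one_apply]
    split_ifs <;> simp
  | succ j ih =>
    intro n
    rw [pow_succ, pow_succ, ArithmeticFunction.mul_apply, ArithmeticFunction.mul_apply]
    push_cast
    refine sum_congr rfl (fun x _ => ?_)
    rw [ih, ee_apply, ee_apply]
    split_ifs <;> simp

lemma SG_apply (F q : ℕ) (hq : q < 2 ^ F) :
    ∑ j ∈ range (F + 1), (-1 : ℤ) ^ j * (ee ℤ ^ j) q = μ q := by
  have h1 : ∑ j ∈ range (F + 1), (-1 : ℤ) ^ j * (ee ℤ ^ j) q = SG ℤ F q := by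
    unfold SG
    rw [sum_app]
    refine sum_congr rfl (fun j _ => ?_)
    rw [sgn_mul_app]
  rw [h1, SG_eq, ArithmeticFunction.add_apply]
  have h6 : ∀ f : ArithmeticFunction ℤ, ((-1) ^ F * (f * ee ℤ ^ (F + 1)) : ArithmeticFunction ℤ) q = 0 := by
    intro f
    rw [← mul_assoc]
    refine mul_ee_pow_small ℤ _ _ _ (lt_trans hq ?_)
    exact Nat.pow_lt_pow_right (by norm_num) (by omega)
  rw [h6, add_zero, ArithmeticFunction.intCoe_apply]
  simp

end PrimeW

open PrimeW in
theorem specPrimeW : SpecPrimeW := by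
  intro F q hq2 hqF
  have hM : 2 ≤ 2 ^ F := by omega
  have hprod : ∑ g : Fin F → Fin (2 ^ F), ∑ g' : Fin F → Fin (2 ^ F),
      (if okT F q (ext g) ∧ okT F q (ext g') then
        (-1 : ℤ) ^ (cntT F (ext g) + cntT F (ext g')) *
          ((F.factorial / cntT F (ext g) : ℕ) : ℤ) else 0) =
      WW (2 ^ F) F q (fun j => (-1) ^ j * ((F.factorial / j : ℕ) : ℤ)) *
        WW (2 ^ F) F q (fun j => (-1) ^ j) := by
    unfold WW
    rw [sum_mul_sum]
    refine sum_congr rfl (fun g _ => sum_congr rfl (fun g' _ => ?_))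
    by_cases h1 : okT F q (ext g) <;> by_cases h2 : okT F q (ext g')
    · simp only [h1, h2, and_self, if_true]
      rw [pow_add]; ring
    · simp [h2]
    · simp [h1]
    · simp [h1]
  rw [hprod, WW_eq _ _ hM q _ (by omega) hqF, WW_eq _ _ hM q _ (by omega) hqF, SG_apply F q hqF]
  have hlog : 0 < Real.log q := Real.log_pos (by exact_mod_cast hq2)
  have hk := kappa F q hqF
  have hcast : ((∑ j ∈ range (F + 1), (-1) ^ j * ((F.factorial / j : ℕ) : ℤ) * (ee ℤ ^ j) q : ℤ) : ℝ) =
      (F.factorial : ℝ) * ∑ j ∈ range (F + 1), (-1 : ℝ) ^ j / (j : ℝ) * (ee ℝ ^ j) q := by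
    rw [Int.cast_sum, mul_sum]
    refine sum_congr rfl (fun j hj => ?_)
    rw [Int.cast_mul, Int.cast_mul, cast_ee_pow, Int.cast_natCast]
    rcases Nat.eq_zero_or_pos j with h | h
    · subst h; simp
    · have hd : j ∣ F.factorial := Nat.dvd_factorial h (by have := mem_range.1 hj; omega)
      have hj0 : (j : ℝ) ≠ 0 := by positivity
      rw [Nat.cast_div hd hj0]
      push_cast
      ring
  have hmain : Real.log q * (((∑ j ∈ range (F + 1), (-1) ^ j * ((F.factorial / j : ℕ) : ℤ) * (ee ℤ ^ j) q) * μ q : ℤ) : ℝ) =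
      - (F.factorial : ℝ) * ArithmeticFunction.vonMangoldt q * ((μ q : ℤ) : ℝ) := by
    rw [Int.cast_mul, hcast]
    calc _ = (F.factorial : ℝ) * (Real.log q * ∑ j ∈ range (F + 1), (-1 : ℝ) ^ j / (j : ℝ) * (ee ℝ ^ j) q) * ((μ q : ℤ) : ℝ) := by ring
      _ = _ := by rw [hk]; ring
  by_cases hp : q.Prime
  · rw [if_pos hp]
    rw [ArithmeticFunction.vonMangoldt_apply_prime hp, ArithmeticFunction.moebius_apply_prime hp] at hmain
    rw [ArithmeticFunction.moebius_apply_prime hp]
    have : (((∑ j ∈ range (F + 1), (-1) ^ j * ((F.factorial / j : ℕ) : ℤ) * (ee ℤ ^ j) q) * (-1) : ℤ) : ℝ) =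
        ((F.factorial : ℤ) : ℝ) := by
      apply mul_left_cancel₀ hlog.ne'
      rw [hmain]
      push_cast
      ring
    exact_mod_cast this
  · rw [if_neg hp]
    have h0 : ArithmeticFunction.vonMangoldt q * ((μ q : ℤ) : ℝ) = 0 := by
      by_cases hpp : IsPrimePow q
      · obtain ⟨p, k, hpr, hk0, hpk⟩ := hpp
        have hk2 : 2 ≤ k := by
          by_contra hc
          have : k = 1 := by omega
          rw [this, pow_one] at hpk
          exact hp (hpk ▸ hpr.nat_prime)
        have : μ q = 0 := by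
          rw [ArithmeticFunction.moebius_eq_zero_of_not_squarefree]
          intro hsq
          rw [← hpk] at hsq
          have h2 : p * p ∣ p ^ k := by
            rw [← pow_two]; exact pow_dvd_pow _ hk2
          have := hsq p h2
          exact hpr.not_isUnit this
        rw [this]; simp
      · rw [ArithmeticFunction.vonMangoldt_eq_zero_iff.2 hpp, zero_mul]
    rw [mul_assoc, h0, mul_zero] at hmain
    rcases mul_eq_zero.1 hmain with h | h
    · exact absurd h hlog.ne'
    · exact_mod_cast h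

end MP21c4c4
end
end

section
/-!
# MP_21c4c4_lc, module SMOOTH
-/
open scoped Classical
open Finset

noncomputable section

namespace MP21c4c4

namespace Smooth

lemma pow_dvd_factorial (p : ℕ) (hp : 1 ≤ p) : ∀ e : ℕ, p ^ e ∣ (p * e).factorial
  | 0 => by simp
  | e + 1 => by
    have ih := pow_dvd_factorial p hp e
    have h1 : p * (e + 1) = (p * (e + 1) - 1) + 1 := by
      have : 1 ≤ p * (e + 1) := Nat.mul_pos hp (Nat.succ_pos e)
      omega
    rw [h1, Nat.factorial_succ, ← h1, pow_succ, mul_comm]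
    refine Nat.mul_dvd_mul (Dvd.intro _ rfl) (ih.trans (Nat.factorial_dvd_factorial ?_))
    have : p * (e + 1) = p * e + p := by ring
    omega

end Smooth

theorem specSmooth : SpecSmooth := by
  intro w M m h hm hM hq
  have hm0 : m ≠ 0 := by omega
  rw [← Nat.factorization_le_iff_dvd hm0 (Nat.factorial_ne_zero w)]
  intro p
  by_cases hp : p.Prime
  · by_cases hd : p ∣ m
    · have he : 1 ≤ m.factorization p :=
        (hp.dvd_iff_one_le_factorization hm0).1 hd
      have hpw := hq p hp hd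
      have hle : p ^ m.factorization p ≤ M :=
        (Nat.le_of_dvd (by omega) (Nat.ordProj_dvd m p)).trans hM
      have h1 := h p _ hp hpw he hle
      have h2 : p ^ m.factorization p ∣ w.factorial :=
        (Smooth.pow_dvd_factorial p hp.one_lt.le _).trans (Nat.factorial_dvd_factorial h1)
      exact (hp.pow_dvd_iff_le_factorization (Nat.factorial_ne_zero w)).1 h2
    · rw [Nat.factorization_eq_zero_of_not_dvd hd]
      exact Nat.zero_le _
  · rw [Nat.factorization_eq_zero_of_not_prime _ hp]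
    exact Nat.zero_le _

end MP21c4c4
end
end

section
/-!
# MP_21c4c4_lc, module SUM: the exponential sum
-/
open scoped Classical
open Finset

noncomputable section

namespace MP21c4c4

namespace Sum

/-! ### congruence modulo the integers -/

def Cg (x y : ℚ) : Prop := ∃ z : ℤ, x = y + z

lemma Cg.refl (x : ℚ) : Cg x x := ⟨0, by simp⟩

lemma Cg.trans {x y z : ℚ} (h1 : Cg x y) (h2 : Cg y z) : Cg x z := by
  obtain ⟨a, ha⟩ := h1
  obtain ⟨b, hb⟩ := h2
  exact ⟨a + b, by rw [ha, hb]; push_cast; ring⟩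

lemma Cg.symm {x y : ℚ} (h1 : Cg x y) : Cg y x := by
  obtain ⟨a, ha⟩ := h1
  exact ⟨-a, by rw [ha]; push_cast; ring⟩

lemma Cg.add {x y x' y' : ℚ} (h1 : Cg x y) (h2 : Cg x' y') : Cg (x + x') (y + y') := by
  obtain ⟨a, ha⟩ := h1
  obtain ⟨b, hb⟩ := h2
  exact ⟨a + b, by rw [ha, hb]; push_cast; ring⟩

lemma Cg.sum {ι : Type} (s : Finset ι) (f g : ι → ℚ) (h : ∀ i ∈ s, Cg (f i) (g i)) :
    Cg (∑ i ∈ s, f i) (∑ i ∈ s, g i) := by
  induction s using Finset.induction_on with
  | empty => exact Cg.refl _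
  | insert a s ha ih =>
    rw [sum_insert ha, sum_insert ha]
    exact Cg.add (h a (mem_insert_self _ _)) (ih (fun i hi => h i (mem_insert_of_mem hi)))

lemma Cg.of_zmod (q : ℕ) (x y : ℤ) (h : (x : ZMod q) = (y : ZMod q)) :
    Cg ((x : ℚ) / (q : ℚ)) ((y : ℚ) / (q : ℚ)) := by
  have h1 := ((ZMod.intCast_eq_intCast_iff x y q).1 h).symm.dvd
  obtain ⟨k, hk⟩ := h1
  rcases Nat.eq_zero_or_pos q with h0 | h0
  · subst h0; simp; exact Cg.refl _
  · refine ⟨k, ?_⟩
    have hx : x = y + q * k := by linarith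
    rw [hx]
    push_cast
    field_simp

/-! ### expansion of the index into fields -/

lemma sum_fld (s m : ℕ) (Φ : (ℕ → ℕ) → ℚ) :
    ∑ idx ∈ range (2 ^ (FF s * m)), Φ (fld s idx) =
      ∑ g : Fin m → Fin (2 ^ FF s), Φ (ext g) := by
  rw [pow_mul, Finset.sum_range, ← finFunctionFinEquiv.sum_comp]
  refine sum_congr rfl (fun g _ => ?_)
  congr 1
  funext i
  unfold fld ext
  split_ifs with h
  · have h1 := congrFun (finFunctionFinEquiv.symm_apply_apply g) ⟨i, h⟩
    have h2 := congrArg (fun z : Fin (2 ^ FF s) => (z : ℕ)) h1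
    simp only [finFunctionFinEquiv_symm_apply_val] at h2
    rw [pow_mul]
    exact h2
  · have h1 : (finFunctionFinEquiv g : ℕ) < 2 ^ (FF s * i) := by
      refine lt_of_lt_of_le (finFunctionFinEquiv g).isLt ?_
      rw [← pow_mul]
      exact Nat.pow_le_pow_right (by norm_num) (Nat.mul_le_mul_left _ (by omega))
    rw [Nat.div_eq_of_lt h1, Nat.zero_mod]

/-- concatenation of sequences -/
def app (m : ℕ) (f1 f2 : ℕ → ℕ) : ℕ → ℕ := fun i => if i < m then f1 i else f2 (i - m)

lemma ext_append {m k M : ℕ} (g1 : Fin m → Fin M) (g2 : Fin k → Fin M) :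
    ext (Fin.append g1 g2) = app m (ext g1) (ext g2) := by
  funext i
  unfold ext app
  beta_reduce
  by_cases h : i < m
  · have h' : i < m + k := by omega
    rw [dif_pos h', if_pos h, dif_pos h]
    have : (⟨i, h'⟩ : Fin (m + k)) = Fin.castAdd k ⟨i, h⟩ := rfl
    rw [this, Fin.append_left]
  · rw [if_neg h]
    by_cases h2 : i - m < k
    · have h' : i < m + k := by omega
      rw [dif_pos h', dif_pos h2]
      have : (⟨i, h'⟩ : Fin (m + k)) = Fin.natAdd m ⟨i - m, h2⟩ := by
        apply Fin.ext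
        simp
        omega
      rw [this, Fin.append_right]
    · rw [dif_neg (by omega), dif_neg h2]

lemma sum_app {m k M : ℕ} (Φ : (ℕ → ℕ) → ℚ) :
    ∑ g : Fin (m + k) → Fin M, Φ (ext g) =
      ∑ g1 : Fin m → Fin M, ∑ g2 : Fin k → Fin M, Φ (app m (ext g1) (ext g2)) := by
  rw [← (Fin.appendEquiv m k).sum_comp, Fintype.sum_prod_type]
  refine sum_congr rfl (fun g1 _ => sum_congr rfl (fun g2 _ => ?_))
  rw [← ext_append]
  rfl

/-- new first field -/
def cn (a : ℕ) (f : ℕ → ℕ) : ℕ → ℕ := fun i => if i = 0 then a else f (i - 1)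

lemma ext_cons {k M : ℕ} (a : Fin M) (g : Fin k → Fin M) :
    ext (Fin.cons a g : Fin (k + 1) → Fin M) = cn a (ext g) := by
  funext i
  unfold ext cn
  beta_reduce
  rcases i with _ | i
  · simp
  · by_cases h : i < k
    · have h1 : i + 1 < k + 1 := by omega
      have h0 : i + 1 ≠ 0 := by omega
      rw [dif_pos h1, if_neg h0, Nat.add_sub_cancel, dif_pos h]
      have : (⟨i + 1, h1⟩ : Fin (k + 1)) = Fin.succ ⟨i, h⟩ := rfl
      rw [this, Fin.cons_succ]
    · have h1 : ¬ i + 1 < k + 1 := by omega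
      have h0 : i + 1 ≠ 0 := by omega
      rw [dif_neg h1, if_neg h0, Nat.add_sub_cancel, dif_neg h]

lemma sum_cons {k M : ℕ} (Φ : (ℕ → ℕ) → ℚ) :
    ∑ g : Fin (k + 1) → Fin M, Φ (ext g) =
      ∑ a ∈ range M, ∑ g : Fin k → Fin M, Φ (cn a (ext g)) := by
  rw [← (Fin.consEquiv (fun _ : Fin (k + 1) => Fin M)).sum_comp, Fintype.sum_prod_type,
    Finset.sum_range]
  refine sum_congr rfl (fun a _ => sum_congr rfl (fun g _ => ?_))
  rw [← ext_cons]
  rfl

/-- the tuple with the given parts -/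
def mk (a q l h : ℕ) (u p : ℕ → ℕ) : ℕ → ℕ := cn a (cn q (cn l (cn h (app 7 u p))))

lemma sum_all (s : ℕ) (Φ : (ℕ → ℕ) → ℚ) :
    ∑ idx ∈ range (2 ^ LL s), Φ (fld s idx) =
      ∑ a ∈ range (2 ^ FF s), ∑ q ∈ range (2 ^ FF s), ∑ l ∈ range (2 ^ FF s),
        ∑ h ∈ range (2 ^ FF s), ∑ u : Fin 7 → Fin (2 ^ FF s),
        ∑ g1 : Fin (FF s) → Fin (2 ^ FF s), ∑ g2 : Fin (FF s) → Fin (2 ^ FF s),
          Φ (mk a q l h (ext u) (app (FF s) (ext g1) (ext g2))) := by
  have hL : LL s = FF s * (7 + (FF s + FF s) + 1 + 1 + 1 + 1) := by unfold LL; ring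
  rw [hL, sum_fld, sum_cons]
  refine sum_congr rfl (fun a _ => ?_)
  rw [sum_cons (fun f => Φ (cn a f))]
  refine sum_congr rfl (fun q _ => ?_)
  rw [sum_cons (fun f => Φ (cn a (cn q f)))]
  refine sum_congr rfl (fun l _ => ?_)
  rw [sum_cons (fun f => Φ (cn a (cn q (cn l f))))]
  refine sum_congr rfl (fun h _ => ?_)
  rw [sum_app (fun f => Φ (cn a (cn q (cn l (cn h f)))))]
  refine sum_congr rfl (fun u _ => ?_)
  rw [sum_app (fun f => Φ (cn a (cn q (cn l (cn h (app 7 (ext u) f))))))]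
  rfl

/-! ### the summands -/

lemma okT_congr {F q : ℕ} {g g' : ℕ → ℕ} (h : ∀ i < F, g i = g' i) : okT F q g ↔ okT F q g' := by
  unfold okT
  have h1 : (∀ i < F, 1 ≤ g i) ↔ (∀ i < F, 1 ≤ g' i) := by
    constructor <;> intro H i hi
    · rw [← h i hi]; exact H i hi
    · rw [h i hi]; exact H i hi
  have h2 : (∀ i j, i < j → j < F → g i = 1 → g j = 1) ↔
      (∀ i j, i < j → j < F → g' i = 1 → g' j = 1) := by
    constructor <;> intro H i j hij hj hi
    · rw [← h j hj]; exact H i j hij hj (by rw [h i (by omega)]; exact hi)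
    · rw [h j hj]; exact H i j hij hj (by rw [← h i (by omega)]; exact hi)
  have h3 : ∏ i ∈ range F, g i = ∏ i ∈ range F, g' i :=
    prod_congr rfl (fun i hi => h i (mem_range.1 hi))
  rw [h1, h2, h3]

lemma cntT_congr {F : ℕ} {g g' : ℕ → ℕ} (h : ∀ i < F, g i = g' i) : cntT F g = cntT F g' := by
  unfold cntT
  congr 1
  refine filter_congr (fun i hi => ?_)
  rw [h i (mem_range.1 hi)]

lemma mk_0 (a q l h : ℕ) (u p : ℕ → ℕ) : mk a q l h u p 0 = a := rfl
lemma mk_1 (a q l h : ℕ) (u p : ℕ → ℕ) : mk a q l h u p 1 = q := rfl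
lemma mk_2 (a q l h : ℕ) (u p : ℕ → ℕ) : mk a q l h u p 2 = l := rfl
lemma mk_3 (a q l h : ℕ) (u p : ℕ → ℕ) : mk a q l h u p 3 = h := rfl

lemma mk_u (a q l h : ℕ) (u p : ℕ → ℕ) (i : ℕ) (hi : i < 7) : mk a q l h u p (4 + i) = u i := by
  unfold mk cn app
  have h0 : 4 + i ≠ 0 := by omega
  have h1 : 4 + i - 1 ≠ 0 := by omega
  have h2 : 4 + i - 1 - 1 ≠ 0 := by omega
  have h3 : 4 + i - 1 - 1 - 1 ≠ 0 := by omega
  have h4 : 4 + i - 1 - 1 - 1 - 1 = i := by omega
  rw [if_neg h0, if_neg h1, if_neg h2, if_neg h3, h4, if_pos hi]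

lemma mk_p (a q l h : ℕ) (u p : ℕ → ℕ) (i : ℕ) : mk a q l h u p (11 + i) = p i := by
  unfold mk cn app
  have h0 : 11 + i ≠ 0 := by omega
  have h1 : 11 + i - 1 ≠ 0 := by omega
  have h2 : 11 + i - 1 - 1 ≠ 0 := by omega
  have h3 : 11 + i - 1 - 1 - 1 ≠ 0 := by omega
  have h4 : ¬ 11 + i - 1 - 1 - 1 - 1 < 7 := by omega
  have h5 : 11 + i - 1 - 1 - 1 - 1 - 7 = i := by omega
  rw [if_neg h0, if_neg h1, if_neg h2, if_neg h3, if_neg h4, h5]

lemma mk_p1 (F a q l h : ℕ) (u f1 f2 : ℕ → ℕ) (i : ℕ) (hi : i < F) :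
    mk a q l h u (app F f1 f2) (11 + i) = f1 i := by
  rw [mk_p]
  unfold app
  rw [if_pos hi]

lemma mk_p2 (F a q l h : ℕ) (u f1 f2 : ℕ → ℕ) (i : ℕ) :
    mk a q l h u (app F f1 f2) (11 + F + i) = f2 i := by
  rw [add_assoc, mk_p]
  unfold app
  have h0 : ¬ F + i < F := by omega
  have h1 : F + i - F = i := by omega
  rw [if_neg h0, h1]

/-- condition on `a, q` -/
def CA (s a q : ℕ) : Prop := a ≤ nn s ∧ ww s < q ∧ q ∣ nn s + 1 + a
/-- condition on `l` -/
def CB (s j l : ℕ) : Prop := jp s j ≤ l ∧ l ≤ nn s ∧ 2 ∣ l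

/-- condition on `u` -/
def CD (q k : ℕ) (u : ℕ → ℕ) : Prop := ∀ i < k, u i < q

lemma Good_mk (s j a q l h : ℕ) (u f1 f2 : ℕ → ℕ) :
    Good s j (mk a q l h u (app (FF s) f1 f2)) ↔
      CA s a q ∧ (CB s j l ∧ h ≤ ww s ∧ CD q 7 u) ∧
        (okT (FF s) q f1 ∧ okT (FF s) q f2) := by
  have h1 : (∀ i < 7, mk a q l h u (app (FF s) f1 f2) (4 + i) < q) ↔ (∀ i < 7, u i < q) := by
    constructor <;> intro H i hi
    · have := H i hi
      rwa [mk_u _ _ _ _ _ _ _ hi] at this
    · rw [mk_u _ _ _ _ _ _ _ hi]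
      exact H i hi
  have h2 : okT (FF s) q (fun i => mk a q l h u (app (FF s) f1 f2) (11 + i)) ↔ okT (FF s) q f1 :=
    okT_congr (fun i hi => mk_p1 (FF s) a q l h u f1 f2 i hi)
  have h3 : okT (FF s) q (fun i => mk a q l h u (app (FF s) f1 f2) (11 + FF s + i)) ↔
      okT (FF s) q f2 :=
    okT_congr (fun i _ => mk_p2 (FF s) a q l h u f1 f2 i)
  unfold Good CA CB
  rw [mk_0, mk_1, mk_2, mk_3, h1, h2, h3]
  constructor
  · rintro ⟨a1, a2, a3, a4, a5, a6, a7, a8, a9, a10⟩
    exact ⟨⟨a1, a2, a3⟩, ⟨⟨a4, a5, a6⟩, a7, a8⟩, a9, a10⟩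
  · rintro ⟨⟨a1, a2, a3⟩, ⟨⟨a4, a5, a6⟩, a7, a8⟩, a9, a10⟩
    exact ⟨a1, a2, a3, a4, a5, a6, a7, a8, a9, a10⟩

/-- the seven factors which depend on `u` -/
def fac (s q a l h : ℕ) : Fin 7 → ℕ → ℕ :=
  ![fun v => fx q v (nn s / q) (a / q),
    fun v => fx q v (nn s % q) (a % q),
    fun v => fx q v (ww s) h,
    fun v => fx q v (nn s / q) (l / q),
    fun v => fx q v (nn s % q) (l % q),
    fun v => fx q v ((nn s - l) / q) (((nn s - l) / 2) / q),
    fun v => fx q v ((nn s - l) % q) (((nn s - l) / 2) % q)]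

/-- the part of `core` which depends only on `a, q` -/
def cst (s x a q : ℕ) : ℕ :=
  (q - 1) ^ a * (2 * nn s + 1) * x * ((nn s + 1 + a) / q) ^ (q - 2) * (FF s).factorial ^ (q - 2)

lemma core_mk (s j x a q l h : ℕ) (u p : ℕ → ℕ) :
    core s j x (mk a q l h u p) =
      cst s x a q * ((q - 1) ^ h * h ^ KK s) * 2 ^ (l - jp s j) *
        ∏ i : Fin 7, fac s q a l h i (u i) := by
  have e4 : mk a q l h u p 4 = u 0 := mk_u a q l h u p 0 (by norm_num)
  have e5 : mk a q l h u p 5 = u 1 := mk_u a q l h u p 1 (by norm_num)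
  have e6 : mk a q l h u p 6 = u 2 := mk_u a q l h u p 2 (by norm_num)
  have e7 : mk a q l h u p 7 = u 3 := mk_u a q l h u p 3 (by norm_num)
  have e8 : mk a q l h u p 8 = u 4 := mk_u a q l h u p 4 (by norm_num)
  have e9 : mk a q l h u p 9 = u 5 := mk_u a q l h u p 5 (by norm_num)
  have e10 : mk a q l h u p 10 = u 6 := mk_u a q l h u p 6 (by norm_num)
  rw [Fin.prod_univ_seven]
  have f0 : fac s q a l h 0 ((u (0 : Fin 7))) = fx q (u 0) (nn s / q) (a / q) := rfl
  have f1 : fac s q a l h 1 ((u (1 : Fin 7))) = fx q (u 1) (nn s % q) (a % q) := rfl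
  have f2 : fac s q a l h 2 ((u (2 : Fin 7))) = fx q (u 2) (ww s) h := rfl
  have f3 : fac s q a l h 3 ((u (3 : Fin 7))) = fx q (u 3) (nn s / q) (l / q) := rfl
  have f4 : fac s q a l h 4 ((u (4 : Fin 7))) = fx q (u 4) (nn s % q) (l % q) := rfl
  have f5 : fac s q a l h 5 ((u (5 : Fin 7))) =
    fx q (u 5) ((nn s - l) / q) (((nn s - l) / 2) / q) := rfl
  have f6 : fac s q a l h 6 ((u (6 : Fin 7))) =
    fx q (u 6) ((nn s - l) % q) (((nn s - l) / 2) % q) := rfl
  rw [f0, f1, f2, f3, f4, f5, f6]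
  unfold core cst
  rw [mk_0, mk_1, mk_2, mk_3, e4, e5, e6, e7, e8, e9, e10, pow_add]
  ring

lemma wgt_mk (s a q l h : ℕ) (u f1 f2 : ℕ → ℕ) :
    wgt s (mk a q l h u (app (FF s) f1 f2)) =
      (q - 1) ^ (cntT (FF s) f1 + cntT (FF s) f2) * ((FF s).factorial / cntT (FF s) f1) := by
  unfold wgt
  rw [mk_1, cntT_congr (fun i hi => mk_p1 (FF s) a q l h u f1 f2 i hi),
    cntT_congr (fun i _ => mk_p2 (FF s) a q l h u f1 f2 i)]

/-! ### evaluation modulo `q` -/

/-- the sum over everything but `a, q` -/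
def HH (s j X a q : ℕ) : ℤ :=
  ∑ l ∈ range (2 ^ FF s), ∑ h ∈ range (2 ^ FF s), ∑ u : Fin 7 → Fin (2 ^ FF s),
    ∑ g1 : Fin (FF s) → Fin (2 ^ FF s), ∑ g2 : Fin (FF s) → Fin (2 ^ FF s),
      if Good s j (mk a q l h (ext u) (app (FF s) (ext g1) (ext g2))) then
        ((core s j (X % q) (mk a q l h (ext u) (app (FF s) (ext g1) (ext g2))) *
          wgt s (mk a q l h (ext u) (app (FF s) (ext g1) (ext g2))) : ℕ) : ℤ) else 0

lemma term_Cg (s j X : ℕ) (g : ℕ → ℕ) :
    Cg ((num s j (fun q => X % q) g : ℚ) / (den s j g : ℚ))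
      (((if Good s j g then ((core s j (X % g 1) g * wgt s g : ℕ) : ℤ) else 0 : ℤ) : ℚ) /
        (g 1 : ℚ)) := by
  unfold num den
  by_cases h : Good s j g
  · rw [if_pos h, if_pos h, if_pos h]
    have h1 : (((core s j (X % g 1) g * wgt s g % g 1 : ℕ) : ℤ) : ZMod (g 1)) =
        (((core s j (X % g 1) g * wgt s g : ℕ) : ℤ) : ZMod (g 1)) := by
      rw [Int.cast_natCast, Int.cast_natCast, ZMod.natCast_mod]
    have h2 := Cg.of_zmod (g 1) _ _ h1
    rw [Int.cast_natCast] at h2
    exact h2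
  · rw [if_neg h, if_neg h, if_neg h]
    simp only [Nat.cast_zero, Int.cast_zero, zero_div]
    exact Cg.refl _

lemma sum_Cg (s j X a q : ℕ) :
    Cg (∑ l ∈ range (2 ^ FF s), ∑ h ∈ range (2 ^ FF s), ∑ u : Fin 7 → Fin (2 ^ FF s),
      ∑ g1 : Fin (FF s) → Fin (2 ^ FF s), ∑ g2 : Fin (FF s) → Fin (2 ^ FF s),
        ((num s j (fun q => X % q) (mk a q l h (ext u) (app (FF s) (ext g1) (ext g2))) : ℚ) /
          (den s j (mk a q l h (ext u) (app (FF s) (ext g1) (ext g2))) : ℚ)))
      ((HH s j X a q : ℚ) / (q : ℚ)) := by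
  unfold HH
  simp only [Int.cast_sum, sum_div]
  refine Cg.sum _ _ _ (fun l _ => Cg.sum _ _ _ (fun h _ => Cg.sum _ _ _ (fun u _ =>
    Cg.sum _ _ _ (fun g1 _ => Cg.sum _ _ _ (fun g2 _ => ?_)))))
  exact term_Cg s j X (mk a q l h (ext u) (app (FF s) (ext g1) (ext g2)))

lemma neg_one_cast (q : ℕ) (hq : 1 ≤ q) : (((q - 1 : ℕ)) : ZMod q) = -1 := by
  rw [Nat.cast_sub hq]
  simp

lemma W_eval (hPrimeW : SpecPrimeW) (F q : ℕ) (hq2 : 2 ≤ q) (hqF : q < 2 ^ F) :
    ∑ g1 : Fin F → Fin (2 ^ F), ∑ g2 : Fin F → Fin (2 ^ F),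
      (if okT F q (ext g1) ∧ okT F q (ext g2) then
        (((q - 1) ^ (cntT F (ext g1) + cntT F (ext g2)) *
          (F.factorial / cntT F (ext g1)) : ℕ) : ZMod q) else 0) =
      if q.Prime then (F.factorial : ZMod q) else 0 := by
  have h := congrArg (Int.cast : ℤ → ZMod q) (hPrimeW F q hq2 hqF)
  rw [Int.cast_sum] at h
  have h2 : (((if q.Prime then (F.factorial : ℤ) else 0 : ℤ)) : ZMod q) =
      if q.Prime then (F.factorial : ZMod q) else 0 := by
    split_ifs
    · rw [Int.cast_natCast]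
    · rw [Int.cast_zero]
  rw [← h2, ← h]
  refine sum_congr rfl (fun g1 _ => ?_)
  rw [Int.cast_sum]
  refine sum_congr rfl (fun g2 _ => ?_)
  split_ifs
  · rw [Nat.cast_mul, Nat.cast_pow, neg_one_cast q (by omega), Int.cast_mul, Int.cast_pow,
      Int.cast_neg, Int.cast_one, Int.cast_natCast]
  · rw [Int.cast_zero]

lemma HH_zero (s j X a q : ℕ) (hA : ¬ CA s a q) : HH s j X a q = 0 := by
  unfold HH
  refine sum_eq_zero (fun l _ => sum_eq_zero (fun h _ => sum_eq_zero (fun u _ =>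
    sum_eq_zero (fun g1 _ => sum_eq_zero (fun g2 _ => ?_)))))
  rw [if_neg]
  intro hc
  exact hA ((Good_mk s j a q l h _ _ _).1 hc).1

lemma HH_fac (s j X a q : ℕ) (hA : CA s a q) :
    ((HH s j X a q : ℤ) : ZMod q) =
      (∑ l ∈ range (2 ^ FF s), ∑ h ∈ range (2 ^ FF s), ∑ u : Fin 7 → Fin (2 ^ FF s),
        if CB s j l ∧ h ≤ ww s ∧ CD q 7 (ext u) then
          ((cst s (X % q) a q * ((q - 1) ^ h * h ^ KK s) * 2 ^ (l - jp s j) *
            ∏ i : Fin 7, fac s q a l h i (ext u i) : ℕ) : ZMod q) else 0) *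
      ∑ g1 : Fin (FF s) → Fin (2 ^ FF s), ∑ g2 : Fin (FF s) → Fin (2 ^ FF s),
        (if okT (FF s) q (ext g1) ∧ okT (FF s) q (ext g2) then
          (((q - 1) ^ (cntT (FF s) (ext g1) + cntT (FF s) (ext g2)) *
            ((FF s).factorial / cntT (FF s) (ext g1)) : ℕ) : ZMod q) else 0) := by
  unfold HH
  rw [Int.cast_sum, sum_mul]
  refine sum_congr rfl (fun l _ => ?_)
  rw [Int.cast_sum, sum_mul]
  refine sum_congr rfl (fun h _ => ?_)
  rw [Int.cast_sum, sum_mul]
  refine sum_congr rfl (fun u _ => ?_)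
  rw [Int.cast_sum, mul_sum]
  refine sum_congr rfl (fun g1 _ => ?_)
  rw [Int.cast_sum, mul_sum]
  refine sum_congr rfl (fun g2 _ => ?_)
  have hG := Good_mk s j a q l h (ext u) (ext g1) (ext g2)
  by_cases hB : CB s j l ∧ h ≤ ww s ∧ CD q 7 (ext u)
  · by_cases hO : okT (FF s) q (ext g1) ∧ okT (FF s) q (ext g2)
    · rw [if_pos hB, if_pos hO, if_pos (hG.2 ⟨hA, hB, hO⟩), core_mk, wgt_mk, Int.cast_natCast,
        Nat.cast_mul]
    · rw [if_neg hO, mul_zero, if_neg (fun hc => hO (hG.1 hc).2.2), Int.cast_zero]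
  · rw [if_neg hB, zero_mul, if_neg (fun hc => hB (hG.1 hc).2.1), Int.cast_zero]

lemma prod_sum_fin {R : Type} [CommRing R] (k M q : ℕ) (hqM : q ≤ M) (f : Fin k → ℕ → R) :
    ∑ u : Fin k → Fin M, (if CD q k (ext u) then ∏ i : Fin k, f i (ext u i) else 0) =
      ∏ i : Fin k, ∑ v ∈ range q, f i v := by
  have h1 : ∀ i : Fin k, ∑ v ∈ range q, f i v =
      ∑ v ∈ (univ : Finset (Fin M)), if (v : ℕ) < q then f i v else 0 := by
    intro i
    rw [← Finset.sum_range (fun v => if v < q then f i v else 0), ← sum_filter]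
    refine sum_congr ?_ (fun _ _ => rfl)
    ext v
    simp only [mem_range, mem_filter]
    omega
  rw [prod_congr rfl (fun i _ => h1 i), prod_univ_sum, Fintype.piFinset_univ]
  refine sum_congr rfl (fun u _ => ?_)
  rw [Fintype.prod_ite_zero]
  have e : ∀ i : Fin k, ext u i = u i := by
    intro i
    simp [ext]
  have e1 : CD q k (ext u) ↔ (∀ i : Fin k, (u i : ℕ) < q) := by
    unfold CD
    constructor
    · intro H i
      rw [← e i]
      exact H i i.2
    · intro H i hi
      have := H ⟨i, hi⟩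
      rw [← e ⟨i, hi⟩] at this
      exact this
  by_cases hc : CD q k (ext u)
  · rw [if_pos hc, if_pos (e1.1 hc)]
    exact prod_congr rfl (fun i _ => by rw [e i])
  · rw [if_neg hc, if_neg (fun h => hc (e1.2 h))]

lemma ext_cast (hExt : SpecExt) {q N k : ℕ} (hq : q.Prime) (hN : N < q) (hk : k < q) :
    ∑ v ∈ range q, (fx q v N k : ZMod q) = (N.choose k : ZMod q) := by
  have h := (ZMod.natCast_eq_natCast_iff _ _ _).2 (hExt q N k hq hN hk)
  rw [Nat.cast_sum] at h
  exact h

lemma lucas_cast {q : ℕ} (hq : q.Prime) (n k : ℕ) :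
    ((n.choose k : ℕ) : ZMod q) =
      ((n / q).choose (k / q) : ZMod q) * ((n % q).choose (k % q) : ZMod q) := by
  have := Fact.mk hq
  have h := (ZMod.natCast_eq_natCast_iff _ _ _).2
    (Choose.choose_modEq_choose_mod_mul_choose_div_nat (n := n) (k := k) (p := q))
  rw [h, Nat.cast_mul, mul_comm]

lemma fac_eval (hExt : SpecExt) (s q a l h : ℕ) (hq : q.Prime) (hn : nn s < q * q)
    (ha : a ≤ nn s) (hl : l ≤ nn s) (hw : ww s < q) (hh : h ≤ ww s) :
    ∏ i : Fin 7, ∑ v ∈ range q, (fac s q a l h i v : ZMod q) =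
      ((nn s).choose a : ZMod q) * ((ww s).choose h : ZMod q) * (((nn s).choose l : ZMod q) *
        ((nn s - l).choose ((nn s - l) / 2) : ZMod q)) := by
  have hq0 : 0 < q := hq.pos
  have hdiv : ∀ x, x ≤ nn s → x / q < q := fun x hx =>
    Nat.div_lt_of_lt_mul (lt_of_le_of_lt hx hn)
  have hmod : ∀ x, x % q < q := fun x => Nat.mod_lt _ hq0
  rw [Fin.prod_univ_seven]
  have f0 : ∑ v ∈ range q, (fac s q a l h 0 v : ZMod q) =
      ((nn s / q).choose (a / q) : ZMod q) := ext_cast hExt hq (hdiv _ le_rfl) (hdiv _ ha)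
  have f1 : ∑ v ∈ range q, (fac s q a l h 1 v : ZMod q) =
      ((nn s % q).choose (a % q) : ZMod q) := ext_cast hExt hq (hmod _) (hmod _)
  have f2 : ∑ v ∈ range q, (fac s q a l h 2 v : ZMod q) =
      ((ww s).choose h : ZMod q) := ext_cast hExt hq hw (lt_of_le_of_lt hh hw)
  have f3 : ∑ v ∈ range q, (fac s q a l h 3 v : ZMod q) =
      ((nn s / q).choose (l / q) : ZMod q) := ext_cast hExt hq (hdiv _ le_rfl) (hdiv _ hl)
  have f4 : ∑ v ∈ range q, (fac s q a l h 4 v : ZMod q) =
      ((nn s % q).choose (l % q) : ZMod q) := ext_cast hExt hq (hmod _) (hmod _)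
  have f5 : ∑ v ∈ range q, (fac s q a l h 5 v : ZMod q) =
      (((nn s - l) / q).choose (((nn s - l) / 2) / q) : ZMod q) :=
    ext_cast hExt hq (hdiv _ (Nat.sub_le _ _))
      (hdiv _ (le_trans (Nat.div_le_self _ _) (Nat.sub_le _ _)))
  have f6 : ∑ v ∈ range q, (fac s q a l h 6 v : ZMod q) =
      (((nn s - l) % q).choose (((nn s - l) / 2) % q) : ZMod q) :=
    ext_cast hExt hq (hmod _) (hmod _)
  rw [f0, f1, f2, f3, f4, f5, f6, lucas_cast hq (nn s) a, lucas_cast hq (nn s) l,
    lucas_cast hq (nn s - l) ((nn s - l) / 2)]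
  ring

lemma RR_eval (q w K M : ℕ) (hw : Even w) (hM : w < M) :
    ∑ h ∈ range M, (if h ≤ w then ((-1 : ZMod q) ^ h * (h : ZMod q) ^ K * (w.choose h : ZMod q)) else 0)
      = ((RR w K : ℤ) : ZMod q) := by
  rw [← sum_filter]
  have h1 : (range M).filter (fun h => h ≤ w) = range (w + 1) := by
    ext h
    simp only [mem_filter, mem_range]
    omega
  rw [h1]
  unfold RR
  rw [Int.cast_sum]
  refine sum_congr rfl (fun h hh => ?_)
  have hh' : h ≤ w := by
    have := mem_range.1 hh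
    omega
  have h2 : (-1 : ZMod q) ^ (w - h) = (-1) ^ h := by
    have h3 : (-1 : ZMod q) ^ (w - h) * (-1) ^ h = 1 := by
      rw [← pow_add, Nat.sub_add_cancel hh', hw.neg_one_pow]
    have h4 : (-1 : ZMod q) ^ h * (-1) ^ h = 1 := by
      rw [← mul_pow]
      simp
    calc (-1 : ZMod q) ^ (w - h) = (-1 : ZMod q) ^ (w - h) * ((-1 : ZMod q) ^ h * (-1) ^ h) := by
          rw [h4, mul_one]
      _ = (-1 : ZMod q) ^ (w - h) * (-1) ^ h * (-1) ^ h := by ring
      _ = _ := by rw [h3, one_mul]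
  push_cast
  rw [h2]
  ring

lemma GG_eval (s j q M : ℕ) (hM : nn s < M) :
    ∑ l ∈ range M, (if CB s j l then ((2 : ZMod q) ^ (l - jp s j) * (((nn s).choose l : ZMod q) *
        ((nn s - l).choose ((nn s - l) / 2) : ZMod q))) else 0)
      = (GG (nn s) (jp s j) : ZMod q) := by
  rw [← sum_filter]
  have h1 : (range M).filter (fun l => CB s j l) =
      (range (nn s + 1)).filter (fun l => jp s j ≤ l ∧ 2 ∣ l) := by
    ext l
    simp only [mem_filter, mem_range]
    unfold CB
    constructor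
    · rintro ⟨a1, a2, a3, a4⟩
      exact ⟨by omega, a2, a4⟩
    · rintro ⟨a1, a2, a3⟩
      exact ⟨by omega, a2, by omega, a3⟩
  rw [h1]
  unfold GG
  rw [Nat.cast_sum]
  refine sum_congr rfl (fun l _ => ?_)
  push_cast
  ring

lemma HH_eval (hExt : SpecExt) (hPrimeW : SpecPrimeW) (hParam : SpecParam) (s j X a q : ℕ)
    (hq : q < 2 ^ FF s) :
    ((HH s j X a q : ℤ) : ZMod q) =
      ((if CA s a q ∧ q.Prime then cc s j X a q else 0 : ℤ) : ZMod q) := by
  obtain ⟨p1, -, -, -, -, -, -, p8, p9⟩ := hParam s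
  by_cases hA : CA s a q
  swap
  · rw [HH_zero s j X a q hA, if_neg (fun hc => hA hc.1)]
  have hA' := hA
  obtain ⟨ha, hw, hdvd⟩ := hA'
  have hq2 : 2 ≤ q := by omega
  rw [HH_fac s j X a q hA, W_eval hPrimeW (FF s) q hq2 hq]
  by_cases hp : q.Prime
  swap
  · rw [if_neg hp, mul_zero, if_neg (fun hc => hp hc.2), Int.cast_zero]
  rw [if_pos hp, if_pos ⟨hA, hp⟩]
  have hn : nn s < q * q := by
    have h1 : ww s ^ 2 ≤ q * q := by
      rw [pow_two]
      exact Nat.mul_le_mul hw.le hw.le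
    omega
  have hev : Even (ww s) := by
    unfold ww rr sg
    rw [Nat.even_pow]
    exact ⟨even_two, by omega⟩
  -- the sum over `u`
  have hU : ∀ l h : ℕ, (∑ u : Fin 7 → Fin (2 ^ FF s),
        if CB s j l ∧ h ≤ ww s ∧ CD q 7 (ext u) then
          ((cst s (X % q) a q * ((q - 1) ^ h * h ^ KK s) * 2 ^ (l - jp s j) *
            ∏ i : Fin 7, fac s q a l h i (ext u i) : ℕ) : ZMod q) else 0) =
      (cst s (X % q) a q : ZMod q) * ((nn s).choose a : ZMod q) *
        ((if CB s j l then ((2 : ZMod q) ^ (l - jp s j) * (((nn s).choose l : ZMod q) *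
        ((nn s - l).choose ((nn s - l) / 2) : ZMod q))) else 0) *
        (if h ≤ ww s then ((-1 : ZMod q) ^ h * (h : ZMod q) ^ KK s * ((ww s).choose h : ZMod q))
          else 0)) := by
    intro l h
    by_cases hB : CB s j l
    swap
    · rw [if_neg hB, zero_mul, mul_zero]
      exact sum_eq_zero (fun u _ => by rw [if_neg (fun hc => hB hc.1)])
    by_cases hh : h ≤ ww s
    swap
    · rw [if_neg hh, mul_zero, mul_zero]
      exact sum_eq_zero (fun u _ => by rw [if_neg (fun hc => hh hc.2.1)])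
    rw [if_pos hB, if_pos hh]
    have h2 := prod_sum_fin 7 (2 ^ FF s) q hq.le (fun i v => (fac s q a l h i v : ZMod q))
    rw [fac_eval hExt s q a l h hp hn ha hB.2.1 hw hh] at h2
    have h3 : ∀ K : ZMod q, K * (((nn s).choose a : ZMod q) * ((ww s).choose h : ZMod q) *
        (((nn s).choose l : ZMod q) * ((nn s - l).choose ((nn s - l) / 2) : ZMod q))) =
        ∑ u : Fin 7 → Fin (2 ^ FF s), K *
        (if CD q 7 (ext u) then ∏ i : Fin 7, (fac s q a l h i (ext u i) : ZMod q)
          else 0) := by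
      intro K
      rw [← mul_sum, h2]
    have h4 := h3 ((cst s (X % q) a q : ZMod q) * ((-1) ^ h * (h : ZMod q) ^ KK s) *
      2 ^ (l - jp s j))
    have h5 : (∑ u : Fin 7 → Fin (2 ^ FF s),
        if CB s j l ∧ h ≤ ww s ∧ CD q 7 (ext u) then
          ((cst s (X % q) a q * ((q - 1) ^ h * h ^ KK s) * 2 ^ (l - jp s j) *
            ∏ i : Fin 7, fac s q a l h i (ext u i) : ℕ) : ZMod q) else 0) =
        ((cst s (X % q) a q : ZMod q) * ((-1) ^ h * (h : ZMod q) ^ KK s) *
      2 ^ (l - jp s j)) * (((nn s).choose a : ZMod q) * ((ww s).choose h : ZMod q) *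
        (((nn s).choose l : ZMod q) * ((nn s - l).choose ((nn s - l) / 2) : ZMod q))) := by
      rw [h4]
      refine sum_congr rfl (fun u _ => ?_)
      by_cases hD : CD q 7 (ext u)
      · rw [if_pos hD, if_pos ⟨hB, hh, hD⟩, Nat.cast_mul, Nat.cast_prod, Nat.cast_mul,
          Nat.cast_mul, Nat.cast_mul, Nat.cast_pow, Nat.cast_pow, Nat.cast_pow,
          neg_one_cast q (by omega), Nat.cast_ofNat]
      · rw [if_neg hD, if_neg (fun hc => hD hc.2.2), mul_zero]
    rw [h5]
    ring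
  have hS : (∑ l ∈ range (2 ^ FF s), ∑ h ∈ range (2 ^ FF s), ∑ u : Fin 7 → Fin (2 ^ FF s),
        if CB s j l ∧ h ≤ ww s ∧ CD q 7 (ext u) then
          ((cst s (X % q) a q * ((q - 1) ^ h * h ^ KK s) * 2 ^ (l - jp s j) *
            ∏ i : Fin 7, fac s q a l h i (ext u i) : ℕ) : ZMod q) else 0) =
      (cst s (X % q) a q : ZMod q) * ((nn s).choose a : ZMod q) *
        ((GG (nn s) (jp s j) : ZMod q) * ((RR (ww s) (KK s) : ℤ) : ZMod q)) := by
    rw [← RR_eval q (ww s) (KK s) (2 ^ FF s) hev (by omega),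
      ← GG_eval s j q (2 ^ FF s) (by omega), sum_mul_sum, mul_sum]
    refine sum_congr rfl (fun l _ => ?_)
    rw [mul_sum]
    exact sum_congr rfl (fun h _ => hU l h)
  rw [hS]
  have := Fact.mk hp
  have hfac : ((FF s).factorial : ZMod q) ≠ 0 := by
    intro h0
    have h1 := (ZMod.natCast_eq_zero_iff _ _).1 h0
    have h2 := (hp.dvd_factorial).1 h1
    omega
  have hinv : ((FF s).factorial : ZMod q) ^ (q - 2) * ((FF s).factorial : ZMod q) = 1 := by
    rw [← pow_succ]
    have h1 : q - 2 + 1 = q - 1 := by omega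
    rw [h1]
    exact ZMod.pow_card_sub_one_eq_one hfac
  have hc : (cst s (X % q) a q : ZMod q) = (-1) ^ a * (2 * (nn s : ZMod q) + 1) * (X : ZMod q) *
      (((nn s + 1 + a) / q : ℕ) : ZMod q) ^ (q - 2) * ((FF s).factorial : ZMod q) ^ (q - 2) := by
    unfold cst
    rw [Nat.cast_mul, Nat.cast_mul, Nat.cast_mul, Nat.cast_mul, Nat.cast_pow, Nat.cast_pow,
      Nat.cast_pow, neg_one_cast q (by omega), ZMod.natCast_mod]
    push_cast
    ring
  have hcc : ((cc s j X a q : ℤ) : ZMod q) = (-1) ^ a * (2 * (nn s : ZMod q) + 1) *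
      ((nn s).choose a : ZMod q) * ((RR (ww s) (KK s) : ℤ) : ZMod q) *
      (GG (nn s) (jp s j) : ZMod q) * (X : ZMod q) *
      (((nn s + 1 + a) / q : ℕ) : ZMod q) ^ (q - 2) := by
    unfold cc
    rw [Int.cast_mul, Int.cast_mul, Int.cast_mul, Int.cast_mul, Int.cast_mul, Int.cast_mul,
      Int.cast_pow, Int.cast_pow, Int.cast_natCast, Int.cast_natCast, Int.cast_natCast,
      Int.cast_natCast]
    push_cast
    ring
  rw [hc, hcc]
  calc _ = (-1) ^ a * (2 * (nn s : ZMod q) + 1) *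
      ((nn s).choose a : ZMod q) * ((RR (ww s) (KK s) : ℤ) : ZMod q) *
      (GG (nn s) (jp s j) : ZMod q) * (X : ZMod q) *
      (((nn s + 1 + a) / q : ℕ) : ZMod q) ^ (q - 2) *
      (((FF s).factorial : ZMod q) ^ (q - 2) * ((FF s).factorial : ZMod q)) := by ring
    _ = _ := by rw [hinv, mul_one]

end Sum

open MP21c4c4.Sum in
theorem specSum (hExact : SpecExact) (hExt : SpecExt) (hPrimeW : SpecPrimeW)
    (hParam : SpecParam) : SpecSum := by
  intro s j X
  obtain ⟨z, hz⟩ := hExact s j X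
  rw [sum_all s (fun g => (num s j (fun q => X % q) g : ℚ) / (den s j g : ℚ))]
  have h1 : Cg (∑ a ∈ range (2 ^ FF s), ∑ q ∈ range (2 ^ FF s), ∑ l ∈ range (2 ^ FF s),
        ∑ h ∈ range (2 ^ FF s), ∑ u : Fin 7 → Fin (2 ^ FF s),
        ∑ g1 : Fin (FF s) → Fin (2 ^ FF s), ∑ g2 : Fin (FF s) → Fin (2 ^ FF s),
          ((num s j (fun q => X % q) (mk a q l h (ext u) (app (FF s) (ext g1) (ext g2))) : ℚ) /
          (den s j (mk a q l h (ext u) (app (FF s) (ext g1) (ext g2))) : ℚ)))
      (∑ a ∈ range (2 ^ FF s), ∑ q ∈ range (2 ^ FF s),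
        ((if CA s a q ∧ q.Prime then cc s j X a q else 0 : ℤ) : ℚ) / (q : ℚ)) := by
    refine Cg.sum _ _ _ (fun a _ => Cg.sum _ _ _ (fun q hq => ?_))
    exact Cg.trans (sum_Cg s j X a q)
      (Cg.of_zmod q _ _ (HH_eval hExt hPrimeW hParam s j X a q (mem_range.1 hq)))
  obtain ⟨p1, -, -, -, -, -, -, p8, p9⟩ := hParam s
  have h2 : ∑ a ∈ range (2 ^ FF s), ∑ q ∈ range (2 ^ FF s),
        ((if CA s a q ∧ q.Prime then cc s j X a q else 0 : ℤ) : ℚ) / (q : ℚ) =
      ∑ a ∈ range (nn s + 1),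
        ∑ q ∈ (range (2 * nn s + 2)).filter (fun q => q.Prime ∧ ww s < q ∧ q ∣ nn s + 1 + a),
          (cc s j X a q : ℚ) / q := by
    rw [← sum_subset (range_subset_range.2 (show nn s + 1 ≤ 2 ^ FF s by omega))]
    · refine sum_congr rfl (fun a ha => ?_)
      have ha' : a ≤ nn s := by
        have := mem_range.1 ha
        omega
      rw [sum_filter, ← sum_subset (range_subset_range.2 (show 2 * nn s + 2 ≤ 2 ^ FF s by omega))]
      · refine sum_congr rfl (fun q _ => ?_)
        by_cases hc : q.Prime ∧ ww s < q ∧ q ∣ nn s + 1 + a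
        · rw [if_pos hc, if_pos ⟨⟨ha', hc.2⟩, hc.1⟩]
        · rw [if_neg hc, if_neg, Int.cast_zero, zero_div]
          rintro ⟨⟨b1, b2, b3⟩, b4⟩
          exact hc ⟨b4, b2, b3⟩
      · intro q _ hq
        rw [if_neg, Int.cast_zero, zero_div]
        rintro ⟨⟨b1, b2, b3⟩, b4⟩
        have := Nat.le_of_dvd (by omega) b3
        rw [mem_range] at hq
        omega
    · intro a _ ha
      refine sum_eq_zero (fun q _ => ?_)
      rw [if_neg, Int.cast_zero, zero_div]
      rintro ⟨⟨b1, b2, b3⟩, b4⟩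
      rw [mem_range] at ha
      omega
  rw [h2] at h1
  obtain ⟨z', hz'⟩ := h1
  refine ⟨z' - z, ?_⟩
  rw [hz', hz]
  push_cast
  ring

end MP21c4c4
end
end

section
/-!
# MP_21c4c4_lc, module SURJ
-/
open scoped Classical
open Finset

noncomputable section

namespace MP21c4c4

namespace Surj

/-- number of surjections by recursion: `T K w` -/
def T : ℕ → ℕ → ℕ
  | 0, 0 => 1
  | 0, _ + 1 => 0
  | _ + 1, 0 => 0
  | K + 1, w + 1 => (w + 1) * (T K (w + 1) + T K w)

lemma RR_eq (w K : ℕ) : RR w K =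
    (-1) ^ w * ∑ h ∈ range (w + 1), (-1) ^ h * (w.choose h : ℤ) * (h : ℤ) ^ K := by
  rw [RR, mul_sum]
  refine sum_congr rfl fun h hh => ?_
  have hh' : h ≤ w := by
    have := mem_range.1 hh
    omega
  have e : (-1 : ℤ) ^ (w - h) = (-1) ^ w * (-1) ^ h := by
    have h1 : (-1 : ℤ) ^ w = (-1) ^ (w - h) * (-1) ^ h := by
      rw [← pow_add]
      congr 1
      omega
    rw [h1, mul_assoc, ← mul_pow]
    norm_num
  rw [e]
  ring

lemma RR_zero (w : ℕ) : RR w 0 = if w = 0 then 1 else 0 := by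
  rw [RR_eq]
  have h := Int.alternating_sum_range_choose (n := w)
  simp only [pow_zero, mul_one]
  rw [h]
  split_ifs with hw
  · subst hw
    simp
  · simp

lemma RR_zero_succ (K : ℕ) : RR 0 (K + 1) = 0 := by
  simp [RR]

lemma RR_succ (w K : ℕ) : RR (w + 1) (K + 1) = ((w : ℤ) + 1) * (RR (w + 1) K + RR w K) := by
  rw [RR_eq, RR_eq, RR_eq]
  have h1 : ∑ h ∈ range (w + 1 + 1), (-1 : ℤ) ^ h * ((w + 1).choose h : ℤ) * (h : ℤ) ^ (K + 1) =
      ((w : ℤ) + 1) * (∑ h ∈ range (w + 1 + 1), (-1 : ℤ) ^ h * ((w + 1).choose h : ℤ) * (h : ℤ) ^ K -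
        ∑ h ∈ range (w + 1), (-1 : ℤ) ^ h * (w.choose h : ℤ) * (h : ℤ) ^ K) := by
    have h2 : ∑ h ∈ range (w + 1), (-1 : ℤ) ^ h * (w.choose h : ℤ) * (h : ℤ) ^ K =
        ∑ h ∈ range (w + 1 + 1), (-1 : ℤ) ^ h * (w.choose h : ℤ) * (h : ℤ) ^ K := by
      rw [sum_range_succ _ (w + 1)]
      simp
    rw [h2, ← sum_sub_distrib, mul_sum]
    refine sum_congr rfl fun h _ => ?_
    cases h with
    | zero => simp
    | succ h =>
      have e1 : (((w + 1).choose (h + 1) : ℕ) : ℤ) = (w.choose h : ℤ) + (w.choose (h + 1) : ℤ) := by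
        rw [Nat.choose_succ_succ]
        push_cast
        ring
      have e2 : (((w + 1).choose (h + 1) : ℕ) : ℤ) * ((h : ℤ) + 1) =
          ((w : ℤ) + 1) * (w.choose h : ℤ) := by
        have := Nat.add_one_mul_choose_eq w h
        exact_mod_cast this.symm
      have e3 : (-1 : ℤ) ^ (h + 1) * ((w + 1).choose (h + 1) : ℤ) * ((h + 1 : ℕ) : ℤ) ^ (K + 1) =
          (-1 : ℤ) ^ (h + 1) * (((w + 1).choose (h + 1) : ℤ) * ((h : ℤ) + 1)) *
            ((h + 1 : ℕ) : ℤ) ^ K := by
        push_cast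
        ring
      rw [e3, e2, e1]
      ring
  rw [h1, pow_succ]
  ring

lemma RR_T (K : ℕ) : ∀ w : ℕ, RR w K = (T K w : ℤ) := by
  induction K with
  | zero =>
    intro w
    rw [RR_zero]
    cases w <;> simp [T]
  | succ K ih =>
    intro w
    cases w with
    | zero => simp [T, RR_zero_succ]
    | succ w =>
      rw [RR_succ, ih, ih, T]
      push_cast
      ring

lemma fac_dvd (K : ℕ) : ∀ w : ℕ, w.factorial ∣ T K w := by
  induction K with
  | zero =>
    intro w
    cases w <;> simp [T]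
  | succ K ih =>
    intro w
    cases w with
    | zero => simp [T]
    | succ w =>
      rw [T, Nat.factorial_succ]
      refine Nat.mul_dvd_mul (Dvd.intro _ (mul_one _)) (dvd_add ?_ (ih w))
      exact (Nat.factorial_dvd_factorial (Nat.le_succ w)).trans (ih (w + 1))

/-- inversion: `w ^ K` is the sum of the numbers of surjections onto subsets -/
lemma total (K : ℕ) : ∀ w : ℕ, ∑ h ∈ range (w + 1), w.choose h * T K h = w ^ K := by
  induction K with
  | zero =>
    intro w
    rw [sum_range_succ']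
    have : ∑ k ∈ range w, w.choose (k + 1) * T 0 (k + 1) = 0 := by
      refine sum_eq_zero fun k _ => ?_
      simp [T]
    rw [this]
    simp [T]
  | succ K ih =>
    intro w
    rw [sum_range_succ']
    have h0 : w.choose 0 * T (K + 1) 0 = 0 := by simp [T]
    rw [h0, add_zero]
    have h1 : ∑ h ∈ range w, w.choose (h + 1) * T (K + 1) (h + 1) =
        ∑ h ∈ range w, w.choose (h + 1) * (h + 1) * T K (h + 1) +
          ∑ h ∈ range w, (w - h) * w.choose h * T K h := by
      rw [← sum_add_distrib]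
      refine sum_congr rfl fun h hh => ?_
      have e := Nat.choose_succ_right_eq w h
      rw [T]
      calc w.choose (h + 1) * ((h + 1) * (T K (h + 1) + T K h))
          = w.choose (h + 1) * (h + 1) * T K (h + 1) + (w.choose (h + 1) * (h + 1)) * T K h := by ring
        _ = _ := by rw [e]; ring
    have h2 : ∑ h ∈ range w, w.choose (h + 1) * (h + 1) * T K (h + 1) =
        ∑ h ∈ range (w + 1), w.choose h * h * T K h := by
      rw [sum_range_succ']
      simp
    have h3 : ∑ h ∈ range w, (w - h) * w.choose h * T K h =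
        ∑ h ∈ range (w + 1), (w - h) * w.choose h * T K h := by
      rw [sum_range_succ]
      simp
    rw [h1, h2, h3, ← sum_add_distrib, pow_succ, ← ih w, sum_mul]
    refine sum_congr rfl fun h hh => ?_
    have hh' : h ≤ w := by
      have := mem_range.1 hh
      omega
    calc w.choose h * h * T K h + (w - h) * w.choose h * T K h
        = (h + (w - h)) * (w.choose h * T K h) := by ring
      _ = _ := by rw [Nat.add_sub_cancel' hh']; ring

lemma choose_le (w h : ℕ) (hh : h ≤ w) : (w + 1).choose h ≤ (w + 1) * w.choose h := by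
  have e := Nat.choose_mul_succ_eq w h
  have h1 : 1 ≤ w + 1 - h := by omega
  calc (w + 1).choose h ≤ (w + 1).choose h * (w + 1 - h) := Nat.le_mul_of_pos_right _ h1
    _ = w.choose h * (w + 1) := e.symm
    _ = _ := mul_comm _ _

lemma lower (K w : ℕ) : (w + 1) ^ K ≤ T K (w + 1) + (w + 1) * w ^ K := by
  rw [← total K (w + 1), sum_range_succ, ← total K w, mul_sum, add_comm]
  refine add_le_add (by simp) (sum_le_sum fun h hh => ?_)
  have hh' : h ≤ w := by
    have := mem_range.1 hh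
    omega
  rw [← mul_assoc]
  exact Nat.mul_le_mul_right _ (choose_le w h hh')

lemma upper (K w : ℕ) : T K w ≤ w ^ K := by
  rw [← total K w, sum_range_succ]
  simp

end Surj

theorem specSurj : SpecSurj := by
  intro w K hw
  rw [Surj.RR_T]
  refine ⟨?_, ?_, ?_⟩
  · exact_mod_cast Surj.fac_dvd K w
  · exact_mod_cast Surj.upper K w
  · obtain ⟨w, rfl⟩ : ∃ w', w = w' + 1 := ⟨w - 1, by omega⟩
    have h := Surj.lower K w
    have h' : ((w : ℤ) + 1) ^ K ≤ (Surj.T K (w + 1) : ℤ) + ((w : ℤ) + 1) * (w : ℤ) ^ K := by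
      exact_mod_cast h
    push_cast
    rw [show (w : ℤ) + 1 - 1 = w by ring]
    linarith

end MP21c4c4
end
end

section
/-!
# MP_21c4c4_lc, module TRI: the trinomial identity for the central binomial coefficient
-/
open scoped Classical
open Finset Polynomial

noncomputable section

namespace MP21c4c4

namespace Tri

/-- coefficient of `y ^ c` in `(1 + y ^ 2) ^ m` -/
lemma coeff_one_add_sq_pow (m c : ℕ) :
    ((1 + X ^ 2 : ℕ[X]) ^ m).coeff c = if 2 ∣ c then m.choose (c / 2) else 0 := by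
  have h : (1 + X ^ 2 : ℕ[X]) ^ m = Polynomial.expand ℕ 2 ((1 + X) ^ m) := by
    simp
  rw [h, Polynomial.coeff_expand (by norm_num)]
  split_ifs with h2
  · rw [add_comm, Polynomial.coeff_X_add_one_pow]
    simp
  · rfl

lemma key (n : ℕ) : ((1 + X : ℕ[X]) ^ (2 * n)) =
    ∑ l ∈ range (n + 1), C (n.choose l * 2 ^ l) * (X ^ l * (1 + X ^ 2 : ℕ[X]) ^ (n - l)) := by
  have h1 : ((1 + X : ℕ[X]) ^ (2 * n)) = (2 * X + (1 + X ^ 2)) ^ n := by
    rw [pow_mul]
    congr 1
    ring
  rw [h1, add_pow]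
  refine Finset.sum_congr rfl (fun l _ => ?_)
  rw [mul_pow, map_mul, map_pow]
  simp only [Polynomial.C_ofNat, map_natCast]
  have : (C (n.choose l) : ℕ[X]) = (n.choose l : ℕ[X]) := by simp
  rw [this]
  ring

end Tri

open Tri in
theorem specTri : SpecTri := by
  intro n hn
  have h0 : Nat.centralBinom n = ((1 + X : ℕ[X]) ^ (2 * n)).coeff n := by
    rw [add_comm, Polynomial.coeff_X_add_one_pow]
    simp [Nat.centralBinom]
  rw [h0, key n, Polynomial.finsetSum_coeff, Finset.sum_filter]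
  refine Finset.sum_congr rfl (fun l hl => ?_)
  have hl' : l ≤ n := by
    have := mem_range.1 hl
    omega
  rw [Polynomial.coeff_C_mul]
  have h2 : ((X : ℕ[X]) ^ l * (1 + X ^ 2 : ℕ[X]) ^ (n - l)).coeff n =
      ((1 + X ^ 2 : ℕ[X]) ^ (n - l)).coeff (n - l) := by
    have h3 := Polynomial.coeff_X_pow_mul ((1 + X ^ 2 : ℕ[X]) ^ (n - l)) l (n - l)
    rw [Nat.sub_add_cancel hl'] at h3
    exact h3
  rw [h2, coeff_one_add_sq_pow]
  by_cases h4 : 2 ∣ l
  · have h5 : 2 ∣ n - l := Nat.dvd_sub hn h4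
    rw [if_pos h4, if_pos h5]
    ring
  · have h5 : ¬ 2 ∣ n - l := by
      intro h6
      apply h4
      omega
    rw [if_neg h4, if_neg h5, mul_zero]

namespace Tri

lemma sum_choose_le (n : ℕ) (hn : 2 ≤ n) : ∀ j, ∑ l ∈ range j, n.choose l ≤ n ^ j := by
  intro j
  induction j with
  | zero => simp
  | succ j ih =>
    rw [Finset.sum_range_succ]
    have h1 : n.choose j ≤ n ^ j := Nat.choose_le_pow n j
    have h2 : n ^ (j + 1) = n * n ^ j := by ring
    rw [h2]
    nlinarith [Nat.zero_le (n ^ j)]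

end Tri

open Tri in
theorem specGG : SpecGG := by
  intro n j' hn2 hn
  have h0 := specTri n hn2
  have h1 : 2 ^ j' * GG n j' = ∑ l ∈ (range (n + 1)).filter (fun l => j' ≤ l ∧ 2 ∣ l),
      n.choose l * (n - l).choose ((n - l) / 2) * 2 ^ l := by
    unfold GG
    rw [Finset.mul_sum]
    refine Finset.sum_congr rfl (fun l hl => ?_)
    have h2 : j' ≤ l := (mem_filter.1 hl).2.1
    have h3 : 2 ^ l = 2 ^ j' * 2 ^ (l - j') := by
      rw [← pow_add]
      congr 1
      omega
    rw [h3]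
    ring
  have h2 : Nat.centralBinom n = 2 ^ j' * GG n j' +
      ∑ l ∈ (range (n + 1)).filter (fun l => l < j' ∧ 2 ∣ l),
        n.choose l * (n - l).choose ((n - l) / 2) * 2 ^ l := by
    rw [h0, h1, ← Finset.sum_union]
    · refine Finset.sum_congr ?_ (fun _ _ => rfl)
      ext l
      simp only [mem_filter, mem_union, mem_range]
      by_cases h : j' ≤ l
      · have h' : ¬ l < j' := by omega
        simp [h, h']
      · have h' : l < j' := by omega
        simp [h, h']
    · rw [Finset.disjoint_left]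
      intro l hl hl'
      have h3 := (mem_filter.1 hl).2.1
      have h4 := (mem_filter.1 hl').2.1
      omega
  have h3 : ∑ l ∈ (range (n + 1)).filter (fun l => l < j' ∧ 2 ∣ l),
      n.choose l * (n - l).choose ((n - l) / 2) * 2 ^ l ≤ 2 ^ n * n ^ j' := by
    calc ∑ l ∈ (range (n + 1)).filter (fun l => l < j' ∧ 2 ∣ l),
        n.choose l * (n - l).choose ((n - l) / 2) * 2 ^ l
        ≤ ∑ l ∈ (range (n + 1)).filter (fun l => l < j' ∧ 2 ∣ l), 2 ^ n * n.choose l := by
          refine Finset.sum_le_sum (fun l hl => ?_)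
          have h4 : l ≤ n := by
            have := mem_range.1 (mem_filter.1 hl).1
            omega
          have h5 : (n - l).choose ((n - l) / 2) ≤ 2 ^ (n - l) := Nat.choose_le_two_pow _ _
          have h6 : 2 ^ n = 2 ^ (n - l) * 2 ^ l := by
            rw [← pow_add]
            congr 1
            omega
          calc n.choose l * (n - l).choose ((n - l) / 2) * 2 ^ l
              ≤ n.choose l * 2 ^ (n - l) * 2 ^ l := by gcongr
            _ = 2 ^ n * n.choose l := by rw [h6]; ring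
      _ ≤ ∑ l ∈ range j', 2 ^ n * n.choose l := by
          apply Finset.sum_le_sum_of_subset
          intro l hl
          exact mem_range.2 (mem_filter.1 hl).2.1
      _ = 2 ^ n * ∑ l ∈ range j', n.choose l := by rw [Finset.mul_sum]
      _ ≤ 2 ^ n * n ^ j' := by
          gcongr
          exact sum_choose_le n hn j'
  refine ⟨?_, ?_⟩
  · rw [h2]
    exact Nat.le_add_right _ _
  · rw [h2]
    exact Nat.add_le_add_left h3 _

end MP21c4c4
end
end

section
/-!
# Module VALUE: sizes of the code and of the value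
-/
set_option autoImplicit false

open scoped Classical
open Finset

noncomputable section

namespace MP21c4c4

namespace VALUE

/-- the digits of an encoded list -/
def digs (l : List ℕ) : List ℕ := l.flatMap (fun a => Nat.digits 2 a ++ [2])

lemma digs_nil : digs [] = [] := rfl

lemma digs_cons (a : ℕ) (l : List ℕ) : digs (a :: l) = Nat.digits 2 a ++ [2] ++ digs l := by
  unfold digs
  rw [List.flatMap_cons]

lemma digs_append (l l' : List ℕ) : digs (l ++ l') = digs l ++ digs l' := by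
  unfold digs
  rw [List.flatMap_append]

lemma digs_lt (l : List ℕ) : ∀ d ∈ digs l, d < 4 := by
  intro d hd
  unfold digs at hd
  rw [List.mem_flatMap] at hd
  obtain ⟨a, _, ha⟩ := hd
  rw [List.mem_append] at ha
  rcases ha with ha | ha
  · have := Nat.digits_lt_base (by norm_num : 1 < 2) ha
    omega
  · simp only [List.mem_singleton] at ha
    omega

lemma digs_last {l : List ℕ} (hl : l ≠ []) : ∃ m, digs l = m ++ [2] := by
  induction l with
  | nil => exact absurd rfl hl
  | cons a l ih =>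
    rcases l.eq_nil_or_concat with h | ⟨l', b, h⟩
    · subst h
      exact ⟨Nat.digits 2 a, by rw [digs_cons, digs_nil, List.append_nil]⟩
    · obtain ⟨m, hm⟩ := ih (by rw [h]; simp)
      exact ⟨Nat.digits 2 a ++ [2] ++ m, by rw [digs_cons, hm]; simp⟩

lemma digits_length_le (a : ℕ) : Nat.size a ≤ (Nat.digits 2 a).length := by
  rw [Nat.size_le]
  exact Nat.lt_base_pow_length_digits (by norm_num)

lemma digs_length_cons (a : ℕ) (l : List ℕ) :
    Nat.size a + 1 + (digs l).length ≤ (digs (a :: l)).length := by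
  rw [digs_cons]
  simp only [List.length_append, List.length_cons, List.length_nil]
  have := digits_length_le a
  omega

lemma length_le_digs (l : List ℕ) : l.length ≤ (digs l).length := by
  induction l with
  | nil => simp
  | cons a l ih =>
    have := digs_length_cons a l
    simp only [List.length_cons]
    omega

/-- the binary length of the code is at least the number of digits -/
lemma length_le_size {l : List ℕ} (hl : l ≠ []) : (digs l).length ≤ Nat.size (encList l) := by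
  obtain ⟨m, hm⟩ := digs_last hl
  have h1 : encList l = Nat.ofDigits 4 (digs l) := rfl
  rw [h1, hm, Nat.ofDigits_append, List.length_append, List.length_singleton]
  have h2 : 4 ^ m.length * 1 ≤ Nat.ofDigits 4 m + 4 ^ m.length * Nat.ofDigits 4 [2] := by
    have : Nat.ofDigits 4 [2] = 2 := by simp [Nat.ofDigits]
    rw [this]
    have := Nat.zero_le (Nat.ofDigits 4 m)
    omega
  have h3 : 2 ^ m.length ≤ Nat.ofDigits 4 m + 4 ^ m.length * Nat.ofDigits 4 [2] := by
    refine le_trans ?_ h2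
    rw [mul_one]
    exact Nat.pow_le_pow_left (by norm_num) _
  have h4 := (Nat.lt_size (m := m.length)).2 h3
  omega

/-- the list encoded by the code -/
def instList (P : SLP) (i b : ℕ) : List ℕ :=
  i :: b :: P.flatMap (fun c => [c.1.code, c.2.1, c.2.2])

lemma prog_length (P : SLP) :
    (P.flatMap (fun c => [c.1.code, c.2.1, c.2.2])).length = 3 * P.length := by
  induction P with
  | nil => rfl
  | cons c P ih =>
    rw [List.flatMap_cons, List.length_append, ih]
    simp only [List.length_cons, List.length_nil]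
    omega

lemma size_code_ge (P : SLP) (i b : ℕ) :
    Nat.size i + P.length + 1 ≤ Nat.size (code P i b) := by
  have h1 : code P i b = encList (instList P i b) := rfl
  have h2 := length_le_size (l := instList P i b) (by simp [instList])
  have h3 := digs_length_cons i (b :: P.flatMap (fun c => [c.1.code, c.2.1, c.2.2]))
  have h4 := length_le_digs (b :: P.flatMap (fun c => [c.1.code, c.2.1, c.2.2]))
  rw [List.length_cons, prog_length] at h4
  rw [h1]
  unfold instList at *
  omega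

lemma two_pow_bound (k : ℕ) : 2 * 2 ^ 2 ^ k ≤ 2 ^ 2 ^ (k + 1) := by
  have h1 : 2 * 2 ^ 2 ^ k = 2 ^ (2 ^ k + 1) := by rw [pow_succ, mul_comm]
  rw [h1]
  apply Nat.pow_le_pow_right (by norm_num)
  have := Nat.one_le_two_pow (n := k)
  rw [pow_succ]
  omega

lemma vals_append (P : SLP) (c : Op × ℕ × ℕ) : vals (P ++ [c]) =
    vals P ++ [c.1.ev ((vals P).getD c.2.1 0) ((vals P).getD c.2.2 0)] := by
  unfold vals
  rw [List.foldl_append]
  rfl

lemma getD_bound {l : List ℤ} {B : ℤ} (hB : 0 ≤ B) (h : ∀ x ∈ l, |x| ≤ B) (i : ℕ) :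
    |l.getD i 0| ≤ B := by
  rcases Nat.lt_or_ge i l.length with hi | hi
  · rw [List.getD_eq_getElem _ _ hi]
    exact h _ (List.getElem_mem hi)
  · rw [List.getD_eq_default _ _ hi, abs_zero]
    exact hB

lemma vals_bound (P : SLP) : ∀ x ∈ vals P, |x| ≤ (2 : ℤ) ^ 2 ^ P.length := by
  induction P using List.reverseRecOn with
  | nil =>
    intro x hx
    simp only [vals, List.foldl_nil, List.mem_singleton] at hx
    subst hx
    norm_num
  | append_singleton P c ih =>
    intro x hx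
    rw [vals_append, List.mem_append] at hx
    have hmono : (2 : ℤ) ^ 2 ^ P.length ≤ (2 : ℤ) ^ 2 ^ (P ++ [c]).length := by
      apply pow_le_pow_right₀ (by norm_num)
      apply Nat.pow_le_pow_right (by norm_num)
      simp
    rcases hx with hx | hx
    · exact le_trans (ih x hx) hmono
    · simp only [List.mem_singleton] at hx
      subst hx
      have h0 : (0 : ℤ) ≤ (2 : ℤ) ^ 2 ^ P.length := by positivity
      have h1 := getD_bound h0 ih c.2.1
      have h2 := getD_bound h0 ih c.2.2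
      have hlen : (P ++ [c]).length = P.length + 1 := by simp
      rw [hlen]
      have h3 : (2 : ℤ) * 2 ^ 2 ^ P.length ≤ 2 ^ 2 ^ (P.length + 1) := by
        exact_mod_cast two_pow_bound P.length
      have h4 : (2 : ℤ) ^ 2 ^ (P.length + 1) = 2 ^ 2 ^ P.length * 2 ^ 2 ^ P.length := by
        rw [pow_succ 2 P.length, mul_comm (2 ^ P.length) 2, two_mul, pow_add]
      cases c.1 with
      | add =>
        show |_ + _| ≤ _
        refine le_trans (abs_add_le _ _) (le_trans (add_le_add h1 h2) ?_)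
        linarith
      | sub =>
        show |_ - _| ≤ _
        refine le_trans (abs_sub _ _) (le_trans (add_le_add h1 h2) ?_)
        linarith
      | mul =>
        show |_ * _| ≤ _
        rw [abs_mul, h4]
        exact mul_le_mul h1 h2 (abs_nonneg _) h0

lemma value_bound (P : SLP) : |value P| ≤ (2 : ℤ) ^ 2 ^ P.length := by
  unfold value
  rcases (vals P).eq_nil_or_concat with h | ⟨l, a, h⟩
  · rw [h]
    simp only [List.getLastD_nil, abs_one]
    exact one_le_pow₀ (by norm_num)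
  · have h1 : (vals P).getLastD 1 = a := by
      rw [h]
      simp
    rw [h1]
    apply vals_bound
    rw [h]
    simp

end VALUE

open VALUE in
theorem specValue : SpecValue := by
  intro P i b _ _
  have h := size_code_ge P i b
  refine ⟨?_, by omega, ?_⟩
  · have h1 : i < 2 ^ Nat.size i := Nat.lt_size_self i
    exact lt_of_lt_of_le h1 (Nat.pow_le_pow_right (by norm_num) (by omega))
  · refine lt_of_le_of_lt (value_bound P) ?_
    apply pow_lt_pow_right₀ (by norm_num)
    apply Nat.pow_lt_pow_right (by norm_num)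
    omega

end MP21c4c4
end
end
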